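import Pool.Agent.Work.MP_63853a_lc.Tr.Defs

set_option autoImplicit false

/-!
# Lab (size S-M): labels

`out_anti`: clear. `out_eq`: `out φ Y v = (out φ X v).filter (· ∉ Y)` for `X ⊆ Y`, so equal for vertices with the same `out φ X`.
`lab_mono` from it. `gen_com`: in the first case take `Z = lab φ X v` (for `z ∈ lab φ X v` the sets `out φ X z = out φ X v` contain
`u` and `w`, so `z` is adjacent to both; `z ∈ X`, `u, w ∉ X`), in the second `Z = out φ X v`
(`out φ X u = out φ X v = out φ X w`; `z ∉ X`). `laminar`: induction on `T`: sets of a subtree are subsets of its `verts`, the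
`verts` of two children are disjoint.
-/

namespace Pool.Agent.Work.MP_63853a_lc.Tr

open Finset Pool.Agent.Work.MP_63853a_lc

variable {V E : Type} [Fintype V]

theorem nb_symm (φ : E → V × V) {u w : V} (h : nb φ u w) : nb φ w u := by
  obtain ⟨e, he⟩ := h
  exact ⟨e, he.symm⟩

theorem out_anti (φ : E → V × V) {X Y : Finset V} (h : X ⊆ Y) (v : V) : out φ Y v ⊆ out φ X v := by
  intro w hw
  simp only [out, mem_filter, mem_univ, true_and] at hw ⊢
  exact ⟨fun h3 => hw.1 (h h3), hw.2⟩

open Classical in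
private theorem out_filter (φ : E → V × V) {X Y : Finset V} (h : X ⊆ Y) (v : V) :
    out φ Y v = (out φ X v).filter (fun w => w ∉ Y) := by
  ext w
  simp only [out, mem_filter, mem_univ, true_and]
  constructor
  · rintro ⟨h1, h2⟩
    exact ⟨⟨fun h3 => h1 (h h3), h2⟩, h1⟩
  · rintro ⟨⟨_, h2⟩, h1⟩
    exact ⟨h1, h2⟩

private theorem mem_lab (φ : E → V × V) {X : Finset V} {v u : V} :
    u ∈ lab φ X v ↔ u ∈ X ∧ out φ X u = out φ X v := by
  simp [lab]

private theorem mem_out (φ : E → V × V) {X : Finset V} {v w : V} :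
    w ∈ out φ X v ↔ w ∉ X ∧ nb φ v w := by
  simp [out]

theorem lab_mono (φ : E → V × V) {X Y : Finset V} (h : X ⊆ Y) (v : V) : lab φ X v ⊆ lab φ Y v := by
  intro u hu
  rw [mem_lab] at hu ⊢
  refine ⟨h hu.1, ?_⟩
  rw [out_filter φ h u, out_filter φ h v, hu.2]

theorem gen_symm (φ : E → V × V) {κ : ℕ} {T : VTree V} {u w : V} (h : Gen φ κ T u w) : Gen φ κ T w u := by
  obtain ⟨X, hX, v, hv, h1 | h1⟩ := h
  · exact ⟨X, hX, v, hv, Or.inl ⟨h1.1, h1.2.2, h1.2.1⟩⟩
  · exact ⟨X, hX, v, hv, Or.inr ⟨h1.1, h1.2.2, h1.2.1⟩⟩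

theorem gen_com (φ : E → V × V) {κ : ℕ} {T : VTree V} {u w : V} (h : Gen φ κ T u w) : Com φ κ u w := by
  obtain ⟨X, hX, v, hv, ⟨h1, hu, hw⟩ | ⟨h1, hu, hw⟩⟩ := h
  · refine ⟨lab φ X v, h1, fun z hz => ?_⟩
    rw [mem_lab] at hz
    rw [← hz.2] at hu hw
    rw [mem_out] at hu hw
    refine ⟨?_, ?_, nb_symm φ hu.2, nb_symm φ hw.2⟩
    · intro h2
      rw [← h2] at hu
      exact hu.1 hz.1
    · intro h2
      rw [← h2] at hw
      exact hw.1 hz.1
  · refine ⟨out φ X v, h1, fun z hz => ?_⟩
    rw [mem_lab] at hu hw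
    have hzu : z ∈ out φ X u := by rw [hu.2]; exact hz
    have hzw : z ∈ out φ X w := by rw [hw.2]; exact hz
    rw [mem_out] at hzu hzw
    refine ⟨?_, ?_, hzu.2, hzw.2⟩
    · intro h2
      rw [← h2] at hu
      exact hzu.1 hu.1
    · intro h2
      rw [← h2] at hw
      exact hzw.1 hw.1

theorem sets_sub {T : VTree V} {X : Finset V} (h : X ∈ T.sets) : X ⊆ T.verts := by
  induction T with
  | leaf v =>
    have h1 : X = {v} := h
    rw [h1]
    exact Finset.Subset.refl _
  | node l r ihl ihr =>
    classical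
    simp only [VTree.sets, Set.mem_insert_iff, Set.mem_union] at h
    unfold VTree.verts
    rcases h with h | h | h
    · rw [h]
    · exact (ihl h).trans subset_union_left
    · exact (ihr h).trans subset_union_right

theorem verts_mem (T : VTree V) : T.verts ∈ T.sets := by
  cases T with
  | leaf v => exact rfl
  | node l r => exact Set.mem_insert _ _

theorem laminar {T : VTree V} (hT : T.Nodup) {X Y : Finset V} (hX : X ∈ T.sets) (hY : Y ∈ T.sets) :
    X ⊆ Y ∨ Y ⊆ X ∨ Disjoint X Y := by
  induction T with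
  | leaf v =>
    have h1 : X = {v} := hX
    have h2 : Y = {v} := hY
    rw [h1, h2]
    exact Or.inl (Finset.Subset.refl _)
  | node l r ihl ihr =>
    obtain ⟨hd, hl, hr⟩ := hT
    have hXs : X ⊆ (VTree.node l r).verts := sets_sub hX
    have hYs : Y ⊆ (VTree.node l r).verts := sets_sub hY
    simp only [VTree.sets, Set.mem_insert_iff, Set.mem_union] at hX hY
    rcases hX with hX | hX | hX
    · right
      left
      rw [hX]
      exact hYs
    · rcases hY with hY | hY | hY
      · left
        rw [hY]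
        exact hXs
      · exact ihl hl hX hY
      · right
        right
        exact Finset.disjoint_of_subset_left (sets_sub hX)
          (Finset.disjoint_of_subset_right (sets_sub hY) hd)
    · rcases hY with hY | hY | hY
      · left
        rw [hY]
        exact hXs
      · right
        right
        exact (Finset.disjoint_of_subset_left (sets_sub hY)
          (Finset.disjoint_of_subset_right (sets_sub hX) hd)).symm
      · exact ihr hr hX hY

end Pool.Agent.Work.MP_63853a_lc.Tr
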