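import Pool.Agent.Work.MP_63853a_lc.Tr.Sub

set_option autoImplicit false

/-!
# Lam (size M): the connectivity function and the boundary

To show `kk ∅ + kk univ ≤ kk S + kk (univ \ S) + |W|` (`kk ∅ = card V`, `kk_empty`). For `P ⊆ univ \ S` let `ω P` be the number of
elements of the image of `W` under `cls ψ P`. Claim (induction on `P`, `Finset.induction_on` or on a list of the edges):
`(kk ∅ - kk P) - (kk S - kk (S ∪ P)) + ω P ≤ |W|`, i.e. `kk ∅ + kk (S ∪ P) + ω P ≤ |W| + kk P + kk S`. `P = ∅`: `ω ∅ ≤ |W|`. Step,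
`e ∉ S`, `e ∉ P`: if `e` does not cross `P` nothing changes (`ω (insert e P) ≤ ω P` always, as the classes of `insert e P` are images
of those of `P`). If `e` crosses `P` and `S ∪ P`, both `kk P` and `kk (S ∪ P)` drop by one. If `e` crosses `P` but not
`S ∪ P`, then `kk P` drops by one and we need `ω (insert e P) ≤ ω P - 1`: both classes of `P` containing an end of `e` contain
an element of `W`, and they are different in `P` and equal in `insert e P`. Proof that the class of an end `a` of `e` (other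
end `b`) contains an element of `W`: otherwise the set `K = {z | cls P z = cls P a}` is closed under the edges of `S ∪ P`:
clear for `P`; let `f ∈ S` be an edge, not a loop, with an end `z ∈ K`. Then `z` is an end of an edge outside `S` which is not
a loop: of `e` if `z = a`, and of an edge of `P` if `z ≠ a` (otherwise `{z}` is closed under the edges of `P` and
`cls P z ≠ cls P a`). So `z ∈ W`, a contradiction. Hence `cls (S ∪ P) a = cls (S ∪ P) b` gives `b ∈ K`, a contradiction as
`e` crosses `P`. (Sets closed under the edges of `A` are unions of classes: `Quot.lift` to `Prop`.)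
At the end `P = univ \ S`, `ω ≥ 0`; then `lam ψ S = (n - kk S) + (n - kk (univ \ S)) - (n - kk univ) ≤ |W|` by `omega` with `kk_le`.
-/

namespace Pool.Agent.Work.MP_63853a_lc.Tr

open Finset Pool.Agent.Work.MP_63853a_lc

variable {V E : Type} [Fintype V] [Fintype E]

omit [Fintype V] [Fintype E] in
private theorem lam_closed (ψ : E → V × V) {A : Finset E} (χ : V → Prop)
    (h : ∀ f ∈ A, (χ (ψ f).1 ↔ χ (ψ f).2)) {u v : V} (huv : cls ψ A u = cls ψ A v) : χ u ↔ χ v := by
  have h1 := congrArg (Quot.lift χ (by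
    rintro a b ⟨e, he, hab⟩
    have h2 := h e he
    rw [hab] at h2
    exact propext h2)) huv
  have h3 : χ u = χ v := h1
  rw [h3]

omit [Fintype V] [Fintype E] in
private theorem lam_end (ψ : E → V × V) {P : Finset E} {u a : V} (h : cls ψ P u = cls ψ P a)
    (hua : u ≠ a) : ∃ g ∈ P, (ψ g).1 ≠ (ψ g).2 ∧ ((ψ g).1 = u ∨ (ψ g).2 = u) := by
  by_contra hcon
  push Not at hcon
  have h1 := lam_closed ψ (fun z => z = u) (A := P) (by
    intro f hf
    by_cases h2 : (ψ f).1 = (ψ f).2
    · rw [h2]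
    · have h3 := hcon f hf h2
      constructor
      · intro h4
        exact absurd h4 h3.1
      · intro h4
        exact absurd h4 h3.2) h
  exact hua (h1.1 rfl).symm

open Classical in
omit [Fintype V] [Fintype E] in
private theorem lam_meet (ψ : E → V × V) {S P : Finset E} (W : Finset V)
    (hW : ∀ p : V, (∃ e ∈ S, (ψ e).1 ≠ (ψ e).2 ∧ ((ψ e).1 = p ∨ (ψ e).2 = p)) →
      (∃ e, e ∉ S ∧ (ψ e).1 ≠ (ψ e).2 ∧ ((ψ e).1 = p ∨ (ψ e).2 = p)) → p ∈ W)
    (hPS : Disjoint P S) {e : E} (heS : e ∉ S) {a b : V} (he : ((ψ e).1 = a ∧ (ψ e).2 = b) ∨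
      ((ψ e).1 = b ∧ (ψ e).2 = a)) (h1 : cls ψ P a ≠ cls ψ P b)
    (h2 : cls ψ (S ∪ P) a = cls ψ (S ∪ P) b) : cls ψ P a ∈ W.image (cls ψ P) := by
  by_contra hcon
  have hno : ∀ w ∈ W, cls ψ P w ≠ cls ψ P a := by
    intro w hw h3
    exact hcon (Finset.mem_image.2 ⟨w, hw, h3⟩)
  have hab : a ≠ b := fun h3 => h1 (by rw [h3])
  have hnl : (ψ e).1 ≠ (ψ e).2 := by
    rcases he with ⟨h3, h4⟩ | ⟨h3, h4⟩
    · rw [h3, h4]
      exact hab
    · rw [h3, h4]
      exact hab.symm
  have hae : (ψ e).1 = a ∨ (ψ e).2 = a := by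
    rcases he with ⟨h3, h4⟩ | ⟨h3, h4⟩
    · exact Or.inl h3
    · exact Or.inr h4
  have hkey : ∀ f ∈ S, (ψ f).1 ≠ (ψ f).2 → ∀ u, ((ψ f).1 = u ∨ (ψ f).2 = u) →
      cls ψ P u ≠ cls ψ P a := by
    intro f hf hfl u hu h3
    refine hno u (hW u ⟨f, hf, hfl, hu⟩ ?_) h3
    by_cases h4 : u = a
    · rw [h4]
      exact ⟨e, heS, hnl, hae⟩
    · obtain ⟨g, hg, hgl, hgu⟩ := lam_end ψ h3 h4
      exact ⟨g, fun h5 => Finset.disjoint_left.1 hPS hg h5, hgl, hgu⟩
  have h3 := lam_closed ψ (fun z => cls ψ P z = cls ψ P a) (A := S ∪ P) (by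
    intro f hf
    rcases Finset.mem_union.1 hf with h4 | h4
    · by_cases h5 : (ψ f).1 = (ψ f).2
      · rw [h5]
      · constructor
        · intro h6
          exact absurd h6 (hkey f h4 h5 _ (Or.inl rfl))
        · intro h6
          exact absurd h6 (hkey f h4 h5 _ (Or.inr rfl))
    · have h5 : cls ψ P (ψ f).1 = cls ψ P (ψ f).2 := Quot.sound ⟨f, h4, rfl⟩
      rw [h5]) h2
  exact h1 (h3.1 rfl).symm

open Classical in
private theorem lam_ind_step (ψ : E → V × V) (S : Finset E) (W : Finset V)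
    (hW : ∀ p : V, (∃ e ∈ S, (ψ e).1 ≠ (ψ e).2 ∧ ((ψ e).1 = p ∨ (ψ e).2 = p)) →
      (∃ e, e ∉ S ∧ (ψ e).1 ≠ (ψ e).2 ∧ ((ψ e).1 = p ∨ (ψ e).2 = p)) → p ∈ W)
    (P : Finset E) (hPS : Disjoint P S) :
    Fintype.card V + kk ψ (S ∪ P) + (W.image (cls ψ P)).card ≤ W.card + kk ψ P + kk ψ S := by
  induction P using Finset.induction_on with
  | empty =>
    have h1 := Finset.card_image_le (s := W) (f := cls ψ ∅)
    rw [Finset.union_empty, kk_empty]
    omega
  | insert e P he ih =>
    have hPS' : Disjoint P S := hPS.mono_left (Finset.subset_insert e P)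
    have heS : e ∉ S := fun h => Finset.disjoint_left.1 hPS (Finset.mem_insert_self e P) h
    have ih := ih hPS'
    rw [Finset.union_insert]
    have himg : W.image (cls ψ (insert e P)) =
        (W.image (cls ψ P)).image (Quot.lift (fun v => cls ψ (insert e P) v) (by
          rintro u v ⟨f, hf, huv⟩
          exact Quot.sound ⟨f, Finset.mem_insert_of_mem hf, huv⟩)) := by
      rw [Finset.image_image]
      rfl
    have hle : (W.image (cls ψ (insert e P))).card ≤ (W.image (cls ψ P)).card := by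
      rw [himg]
      exact Finset.card_image_le
    by_cases hc : Cross ψ P e
    · have k1 := kk_insert_cross ψ hc
      by_cases hc2 : Cross ψ (S ∪ P) e
      · have k2 := kk_insert_cross ψ hc2
        omega
      · have k2 := kk_insert_eq ψ hc2
        have hc2' : cls ψ (S ∪ P) (ψ e).1 = cls ψ (S ∪ P) (ψ e).2 := by
          by_contra h
          exact hc2 h
        have hA := lam_meet ψ W hW hPS' heS (Or.inl ⟨rfl, rfl⟩) hc hc2'
        have hB := lam_meet ψ W hW hPS' heS (Or.inr ⟨rfl, rfl⟩) (Ne.symm hc) hc2'.symm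
        have hlt : (W.image (cls ψ (insert e P))).card < (W.image (cls ψ P)).card := by
          rw [himg]
          refine lt_of_le_of_ne Finset.card_image_le ?_
          intro h1
          have h2 := Finset.card_image_iff.1 h1
          have h3 := h2 (Finset.mem_coe.2 hA) (Finset.mem_coe.2 hB) (by
            show cls ψ (insert e P) (ψ e).1 = cls ψ (insert e P) (ψ e).2
            exact Quot.sound ⟨e, Finset.mem_insert_self e P, rfl⟩)
          exact hc h3
        omega
    · have k1 := kk_insert_eq ψ hc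
      have k2 := kk_insert_eq ψ (fun h => hc (cross_anti ψ Finset.subset_union_right h) :
        ¬ Cross ψ (S ∪ P) e)
      omega

theorem lam_le (ψ : E → V × V) (S : Finset E) (W : Finset V)
    (hW : ∀ p : V, (∃ e ∈ S, (ψ e).1 ≠ (ψ e).2 ∧ ((ψ e).1 = p ∨ (ψ e).2 = p)) →
      (∃ e, e ∉ S ∧ (ψ e).1 ≠ (ψ e).2 ∧ ((ψ e).1 = p ∨ (ψ e).2 = p)) → p ∈ W) :
    lam ψ S ≤ W.card := by
  classical
  have h1 := lam_ind_step ψ S W hW (univ \ S) Finset.sdiff_disjoint
  have h2 : S ∪ (univ \ S) = univ := by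
    ext e
    simp only [mem_union, mem_sdiff, mem_univ, true_and, iff_true]
    tauto
  rw [h2] at h1
  have hn1 := kk_le ψ S
  have hn2 := kk_le ψ (univ \ S)
  have hn3 := kk_le ψ univ
  unfold lam rk
  omega

end Pool.Agent.Work.MP_63853a_lc.Tr
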