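import Pool.Agent.Work.MP_63853a_lc.Tr.Crs

set_option autoImplicit false

/-!
# Meet (size S-M): boundary classes contain a vertex of the separator

Let `e ∈ S` have the end `z` with `c z = p` and `e' ∉ S` the end `z'` with `c z' = p`. Let `χ v` say that `v` is an end of an edge in
`S`. If `χ z'` then `z' ∈ mid φ S` and `c z' = p`. Otherwise `eqv_cross` gives `a`, `b` in the same class with `χ a`, not `χ b` and
`Close a b` or `Close b a`, so there is an edge `g` joining `a` and `b`. As not `χ b`, `g ∉ S`; so `a ∈ mid φ S`, `c a = p`.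
-/

namespace Pool.Agent.Work.MP_63853a_lc.Tr

open Finset Pool.Agent.Work.MP_63853a_lc

open Classical

variable {V E : Type} [Fintype V]

theorem meet (φ : E → V × V) (κ : ℕ) (c : V → V)
    (hc : ∀ u v, c u = c v ↔ Relation.EqvGen (Close φ κ) u v) (S : Finset E) (p : V)
    (hp : ∃ e ∈ S, (quo φ c e).1 = p ∨ (quo φ c e).2 = p)
    (hp' : ∃ e, e ∉ S ∧ ((quo φ c e).1 = p ∨ (quo φ c e).2 = p)) : p ∈ (mid φ S).image c := by
  obtain ⟨e, he, hep⟩ := hp
  obtain ⟨e', he', hep'⟩ := hp'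
  obtain ⟨z, hz, hzp⟩ : ∃ z, ((φ e).1 = z ∨ (φ e).2 = z) ∧ c z = p := by
    rcases hep with h | h
    · exact ⟨(φ e).1, Or.inl rfl, h⟩
    · exact ⟨(φ e).2, Or.inr rfl, h⟩
  obtain ⟨z', hz', hzp'⟩ : ∃ z', ((φ e').1 = z' ∨ (φ e').2 = z') ∧ c z' = p := by
    rcases hep' with h | h
    · exact ⟨(φ e').1, Or.inl rfl, h⟩
    · exact ⟨(φ e').2, Or.inr rfl, h⟩
  rw [Finset.mem_image]
  by_cases hχ : ∃ g ∈ S, (φ g).1 = z' ∨ (φ g).2 = z'
  · refine ⟨z', ?_, hzp'⟩
    unfold mid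
    rw [Finset.mem_filter]
    exact ⟨Finset.mem_univ _, hχ, e', he', hz'⟩
  · have heq : Relation.EqvGen (Close φ κ) z z' := (hc z z').1 (hzp.trans hzp'.symm)
    obtain ⟨a, b, ha, hb, hza, hab⟩ := eqv_cross heq (fun v => ∃ g ∈ S, (φ g).1 = v ∨ (φ g).2 = v) ⟨e, he, hz⟩ hχ
    have hnb : ∃ g : E, φ g = (a, b) ∨ φ g = (b, a) := by
      rcases hab with h | h
      · exact h.1
      · obtain ⟨g, hg⟩ := h.1
        exact ⟨g, hg.symm⟩
    obtain ⟨g, hg⟩ := hnb
    have hgS : g ∉ S := by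
      intro hgS
      apply hb
      refine ⟨g, hgS, ?_⟩
      rcases hg with hg | hg
      · exact Or.inr (by rw [hg])
      · exact Or.inl (by rw [hg])
    refine ⟨a, ?_, ?_⟩
    · unfold mid
      rw [Finset.mem_filter]
      refine ⟨Finset.mem_univ _, ha, g, hgS, ?_⟩
      rcases hg with hg | hg
      · exact Or.inl (by rw [hg])
      · exact Or.inr (by rw [hg])
    · exact ((hc z a).2 hza).symm.trans hzp

end Pool.Agent.Work.MP_63853a_lc.Tr
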