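import Pool.Agent.Work.MP_63853a_lc.Tr.Grd
import Pool.Agent.Work.MP_63853a_lc.Tr.Meet
import Pool.Agent.Work.MP_63853a_lc.Tr.Lam

set_option autoImplicit false

/-!
# IndW (size M): separators of bounded independence number meet few classes

Let `M = mid φ S`. Choose `R ⊆ M` with one vertex of every class meeting `M`: `c` is injective on `R` and `R.image c = M.image c`
(`Finset.exists_subset_injOn_image_eq`-like, or images of a right inverse). For `u ≠ w` in `R`, adjacent: `c u ≠ c w`, so not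
`Close u w` and `u`, `w` have fewer than `κ` common neighbours. For `v ∈ R` the set `W = {z ∈ R | z ≠ v ∧ nb v z}` satisfies
`greedy` with `k` (subset of `M`) and `Δ = κ - 1`: neighbours of `z ∈ W` in `W` are common neighbours of `v` and `z`; if `κ = 0`
then adjacent `u`, `w` are always `Close`, so `W = ∅`; so `|W| ≤ k κ`. By `greedy` for `R` with `Δ = k κ`: `|R| ≤ k (k κ + 1)`.
`lam_ind`: `lam_le` with `W = M.image c` and `meet`.
-/

namespace Pool.Agent.Work.MP_63853a_lc.Tr

open Finset Pool.Agent.Work.MP_63853a_lc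

variable {V E : Type} [Fintype V] [Fintype E]

open Classical in
theorem card_meet (φ : E → V × V) (κ : ℕ) (c : V → V)
    (hc : ∀ u v, c u = c v ↔ Relation.EqvGen (Close φ κ) u v) (S : Finset E) {k : ℕ} (hk : Ind φ k (mid φ S)) :
    ((mid φ S).image c).card ≤ k * (k * κ + 1) := by
  have hnbs : ∀ u w : V, nb φ u w → nb φ w u := by
    rintro u w ⟨e, h | h⟩
    · exact ⟨e, Or.inr h⟩
    · exact ⟨e, Or.inl h⟩
  obtain ⟨R, hRM, hinj, himg⟩ : ∃ R : Finset V, R ⊆ mid φ S ∧ Set.InjOn c (R : Set V) ∧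
      R.image c = (mid φ S).image c := by
    obtain ⟨R, h1, h2, h3⟩ := Finset.exists_subset_injOn_image_eq_of_surjOn (s := mid φ S)
      (f := c) (t := (mid φ S).image c) (by
        intro y hy
        exact (Finset.mem_image.1 (Finset.mem_coe.1 hy)))
    exact ⟨R, h1, h2, h3⟩
  have hRI : Ind φ k R := fun I hI h => hk I (hI.trans hRM) h
  have hnc : ∀ u ∈ R, ∀ w ∈ R, u ≠ w → ¬ Close φ κ u w := by
    intro u hu w hw huw hcl
    exact huw (hinj (Finset.mem_coe.2 hu) (Finset.mem_coe.2 hw)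
      ((hc u w).2 (Relation.EqvGen.rel _ _ hcl)))
  rw [← himg]
  refine Finset.card_image_le.trans (greedy φ R k (k * κ) hRI ?_)
  intro v hv
  set W := R.filter fun z => z ≠ v ∧ nb φ v z with hWd
  have hWR : W ⊆ R := Finset.filter_subset _ _
  have hWI : Ind φ k W := fun I hI h => hRI I (hI.trans hWR) h
  rcases Nat.eq_zero_or_pos κ with h0 | h0
  · have hWe : W = ∅ := by
      rw [Finset.eq_empty_iff_forall_notMem]
      intro z hz
      obtain ⟨h1, h2, h3⟩ := Finset.mem_filter.1 hz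
      refine hnc v hv z h1 (Ne.symm h2) ⟨h3, ?_⟩
      rw [h0]
      exact Nat.zero_le _
    rw [hWe, Finset.card_empty]
    exact Nat.zero_le _
  · have h1 := greedy φ W k (κ - 1) hWI (by
      intro z hz
      obtain ⟨hzR, hzv, hvz⟩ := Finset.mem_filter.1 hz
      have h2 := hnc v hv z hzR (Ne.symm hzv)
      have h3 : ¬ κ ≤ (univ.filter fun y => y ≠ v ∧ y ≠ z ∧ nb φ v y ∧ nb φ z y).card :=
        fun h4 => h2 ⟨hvz, h4⟩
      have h4 : (W.filter fun y => y ≠ z ∧ nb φ z y) ⊆
          univ.filter fun y => y ≠ v ∧ y ≠ z ∧ nb φ v y ∧ nb φ z y := by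
        intro y hy
        obtain ⟨h5, h6, h7⟩ := Finset.mem_filter.1 hy
        obtain ⟨h8, h9, h10⟩ := Finset.mem_filter.1 h5
        exact Finset.mem_filter.2 ⟨Finset.mem_univ _, h9, h6, h10, h7⟩
      have h5 := Finset.card_le_card h4
      omega)
    have h2 : κ - 1 + 1 = κ := by omega
    rwa [h2] at h1

theorem lam_ind (φ : E → V × V) (κ : ℕ) (c : V → V)
    (hc : ∀ u v, c u = c v ↔ Relation.EqvGen (Close φ κ) u v) (S : Finset E) {k : ℕ} (hk : Ind φ k (mid φ S)) :
    lam (quo φ c) S ≤ k * (k * κ + 1) := by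
  classical
  refine (lam_le (quo φ c) S ((mid φ S).image c) ?_).trans (card_meet φ κ c hc S hk)
  rintro p ⟨e, he, _, hp⟩ ⟨e', he', _, hp'⟩
  exact meet φ κ c hc S p ⟨e, he, hp⟩ ⟨e', he', hp'⟩

end Pool.Agent.Work.MP_63853a_lc.Tr
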