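import Pool.Agent.Work.MP_63853a_lc.Tr.Defs
import Pool.Agent.Work.MP_63853a_lc.Russo

set_option autoImplicit false

/-!
# Har (size S-M): the inequality of Harris for an increasing and a decreasing function

`fkg` (Mathlib, `Mathlib/Combinatorics/SetFamily/FourFunctions.lean`) for the lattice `Finset E` with `μ = wt p`, `f` and
`g' A = g ∅ - g A` (monotone, nonnegative): `(∑ μ f) * (∑ μ g') ≤ (∑ μ) * ∑ μ (f g')`, and `∑ μ = 1` (`wt_sum` in `Russo`).
Its hypothesis `μ A * μ B ≤ μ (A ⊓ B) * μ (A ⊔ B)` is an equality: `|A| + |B| = |A ∩ B| + |A ∪ B|`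
(`Finset.card_union_add_card_inter`), also for `card E - |.|`. Expanding, `g ∅` cancels.
-/

namespace Pool.Agent.Work.MP_63853a_lc.Tr

open Finset Pool.Agent.Work.MP_63853a_lc

variable {E : Type} [Fintype E]

theorem harris {p : ℝ} (h0 : 0 ≤ p) (h1 : p ≤ 1) (f g : Finset E → ℝ) (hf : Monotone f) (hg : Antitone g)
    (hf0 : ∀ A, 0 ≤ f A) : ∑ A : Finset E, wt p A * (f A * g A) ≤
      (∑ A : Finset E, wt p A * f A) * ∑ A : Finset E, wt p A * g A := by
  classical
  have hμ : ∀ A B : Finset E, wt p A * wt p B ≤ wt p (A ⊓ B) * wt p (A ⊔ B) := by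
    intro A B
    have h1 := Finset.card_union_add_card_inter A B
    have hA := Finset.card_le_univ A
    have hB := Finset.card_le_univ B
    have hI := Finset.card_le_univ (A ∩ B)
    have hU := Finset.card_le_univ (A ∪ B)
    have h2 : (Fintype.card E - A.card) + (Fintype.card E - B.card) =
        (Fintype.card E - (A ∩ B).card) + (Fintype.card E - (A ∪ B).card) := by omega
    refine le_of_eq ?_
    simp only [wt, Finset.inf_eq_inter, Finset.sup_eq_union]
    calc p ^ A.card * (1 - p) ^ (Fintype.card E - A.card) * (p ^ B.card * (1 - p) ^ (Fintype.card E - B.card))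
        = p ^ (A.card + B.card) * (1 - p) ^ ((Fintype.card E - A.card) + (Fintype.card E - B.card)) := by
          rw [pow_add, pow_add]
          ring
      _ = p ^ ((A ∩ B).card + (A ∪ B).card) *
          (1 - p) ^ ((Fintype.card E - (A ∩ B).card) + (Fintype.card E - (A ∪ B).card)) := by
          rw [h2, add_comm (A ∩ B).card, h1]
      _ = _ := by
          rw [pow_add, pow_add]
          ring
  have h := fkg (μ := fun A : Finset E => wt p A) (f := f) (g := fun A => g ∅ - g A)
    (fun A => wt_nonneg h0 h1 A) (fun A => hf0 A) (fun A => sub_nonneg.2 (hg (Finset.empty_subset A))) hf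
    (fun A B hAB => sub_le_sub_left (hg hAB) _) hμ
  rw [wt_sum, one_mul] at h
  have e1 : ∑ A : Finset E, wt p A * (g ∅ - g A) = g ∅ - ∑ A : Finset E, wt p A * g A := by
    rw [Finset.sum_congr rfl fun A _ => mul_sub (wt p A) (g ∅) (g A), Finset.sum_sub_distrib, ← Finset.sum_mul,
      wt_sum, one_mul]
  have e2 : ∑ A : Finset E, wt p A * (f A * (g ∅ - g A)) =
      g ∅ * ∑ A : Finset E, wt p A * f A - ∑ A : Finset E, wt p A * (f A * g A) := by
    rw [Finset.mul_sum, ← Finset.sum_sub_distrib]
    exact Finset.sum_congr rfl fun A _ => by ring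
  rw [e1, e2] at h
  nlinarith

end Pool.Agent.Work.MP_63853a_lc.Tr
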