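import Pool.Agent.Work.MP_63853a_lc.Tr.Defs
import Pool.Agent.Work.MP_63853a_lc.KBasic

set_option autoImplicit false

/-!
# Sub (size S-M): submodularity

`cls_mono`: `Quot.lift` of `cls ψ B` (as `bk` in `KBasic`), or `Quot.eqvGen_exact` and `Relation.EqvGen.mono`.
`kk_sub`: induction on `X` (`Finset.induction_on`) with `kk_insert_eq`, `kk_insert_cross` from `KBasic` and
`cross_anti`: adding `e` to `B ∪ X` lowers the number of components by at most what it does for `A ∪ X` (if `e` crosses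
`B ∪ X` then it crosses `A ∪ X`).
`osc`: put `D A = kk (A ∪ B) - kk (A ∪ Sᶜ)` (natural numbers, `kk_anti`; here `B ⊆ Sᶜ`, `Sᶜ` stands for `univ \ S`).
`kk_sub B Sᶜ A`: `kk Sᶜ + kk (B ∪ A) ≤ kk B + kk (Sᶜ ∪ A)`. `kk_sub (A' ∪ B) (A' ∪ Sᶜ) S`:
`kk (A' ∪ Sᶜ) + kk (A' ∪ B ∪ S) ≤ kk (A' ∪ B) + kk univ`, where `A' ∪ B ∪ S = S ∪ B`. `kk_sub ∅ B S`:
`kk B + kk S ≤ n + kk (S ∪ B)`. With `lam ψ S = (n - kk S) + (n - kk Sᶜ) - (n - kk univ) ≤ w` (all `kk ≤ n` by `kk_le`,
`kk_anti`) the claim follows by `omega`.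
`FF_osc`: from `osc`: `q ^ (kk (A ∪ B) + kk (A' ∪ Sᶜ)) ≤ q ^ (lam ψ S + kk (A' ∪ B) + kk (A ∪ Sᶜ))`, divide.
-/

namespace Pool.Agent.Work.MP_63853a_lc.Tr

open Finset Pool.Agent.Work.MP_63853a_lc

variable {V E : Type} [Fintype V] [Fintype E]

theorem cls_mono (ψ : E → V × V) {A B : Finset E} (h : A ⊆ B) {u w : V} (huw : cls ψ A u = cls ψ A w) :
    cls ψ B u = cls ψ B w := by
  have h1 := congrArg (Quot.lift (fun v => cls ψ B v) (by
    rintro a b ⟨e, he, hab⟩
    exact Quot.sound ⟨e, h he, hab⟩)) huw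
  exact h1

theorem cross_anti (ψ : E → V × V) {A B : Finset E} (h : A ⊆ B) {e : E} (he : Cross ψ B e) : Cross ψ A e := by
  intro h1
  exact he (cls_mono ψ h h1)

open Classical in
theorem kk_sub (ψ : E → V × V) {A B : Finset E} (h : A ⊆ B) (X : Finset E) :
    kk ψ B + kk ψ (A ∪ X) ≤ kk ψ A + kk ψ (B ∪ X) := by
  induction X using Finset.induction_on with
  | empty => simp [add_comm]
  | insert e X he ih =>
    rw [Finset.union_insert, Finset.union_insert]
    by_cases hc : Cross ψ (B ∪ X) e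
    · have h1 := kk_insert_cross ψ hc
      have h2 := kk_insert_cross ψ (cross_anti ψ (Finset.union_subset_union_left h) hc)
      omega
    · have h1 := kk_insert_eq ψ hc
      have h2 := kk_anti ψ (Finset.subset_insert e (A ∪ X))
      omega

open Classical in
theorem osc (ψ : E → V × V) {S A A' B : Finset E} (hA : A ⊆ S) (hA' : A' ⊆ S) (hB : Disjoint B S) :
    kk ψ (A ∪ B) + kk ψ (A' ∪ (univ \ S)) ≤ lam ψ S + (kk ψ (A' ∪ B) + kk ψ (A ∪ (univ \ S))) := by
  have hBU : B ⊆ univ \ S := by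
    intro e he
    exact mem_sdiff.2 ⟨mem_univ _, Finset.disjoint_left.1 hB he⟩
  have h1 := kk_sub ψ hBU A
  have h2 := kk_sub ψ (Finset.union_subset_union_right (s := A') hBU) S
  have h3 := kk_sub ψ (Finset.empty_subset B) S
  have e1 : A' ∪ (univ \ S) ∪ S = univ := by
    ext e
    simp only [mem_union, mem_sdiff, mem_univ, true_and, iff_true]
    tauto
  have e2 : A' ∪ B ∪ S = B ∪ S := by
    ext e
    simp only [mem_union]
    constructor
    · rintro ((h | h) | h)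
      · exact Or.inr (hA' h)
      · exact Or.inl h
      · exact Or.inr h
    · rintro (h | h)
      · exact Or.inl (Or.inr h)
      · exact Or.inr h
  rw [e1, e2] at h2
  rw [Finset.empty_union, kk_empty] at h3
  rw [Finset.union_comm B A, Finset.union_comm (univ \ S) A] at h1
  have hn1 := kk_le ψ S
  have hn2 := kk_le ψ (univ \ S)
  have hn3 := kk_le ψ univ
  unfold lam rk
  omega

theorem FF_osc (ψ : E → V × V) {q : ℝ} (hq : 1 ≤ q) {S A A' B : Finset E} (hA : A ⊆ S) (hA' : A' ⊆ S)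
    (hB : Disjoint B S) : FF ψ q S B A ≤ q ^ lam ψ S * FF ψ q S B A' := by
  classical
  have hq0 : 0 < q := lt_of_lt_of_le one_pos hq
  have h1 := osc ψ hA hA' hB
  unfold FF
  rw [← mul_div_assoc, div_le_div_iff₀ (pow_pos hq0 _) (pow_pos hq0 _), ← pow_add, ← pow_add,
    ← pow_add]
  apply pow_le_pow_right₀ hq
  convert h1 using 1
  ring

end Pool.Agent.Work.MP_63853a_lc.Tr
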