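import Pool.Agent.Work.MP_63853a_lc.Tr.Defs

set_option autoImplicit false

/-!
# CatF (size S-M): trees with edges added one by one

Induction on `L` generalizing `t`.
-/

namespace Pool.Agent.Work.MP_63853a_lc.Tr

open Finset Pool.Agent.Work.MP_63853a_lc

variable {E : Type}

open Classical in
theorem cat_edges (t : ETree E) (L : List E) : (cat t L).edges = t.edges ∪ L.toFinset := by
  induction L generalizing t with
  | nil => simp [cat]
  | cons e L ih =>
    rw [cat, ih]
    ext x
    simp only [ETree.edges, Finset.mem_union, Finset.mem_singleton, List.toFinset_cons, Finset.mem_insert]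
    tauto

theorem cat_size (t : ETree E) (L : List E) : (cat t L).size = t.size + 2 * L.length := by
  induction L generalizing t with
  | nil => simp [cat]
  | cons e L ih =>
    rw [cat, ih, List.length_cons]
    simp only [ETree.size]
    omega

theorem cat_nodup (t : ETree E) (L : List E) (ht : t.Nodup) (hL : L.Nodup) (h : ∀ e ∈ L, e ∉ t.edges) :
    (cat t L).Nodup := by
  classical
  induction L generalizing t with
  | nil => simpa [cat] using ht
  | cons e L ih =>
    rw [cat]
    rw [List.nodup_cons] at hL
    refine ih (.node t (.leaf e)) ⟨?_, ht, trivial⟩ hL.2 ?_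
    · simp only [ETree.edges]
      rw [Finset.disjoint_singleton_right]
      exact h e List.mem_cons_self
    · intro x hx hx'
      simp only [ETree.edges, Finset.mem_union, Finset.mem_singleton] at hx'
      rcases hx' with hx' | hx'
      · exact h x (List.mem_cons_of_mem _ hx) hx'
      · rw [hx'] at hx
        exact hL.1 hx

open Classical in
theorem cat_sets (t : ETree E) (L : List E) {S : Finset E} (hS : S ∈ (cat t L).sets) :
    S ∈ t.sets ∨ (∃ e, S = {e}) ∨ (t.edges ⊆ S ∧ S ⊆ t.edges ∪ L.toFinset) := by
  induction L generalizing t with
  | nil => exact Or.inl (by simpa [cat] using hS)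
  | cons e L ih =>
    rw [cat] at hS
    rcases ih (.node t (.leaf e)) hS with h | h | ⟨h1, h2⟩
    · simp only [ETree.sets, ETree.edges, Set.mem_insert_iff, Set.mem_union, Set.mem_singleton_iff] at h
      rcases h with h | h | h
      · right
        right
        rw [h]
        refine ⟨Finset.subset_union_left, ?_⟩
        intro x hx
        simp only [Finset.mem_union, Finset.mem_singleton, List.toFinset_cons, Finset.mem_insert] at hx ⊢
        tauto
      · exact Or.inl h
      · exact Or.inr (Or.inl ⟨e, h⟩)
    · exact Or.inr (Or.inl h)
    · right
      right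
      simp only [ETree.edges] at h1 h2
      refine ⟨Finset.subset_union_left.trans h1, h2.trans ?_⟩
      intro x hx
      simp only [Finset.mem_union, Finset.mem_singleton, List.toFinset_cons, Finset.mem_insert] at hx ⊢
      tauto

end Pool.Agent.Work.MP_63853a_lc.Tr
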