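import Pool.Agent.Work.MP_63853a_lc.Tr.Pair

set_option autoImplicit false

/-!
# Chain (size M): the classes generated by pairs with many common neighbours

Let `δ = (1 - (1/x)^2)^κ ≥ 0`. Show by induction on a finite set `F` of pairs with `R`: there are `c` and `d` with
`c u = c v ↔ EqvGen (fun u v => (u, v) ∈ F) u v`, `d ≤ (card V - (Set.range c).ncard) * δ` and
`Red x y φ (quo φ c) (fac x y c) d`; then take for `F` all pairs with `R` (`V × V` is finite). `F = ∅`: `c = id`, `quo φ id = φ`,
`Red.refl`, `EqvGen` of the empty relation is equality. Step, the new pair is `(u, w)`: if `c u = c w` keep `c`, `d`. Otherwise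
`c' z = if c z = c u then c w else c z`; then `quo φ c' = glue (quo φ c) (c u) (c w)`, `Red.glue`,
`Set.range c' = Set.range c \ {c u}`, so `ncard` drops by one (`Set.ncard_sdiff_singleton_of_mem` or similar) and
`fac x y c' = fac x y c / ((x-1)(y-1))` (`ncard (range c) ≤ card V`), the error grows by
`sep (quo φ c) (1/x) (c u) (c w) ≤ δ` (`sep_common`; `u ≠ w`). The kernel of `c'`: `c' a = c' b` iff `c a = c b` or one of `c a`,
`c b` is `c u` and the other `c w`.
-/

namespace Pool.Agent.Work.MP_63853a_lc.Tr

open Finset Pool.Agent.Work.MP_63853a_lc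

variable {V E : Type} [Fintype V] [Fintype E]

private theorem eqv_fun {R : V → V → Prop} {β : Type} (c : V → β) (h : ∀ a b, R a b → c a = c b) {u v : V}
    (huv : Relation.EqvGen R u v) : c u = c v := by
  induction huv with
  | rel a b hab => exact h a b hab
  | refl a => rfl
  | symm a b _ ih => exact ih.symm
  | trans a b c' _ _ ih1 ih2 => exact ih1.trans ih2

private theorem eqv_mono {R S : V → V → Prop} (h : ∀ a b, R a b → S a b) {u v : V}
    (huv : Relation.EqvGen R u v) : Relation.EqvGen S u v := by
  induction huv with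
  | rel a b hab => exact Relation.EqvGen.rel a b (h a b hab)
  | refl a => exact Relation.EqvGen.refl a
  | symm a b _ ih => exact Relation.EqvGen.symm a b ih
  | trans a b c _ _ ih1 ih2 => exact Relation.EqvGen.trans a b c ih1 ih2

open Classical in
private theorem chain_fin (φ : E → V × V) {x y : ℝ} (hx : 1 < x) (κ : ℕ) (F : Finset (V × V))
    (hF : ∀ p ∈ F, p.1 ≠ p.2 → Com φ κ p.1 p.2) :
    ∃ (c : V → V) (d : ℝ), (∀ u v, c u = c v ↔ Relation.EqvGen (fun a b => (a, b) ∈ F) u v) ∧
      (Set.range c).ncard ≤ Fintype.card V ∧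
      d ≤ ((Fintype.card V - (Set.range c).ncard : ℕ) : ℝ) * (1 - (1 / x) ^ 2) ^ κ ∧
      Red x y φ (quo φ c) (fac x y c) d := by
  have hxp : 0 < x := by linarith
  have h1x : 0 ≤ 1 / x := by positivity
  have h1x1 : 1 / x ≤ 1 := by
    rw [div_le_one hxp]
    exact hx.le
  have hδ : 0 ≤ (1 - (1 / x) ^ 2 : ℝ) ^ κ := pow_nonneg (by nlinarith) _
  induction F using Finset.induction_on with
  | empty =>
    have hr : (Set.range (id : V → V)).ncard = Fintype.card V := by
      rw [Set.range_id, Set.ncard_univ, Nat.card_eq_fintype_card]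
    refine ⟨id, 0, ?_, hr.le, ?_, ?_⟩
    · intro u v
      constructor
      · intro h
        have h' : u = v := h
        rw [h']
        exact Relation.EqvGen.refl _
      · intro h
        exact eqv_fun id (fun a b hab => absurd hab (Finset.notMem_empty _)) h
    · rw [hr]
      simp
    · have h1 : quo φ id = φ := by
        funext e
        rfl
      have h2 : fac x y (id : V → V) = 1 := by
        unfold fac
        rw [hr, Nat.sub_self, pow_zero]
      rw [h1, h2]
      exact Red.refl
  | insert p F hp ih =>
    obtain ⟨u₀, w₀⟩ := p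
    obtain ⟨c, d, hc, hr, hd, hRed⟩ := ih fun p hp => hF p (Finset.mem_insert_of_mem hp)
    have hmono : ∀ {u v : V}, Relation.EqvGen (fun a b => (a, b) ∈ F) u v →
        Relation.EqvGen (fun a b => (a, b) ∈ insert (u₀, w₀) F) u v :=
      fun h => eqv_mono (fun a b hab => Finset.mem_insert_of_mem hab) h
    by_cases h0 : c u₀ = c w₀
    · refine ⟨c, d, ?_, hr, hd, hRed⟩
      intro u v
      constructor
      · intro h
        exact hmono ((hc u v).1 h)
      · intro h
        refine eqv_fun c (fun a b hab => ?_) h
        rcases Finset.mem_insert.1 hab with h1 | h1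
        · simp only [Prod.mk.injEq] at h1
          rw [h1.1, h1.2]
          exact h0
        · exact (hc a b).2 (Relation.EqvGen.rel a b h1)
    · set c' : V → V := fun z => if c z = c u₀ then c w₀ else c z with hc'
      have hc'1 : ∀ z, c z = c u₀ → c' z = c w₀ := fun z hz => if_pos hz
      have hc'2 : ∀ z, c z ≠ c u₀ → c' z = c z := fun z hz => if_neg hz
      have h0' : c w₀ ≠ c u₀ := fun h => h0 h.symm
      have hrange : Set.range c' = Set.range c \ {c u₀} := by
        ext y
        simp only [Set.mem_range, Set.mem_sdiff, Set.mem_singleton_iff]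
        constructor
        · rintro ⟨z, rfl⟩
          by_cases hz : c z = c u₀
          · rw [hc'1 z hz]
            exact ⟨⟨w₀, rfl⟩, h0'⟩
          · rw [hc'2 z hz]
            exact ⟨⟨z, rfl⟩, hz⟩
        · rintro ⟨⟨z, rfl⟩, hz⟩
          exact ⟨z, hc'2 z hz⟩
      have hncard : (Set.range c').ncard + 1 = (Set.range c).ncard := by
        rw [hrange]
        exact Set.ncard_sdiff_singleton_add_one ⟨u₀, rfl⟩ (Set.toFinite _)
      have hsub : Fintype.card V - (Set.range c').ncard = (Fintype.card V - (Set.range c).ncard) + 1 := by omega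
      have hne : u₀ ≠ w₀ := fun h => h0 (by rw [h])
      have hsep := sep_common φ c hne (hF (u₀, w₀) (Finset.mem_insert_self _ _) hne) h1x h1x1
      refine ⟨c', d + sep (quo φ c) (1 / x) (c u₀) (c w₀), ?_, by omega, ?_, ?_⟩
      · intro u v
        have hpair : Relation.EqvGen (fun a b => (a, b) ∈ insert (u₀, w₀) F) u₀ w₀ :=
          Relation.EqvGen.rel _ _ (Finset.mem_insert_self _ _)
        constructor
        · intro h
          by_cases hu : c u = c u₀
          · by_cases hv : c v = c u₀
            · exact hmono ((hc u v).1 (hu.trans hv.symm))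
            · rw [hc'1 u hu, hc'2 v hv] at h
              exact (hmono ((hc u u₀).1 hu)).trans _ _ _ (hpair.trans _ _ _ (hmono ((hc w₀ v).1 h)))
          · by_cases hv : c v = c u₀
            · rw [hc'2 u hu, hc'1 v hv] at h
              exact (hmono ((hc u w₀).1 h)).trans _ _ _
                ((hpair.symm _ _).trans _ _ _ (hmono ((hc u₀ v).1 hv.symm)))
            · rw [hc'2 u hu, hc'2 v hv] at h
              exact hmono ((hc u v).1 h)
        · intro h
          refine eqv_fun c' (fun a b hab => ?_) h
          rcases Finset.mem_insert.1 hab with h1 | h1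
          · simp only [Prod.mk.injEq] at h1
            rw [h1.1, h1.2, hc'1 u₀ rfl, hc'2 w₀ h0']
          · have h2 := (hc a b).2 (Relation.EqvGen.rel a b h1)
            simp only [hc', h2]
      · rw [hsub]
        push_cast
        linarith
      · have h1 := Red.glue (c u₀) (c w₀) hRed h0
        have h2 : glue (quo φ c) (c u₀) (c w₀) = quo φ c' := by
          funext e
          rfl
        have h3 : fac x y c / ((x - 1) * (y - 1)) = fac x y c' := by
          unfold fac
          rw [hsub, pow_succ, mul_one_div]
        rw [h2, h3] at h1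
        exact h1

theorem chain (φ : E → V × V) {x y : ℝ} (hx : 1 < x) (hy : 1 < y) (R : V → V → Prop) (κ : ℕ)
    (hR : ∀ u w, R u w → u ≠ w → Com φ κ u w) :
    ∃ (c : V → V) (d : ℝ), (∀ u v, c u = c v ↔ Relation.EqvGen R u v) ∧
      d ≤ Fintype.card V * (1 - (1 / x) ^ 2) ^ κ ∧ Red x y φ (quo φ c) (fac x y c) d := by
  classical
  have hxp : 0 < x := by linarith
  have h1x1 : 1 / x ≤ 1 := by
    rw [div_le_one hxp]
    exact hx.le
  have h1x : 0 ≤ 1 / x := by positivity
  have hδ : 0 ≤ (1 - (1 / x) ^ 2 : ℝ) ^ κ := pow_nonneg (by nlinarith) _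
  obtain ⟨c, d, hc, hr, hd, hRed⟩ := chain_fin (y := y) φ hx κ (Finset.univ.filter fun p : V × V => R p.1 p.2)
    (fun p hp hne => hR p.1 p.2 (Finset.mem_filter.1 hp).2 hne)
  refine ⟨c, d, ?_, ?_, hRed⟩
  · intro u v
    rw [hc u v]
    have : (fun a b : V => (a, b) ∈ Finset.univ.filter fun p : V × V => R p.1 p.2) = R := by
      funext a b
      simp
    rw [this]
  · refine hd.trans (mul_le_mul_of_nonneg_right ?_ hδ)
    exact_mod_cast Nat.sub_le _ _

end Pool.Agent.Work.MP_63853a_lc.Tr
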