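import Pool.Agent.Work.MP_63853a_lc.Tr.MainI
import Pool.Agent.Work.MP_63853a_lc.Tr.Chain

set_option autoImplicit false

/-!
# Asm (size M): the constants

Let `q = (x-1)(y-1)`, `ρ = 1 - (1/x)^2 ∈ (0, 1)`, `s/ε ≥ 2`, `L = log (s/ε) ≥ log 2`. Choose
`b = max (2 / log 2) ((1 + log (4 q) / log 2) / (- log ρ))`, so that `κ = ⌈b L⌉ ≥ 2` and
`n ρ^κ q ≤ ε/4` for `n ≤ s`: `ρ^κ ≤ exp (-(1 + log (4q)/log 2) L) ≤ exp (- L - log (4q)) = ε / (4 q s)`. `chain` gives `c`, `d` with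
`q d ≤ ε/4`. `κ ≤ b L + 1`, so `α (κ + 2) ≤ α (b + 3 / log 2) L ≤ β log (s'/ε)` with `s' = card V + card E + t.size + 1`?
Here `s' ` may be smaller than `s`; but `s ≤ K * s'` is not assumed, so take the hypothesis `s = ..` as stated:
`s` is at least `card V + card E + 1`, at least `t.size`, and `s ≤ 2 * (card V + card E + t.size + 1)`. Then
`L = log (s/ε) ≤ log (2 s'/ε) ≤ 2 log (s'/ε)` as `s'/ε ≥ 2`, so `β = 2 α (b + 3/log 2)`. Apply `main_one`, get `C₀`;
`s' ≤ 2 s`, so `(s'/ε)^C₀ ≤ (2 s/ε)^|C₀| ≤ (s/ε)^(2 |C₀|)` and `C = 2 |C₀|`.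
-/

namespace Pool.Agent.Work.MP_63853a_lc.Tr

open Finset Pool.Agent.Work.MP_63853a_lc

private theorem size_pos {E : Type} (t : ETree E) : 1 ≤ t.size := by
  cases t <;> simp [ETree.size]

private theorem rho_bound {ρ q b L s ε : ℝ} {κ : ℕ} (hρ0 : 0 < ρ) (hρ1 : ρ < 1) (hq : 1 ≤ q) (hs : 0 < s) (hε : 0 < ε)
    (hL : L = Real.log (s / ε)) (hL2 : Real.log 2 ≤ L)
    (hb : (1 + Real.log (4 * q) / Real.log 2) / (-Real.log ρ) ≤ b) (hκ : b * L ≤ κ) :
    q * (s * ρ ^ κ) ≤ ε / 4 := by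
  have hl2 : 0 < Real.log 2 := Real.log_pos (by norm_num)
  have hlρ : 0 < -Real.log ρ := neg_pos.2 (Real.log_neg hρ0 hρ1)
  have hL0 : 0 < L := lt_of_lt_of_le hl2 hL2
  have hl4 : 0 ≤ Real.log (4 * q) := Real.log_nonneg (by linarith)
  rw [div_le_iff₀ hlρ] at hb
  have h1 : ρ ^ κ = Real.exp (κ * Real.log ρ) := by
    rw [Real.exp_nat_mul, Real.exp_log hρ0]
  have h2 : κ * Real.log ρ ≤ -L - Real.log (4 * q) := by
    have h3 : (b * L) * (-Real.log ρ) ≤ κ * (-Real.log ρ) := mul_le_mul_of_nonneg_right hκ hlρ.le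
    have h4 : (1 + Real.log (4 * q) / Real.log 2) * L ≤ b * (-Real.log ρ) * L := mul_le_mul_of_nonneg_right hb hL0.le
    have h5 : Real.log (4 * q) ≤ Real.log (4 * q) / Real.log 2 * L := by
      rw [div_mul_eq_mul_div, le_div_iff₀ hl2]
      exact mul_le_mul_of_nonneg_left hL2 hl4
    nlinarith
  have h6 : ρ ^ κ ≤ ε / (s * (4 * q)) := by
    rw [h1]
    calc Real.exp (κ * Real.log ρ) ≤ Real.exp (-L - Real.log (4 * q)) := Real.exp_le_exp.2 h2
      _ = ε / (s * (4 * q)) := by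
        rw [Real.exp_sub, Real.exp_neg, hL, Real.exp_log (by positivity), Real.exp_log (by positivity)]
        field_simp
  calc q * (s * ρ ^ κ) ≤ q * (s * (ε / (s * (4 * q)))) :=
        mul_le_mul_of_nonneg_left (mul_le_mul_of_nonneg_left h6 hs.le) (by linarith)
    _ = ε / 4 := by field_simp

theorem asm (x y : ℝ) (hx : 1 < x) (hy : 1 < y) (hq : 1 ≤ (x - 1) * (y - 1)) (α : ℕ) :
    ∃ b C : ℝ, ∀ (V E : Type) [Fintype V] [Fintype E] (φ : E → V × V) (s ε : ℝ) (R : V → V → Prop),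
      0 < ε → ε ≤ 1 → 2 ≤ s → (Fintype.card V + Fintype.card E + 1 : ℕ) ≤ s →
      (∀ u w, R u w → u ≠ w → Com φ ⌈b * Real.log (s / ε)⌉₊ u w) →
      2 ≤ ⌈b * Real.log (s / ε)⌉₊ ∧ ∃ c : V → V, (∀ u v, c u = c v ↔ Relation.EqvGen R u v) ∧
        ∀ t : ETree E, t.Nodup → (∀ e, e ∉ t.edges → c (φ e).1 = c (φ e).2) → (t.size : ℝ) ≤ s →
          s ≤ 2 * (Fintype.card V + Fintype.card E + t.size + 1 : ℕ) →
          (∀ S ∈ t.sets, lam (quo φ c) S ≤ α * (⌈b * Real.log (s / ε)⌉₊ + 2)) →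
          ∀ N : ℕ, (s / ε) ^ C ≤ N → 3 / 4 ≤ good φ (quo φ c) x y (fac x y c) t ε N := by
  have hx0 : 0 < x - 1 := by linarith
  have hv0 : 0 < y - 1 := by linarith
  have hxp : 0 < x := by linarith
  set q := (x - 1) * (y - 1) with hqd
  have hl2 : 0 < Real.log 2 := Real.log_pos (by norm_num)
  set ρ : ℝ := 1 - (1 / x) ^ 2 with hρ
  have h1x : 0 < 1 / x := by positivity
  have h1x1 : 1 / x < 1 := by
    rw [div_lt_one hxp]
    exact hx
  have hρ0 : 0 < ρ := by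
    have : (1 / x) ^ 2 < 1 := by
      rw [sq]
      nlinarith
    linarith
  have hρ1 : ρ < 1 := by
    have : 0 < (1 / x) ^ 2 := by positivity
    linarith
  set b : ℝ := max (2 / Real.log 2) ((1 + Real.log (4 * q) / Real.log 2) / (-Real.log ρ)) with hb
  have hb0 : 0 < b := lt_of_lt_of_le (by positivity) (le_max_left _ _)
  obtain ⟨C₀, hC₀⟩ := main_one x y hx hy hq (2 * α * (b + 3 / Real.log 2))
  refine ⟨b, 2 * |C₀|, ?_⟩
  intro V E _ _ φ s ε R hε hε1 hs2 hsV hR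
  have hs0 : 0 < s := by linarith
  have hsε : 2 ≤ s / ε := by
    rw [le_div_iff₀ hε]
    nlinarith
  have hsε0 : 0 < s / ε := by linarith
  set L := Real.log (s / ε) with hL
  have hL2 : Real.log 2 ≤ L := Real.log_le_log (by norm_num) hsε
  have hL0 : 0 < L := lt_of_lt_of_le hl2 hL2
  set κ := ⌈b * L⌉₊ with hκ
  have hκ1 : b * L ≤ κ := Nat.le_ceil _
  have hκ2 : (κ : ℝ) < b * L + 1 := Nat.ceil_lt_add_one (by positivity)
  have hbL : 2 ≤ b * L := by
    calc (2 : ℝ) = 2 / Real.log 2 * Real.log 2 := by field_simp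
      _ ≤ b * L := mul_le_mul (le_max_left _ _) hL2 hl2.le hb0.le
  refine ⟨?_, ?_⟩
  · have : (2 : ℝ) ≤ κ := hbL.trans hκ1
    exact_mod_cast this
  obtain ⟨c, d, hc, hd, hRed⟩ := chain φ hx hy R κ hR
  refine ⟨c, hc, ?_⟩
  intro t ht hloop htS hsS hw N hN
  have hcV : (Fintype.card V : ℝ) ≤ s := by
    refine le_trans ?_ hsV
    exact_mod_cast (by omega : Fintype.card V ≤ Fintype.card V + Fintype.card E + 1)
  have hqd : q * d ≤ ε / 4 := by
    refine le_trans ?_ (rho_bound (κ := κ) hρ0 hρ1 hq hs0 hε hL hL2 (le_max_right _ _) hκ1)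
    refine mul_le_mul_of_nonneg_left (hd.trans ?_) (by linarith)
    exact mul_le_mul_of_nonneg_right hcV (pow_nonneg hρ0.le _)
  set s' : ℝ := ((Fintype.card V + Fintype.card E + t.size + 1 : ℕ) : ℝ) with hs'
  have hs'2 : (2 : ℝ) ≤ s' := by
    have h1 := size_pos t
    have h2 : 2 ≤ Fintype.card V + Fintype.card E + t.size + 1 := by omega
    rw [hs']
    exact_mod_cast h2
  have hs'ε : 2 ≤ s' / ε := by
    rw [le_div_iff₀ hε]
    nlinarith
  have hs's : s' ≤ 2 * s := by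
    have e1 : s' = ((Fintype.card V + Fintype.card E + 1 : ℕ) : ℝ) + (t.size : ℝ) := by
      rw [hs']
      push_cast
      ring
    rw [e1]
    linarith
  have hLL : L ≤ 2 * Real.log (s' / ε) := by
    have h1 : s / ε ≤ (s' / ε) ^ 2 := by
      calc s / ε ≤ 2 * s' / ε := div_le_div_of_nonneg_right hsS hε.le
        _ = 2 * (s' / ε) := by ring
        _ ≤ (s' / ε) * (s' / ε) := mul_le_mul_of_nonneg_right hs'ε (by linarith)
        _ = (s' / ε) ^ 2 := by ring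
    have h2 := Real.log_le_log hsε0 h1
    rw [Real.log_pow] at h2
    exact_mod_cast h2
  refine hC₀ V E φ (quo φ c) (fac x y c) d t ε hε hε1 hRed hqd ht hloop ?_ N ?_
  · intro S hS
    have h1 : (lam (quo φ c) S : ℝ) ≤ α * (κ + 2) := by exact_mod_cast hw S hS
    refine h1.trans ?_
    have h2 : (κ : ℝ) + 2 ≤ (b + 3 / Real.log 2) * L := by
      have h3 : 3 ≤ 3 / Real.log 2 * L := by
        rw [div_mul_eq_mul_div, le_div_iff₀ hl2]
        linarith
      nlinarith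
    have hα : (0 : ℝ) ≤ α := Nat.cast_nonneg _
    calc (α : ℝ) * (κ + 2) ≤ α * ((b + 3 / Real.log 2) * L) := mul_le_mul_of_nonneg_left h2 hα
      _ ≤ α * ((b + 3 / Real.log 2) * (2 * Real.log (s' / ε))) :=
        mul_le_mul_of_nonneg_left (mul_le_mul_of_nonneg_left hLL (by positivity)) hα
      _ = 2 * α * (b + 3 / Real.log 2) * Real.log (s' / ε) := by ring
  · refine le_trans ?_ hN
    have h1 : 1 ≤ s' / ε := by linarith
    calc (s' / ε) ^ C₀ ≤ (s' / ε) ^ |C₀| := Real.rpow_le_rpow_of_exponent_le h1 (le_abs_self _)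
      _ ≤ ((s / ε) ^ (2 : ℝ)) ^ |C₀| := by
        refine Real.rpow_le_rpow (by linarith) ?_ (abs_nonneg _)
        have e2 : (s / ε) ^ (2 : ℝ) = (s / ε) * (s / ε) := by
          rw [← sq, ← Real.rpow_natCast]
          norm_num
        rw [e2]
        calc s' / ε ≤ 2 * s / ε := div_le_div_of_nonneg_right hs's hε.le
          _ = 2 * (s / ε) := by ring
          _ ≤ (s / ε) * (s / ε) := mul_le_mul_of_nonneg_right hsε hsε0.le
      _ = (s / ε) ^ (2 * |C₀|) := by rw [← Real.rpow_mul hsε0.le]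

end Pool.Agent.Work.MP_63853a_lc.Tr
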