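import Pool.Agent.Work.MP_63853a_lc.Tr.Lab

set_option autoImplicit false

/-!
# Crs (size M): classes which cross a set of the tree

`eqv_cross` (general): induction on `Relation.EqvGen` or on `Relation.ReflTransGen` of the symmetric closure: if
`EqvGen R z z'`, `χ z` and not `χ z'` then there are `a`, `b` with `χ a`, not `χ b`, `EqvGen R z a` and (`R a b` or `R b a`).
(By induction on `EqvGen` for the statement: for all `χ`, not (`χ z ↔ χ z'`) gives such a pair of one of the two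
orientations; or: the predicate `{a | EqvGen R z a ∧ ..}` closed.)
`crs`: with `χ a = a ∈ X` and `gen_symm` there are `a ∈ X`, `b ∉ X` with `Gen φ κ T a b` and `c a = c b = c z`, from a set
`Y ∈ T.sets` and `v ∈ Y`. (1) `κ ≤ |lab φ Y v|`, `a, b ∈ out φ Y v`. By `laminar` for `X`, `Y`: if `Y ⊆ X` then
`lab φ Y v ⊆ lab φ X v` and `b ∈ out φ X v` (as `b ∉ X`), so `c b` is in the third part of `Sp`. If `X ⊆ Y` then `a ∈ Y`, but
`a ∈ out φ Y v`. If disjoint: every `z ∈ lab φ Y v` is adjacent to `a` and not in `X`, so `lab φ Y v ⊆ out φ X a`, `κ ≤ |out φ X a|`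
and `c a` is in the first part. (2) `κ ≤ |out φ Y v|`, `a, b ∈ lab φ Y v ⊆ Y`: so `X` and `Y` are not disjoint and not `Y ⊆ X`,
hence `X ⊆ Y` and `out φ Y v = out φ Y a ⊆ out φ X a`: first part.
-/

namespace Pool.Agent.Work.MP_63853a_lc.Tr

open Finset Pool.Agent.Work.MP_63853a_lc

variable {V E : Type} [Fintype V]

private theorem eqv_cross_aux {α : Type} {R : α → α → Prop} {z z' : α} (h : Relation.EqvGen R z z') :
    ∀ χ : α → Prop, (χ z → ¬ χ z' → ∃ a b, χ a ∧ ¬ χ b ∧ Relation.EqvGen R z a ∧ (R a b ∨ R b a)) ∧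
      (χ z' → ¬ χ z → ∃ a b, χ a ∧ ¬ χ b ∧ Relation.EqvGen R z' a ∧ (R a b ∨ R b a)) := by
  induction h with
  | rel x y hxy =>
    intro χ
    exact ⟨fun hx hy => ⟨x, y, hx, hy, Relation.EqvGen.refl x, Or.inl hxy⟩,
      fun hy hx => ⟨y, x, hy, hx, Relation.EqvGen.refl y, Or.inr hxy⟩⟩
  | refl x =>
    intro χ
    exact ⟨fun h1 h2 => absurd h1 h2, fun h1 h2 => absurd h1 h2⟩
  | symm x y _ ih =>
    intro χ
    exact ⟨(ih χ).2, (ih χ).1⟩
  | trans x y w hxy hyw ih1 ih2 =>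
    intro χ
    constructor
    · intro hx hw
      by_cases hy : χ y
      · obtain ⟨a, b, h1, h2, h3, h4⟩ := (ih2 χ).1 hy hw
        exact ⟨a, b, h1, h2, Relation.EqvGen.trans _ _ _ hxy h3, h4⟩
      · exact (ih1 χ).1 hx hy
    · intro hw hx
      by_cases hy : χ y
      · obtain ⟨a, b, h1, h2, h3, h4⟩ := (ih1 χ).2 hy hx
        exact ⟨a, b, h1, h2, Relation.EqvGen.trans _ _ _ (Relation.EqvGen.symm _ _ hyw) h3, h4⟩
      · exact (ih2 χ).2 hw hy

private theorem mem_lab' (φ : E → V × V) {X : Finset V} {v u : V} :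
    u ∈ lab φ X v ↔ u ∈ X ∧ out φ X u = out φ X v := by
  simp [lab]

private theorem mem_out' (φ : E → V × V) {X : Finset V} {v w : V} :
    w ∈ out φ X v ↔ w ∉ X ∧ nb φ v w := by
  simp [out]

private theorem mem_Sp_first (φ : E → V × V) (c : V → V) (κ : ℕ) {X : Finset V} {a : V} (ha : a ∈ X)
    (h : κ ≤ (out φ X a).card) : c a ∈ Sp φ c κ X := by
  classical
  simp only [Sp, Finset.mem_image]
  refine ⟨a, ?_, rfl⟩
  rw [Finset.mem_union, Finset.mem_union]
  exact Or.inl (Or.inl (Finset.mem_filter.mpr ⟨ha, h⟩))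

private theorem mem_Sp_third (φ : E → V × V) (c : V → V) (κ : ℕ) {X : Finset V} {b v : V} (hv : v ∈ X)
    (h : κ ≤ (lab φ X v).card) (hb : b ∈ out φ X v) : c b ∈ Sp φ c κ X := by
  classical
  simp only [Sp, Finset.mem_image]
  refine ⟨b, ?_, rfl⟩
  rw [Finset.mem_union, Finset.mem_union]
  exact Or.inr (Finset.mem_filter.mpr ⟨Finset.mem_univ _, v, hv, h, hb⟩)

theorem eqv_cross {α : Type} {R : α → α → Prop} {z z' : α} (h : Relation.EqvGen R z z') (χ : α → Prop) (hz : χ z)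
    (hz' : ¬ χ z') : ∃ a b, χ a ∧ ¬ χ b ∧ Relation.EqvGen R z a ∧ (R a b ∨ R b a) := by
  exact (eqv_cross_aux h χ).1 hz hz'

theorem crs (φ : E → V × V) (κ : ℕ) {T : VTree V} (hT : T.Nodup) (c : V → V)
    (hc : ∀ u v, c u = c v ↔ Relation.EqvGen (Gen φ κ T) u v) {X : Finset V} (hX : X ∈ T.sets) {z z' : V}
    (hz : z ∈ X) (hz' : z' ∉ X) (h : c z = c z') : c z ∈ Sp φ c κ X := by
  obtain ⟨a, b, ha, hb, hza, hab⟩ := eqv_cross ((hc z z').mp h) (fun a => a ∈ X) hz hz'
  have hg : Gen φ κ T a b := by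
    rcases hab with h1 | h1
    · exact h1
    · exact gen_symm φ h1
  have ha : a ∈ X := ha
  have hb : b ∉ X := hb
  have hca : c z = c a := (hc z a).mpr hza
  have hcb : c a = c b := (hc a b).mpr (Relation.EqvGen.rel _ _ hg)
  obtain ⟨Y, hY, v, hv, ⟨h1, hu, hw⟩ | ⟨h1, hu, hw⟩⟩ := hg
  · rw [mem_out'] at hu hw
    rcases laminar hT hX hY with h2 | h2 | h2
    · exact absurd (h2 ha) hu.1
    · rw [hca, hcb]
      refine mem_Sp_third φ c κ (h2 hv) (h1.trans (Finset.card_le_card (lab_mono φ h2 v))) ?_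
      rw [mem_out']
      exact ⟨hb, hw.2⟩
    · rw [hca]
      refine mem_Sp_first φ c κ ha (h1.trans (Finset.card_le_card ?_))
      intro y hy
      rw [mem_lab'] at hy
      have hay : a ∈ out φ Y y := by
        rw [hy.2, mem_out']
        exact hu
      rw [mem_out'] at hay ⊢
      exact ⟨fun h3 => (Finset.disjoint_left.mp h2 h3) hy.1, nb_symm φ hay.2⟩
  · rw [mem_lab'] at hu hw
    have hXY : X ⊆ Y := by
      rcases laminar hT hX hY with h2 | h2 | h2
      · exact h2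
      · exact absurd (h2 hw.1) hb
      · exact absurd hu.1 (Finset.disjoint_left.mp h2 ha)
    rw [hca]
    refine mem_Sp_first φ c κ ha (h1.trans (Finset.card_le_card ?_))
    rw [← hu.2]
    exact out_anti φ hXY a

end Pool.Agent.Work.MP_63853a_lc.Tr
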