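import Pool.Agent.Work.MP_63853a_lc.Tr.SSf
import Pool.Agent.Work.MP_63853a_lc.Tr.Crs

set_option autoImplicit false

/-!
# Bd (size M): the boundary of the edge sets of the tree

All edges below join different classes. (L1) If `X ∈ T.sets`, `e ∈ SS X`, `e' ∉ SS X` (`c (φ e').1 ≠ c (φ e').2`), and an end `z`
of `e` and an end `z'` of `e'` have `c z = c z' = p`, then `p ∈ Sp X`: if exactly one of `z`, `z'` is in `X` use `crs`. If both
are in `X`: the other end `w'` of `e'` is not in `X` (else `Own`), and `z'` is not `Big` for `X` (else `Own`), so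
`|lab X z'| < κ` or `κ ≤ |out X z'|`, first or second part of `Sp`. If both are outside `X`: `Own φ κ X e` with the end `z ∉ X`, so the
other end `u ∈ X` is `Big`, `κ ≤ |lab X u|` and `z ∈ out X u`: third part.
(L2) If `e ∈ SS (X₁ ∪ X₂)`, `e ∉ SS X₁`, `e ∉ SS X₂` then `c` of both ends is in `Sp X₁ ∪ Sp X₂ ∪ Sp (X₁ ∪ X₂)`: if both ends
are in `X₁ ∪ X₂` then one is in `X₁` and the other in `X₂` (not both in one of them, else `Own`), an end `a ∈ X₁` with the other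
end outside `X₁` is not `Big` for `X₁`: first or second part of `Sp X₁`; the same for `X₂`. Otherwise `a ∈ X₁ ∪ X₂` is `Big` for
`X₁ ∪ X₂` and `b ∉ X₁ ∪ X₂`: `c b` is in the third part of `Sp (X₁ ∪ X₂)`; `a` is in `X₁` or `X₂` and not `Big` for this set.
`bd`: let `e ∈ U`, `e' ∉ U` be the two edges. If `e' ∉ SS (X₁ ∪ X₂)`: (L1) for `X₁ ∪ X₂`. Otherwise, if `e ∈ SS X₁`: (L1) for `X₁`
(`e' ∉ U ⊇ SS X₁`); `e ∈ SS X₂`: the same; otherwise (L2) for `e`.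
-/

namespace Pool.Agent.Work.MP_63853a_lc.Tr

open Finset Pool.Agent.Work.MP_63853a_lc

variable {V E : Type} [Fintype V] [Fintype E]

private def Ed (φ : E → V × V) (e : E) (z w : V) : Prop :=
  ((φ e).1 = z ∧ (φ e).2 = w) ∨ ((φ e).1 = w ∧ (φ e).2 = z)

omit [Fintype V] [Fintype E] in
private theorem ed_nb {φ : E → V × V} {e : E} {z w : V} (h : Ed φ e z w) : nb φ w z := by
  refine ⟨e, ?_⟩
  rcases h with ⟨h1, h2⟩ | ⟨h1, h2⟩
  · right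
    rw [← h1, ← h2]
  · left
    rw [← h1, ← h2]

omit [Fintype E] in
private theorem ed_own {φ : E → V × V} {e : E} {z w : V} (κ : ℕ) (X : Finset V) (h : Ed φ e z w) :
    Own φ κ X e ↔ (z ∈ X ∧ w ∈ X) ∨ (z ∈ X ∧ w ∉ X ∧ Big φ κ X z) ∨
      (w ∈ X ∧ z ∉ X ∧ Big φ κ X w) := by
  unfold Own
  rcases h with ⟨h1, h2⟩ | ⟨h1, h2⟩
  · rw [h1, h2]
  · rw [h1, h2]
    tauto

private theorem ed_SS {φ : E → V × V} {c : V → V} {κ : ℕ} {X : Finset V} {e : E} {z w : V}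
    (h : Ed φ e z w) : e ∈ SS φ c κ X ↔ c z ≠ c w ∧ ((z ∈ X ∧ w ∈ X) ∨
      (z ∈ X ∧ w ∉ X ∧ Big φ κ X z) ∨ (w ∈ X ∧ z ∉ X ∧ Big φ κ X w)) := by
  classical
  have h0 : e ∈ SS φ c κ X ↔ (c (φ e).1 ≠ c (φ e).2 ∧ Own φ κ X e) := by simp [SS]
  rw [h0, ed_own κ X h]
  rcases h with ⟨h1, h2⟩ | ⟨h1, h2⟩
  · rw [h1, h2]
  · rw [h1, h2]
    have : (c w ≠ c z) ↔ (c z ≠ c w) := ne_comm
    simp [this]

omit [Fintype E] in
private theorem sp_nbig (φ : E → V × V) (c : V → V) (κ : ℕ) {X : Finset V} {a : V} (ha : a ∈ X)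
    (h : ¬ Big φ κ X a) : c a ∈ Sp φ c κ X := by
  classical
  simp only [Sp, Finset.mem_image]
  refine ⟨a, ?_, rfl⟩
  rw [Finset.mem_union, Finset.mem_union]
  left
  by_cases h1 : κ ≤ (out φ X a).card
  · exact Or.inl (Finset.mem_filter.mpr ⟨ha, h1⟩)
  · right
    refine Finset.mem_filter.mpr ⟨ha, ?_⟩
    by_contra h2
    exact h ⟨not_lt.mp h2, not_le.mp h1⟩

omit [Fintype E] in
private theorem sp_third (φ : E → V × V) (c : V → V) (κ : ℕ) {X : Finset V} {b v : V} (hv : v ∈ X)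
    (h : κ ≤ (lab φ X v).card) (hb : b ∉ X) (hn : nb φ v b) : c b ∈ Sp φ c κ X := by
  classical
  simp only [Sp, Finset.mem_image]
  refine ⟨b, ?_, rfl⟩
  rw [Finset.mem_union, Finset.mem_union]
  refine Or.inr (Finset.mem_filter.mpr ⟨Finset.mem_univ _, v, hv, h, ?_⟩)
  simp only [out, Finset.mem_filter, Finset.mem_univ, true_and]
  exact ⟨hb, hn⟩

private theorem L1 (φ : E → V × V) (κ : ℕ) {T : VTree V} (hT : T.Nodup) (c : V → V)
    (hc : ∀ u v, c u = c v ↔ Relation.EqvGen (Gen φ κ T) u v) {X : Finset V} (hX : X ∈ T.sets)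
    {e e' : E} {z w z' w' : V} (he : Ed φ e z w) (he' : Ed φ e' z' w') (hne : c z' ≠ c w')
    (h : e ∈ SS φ c κ X) (h' : e' ∉ SS φ c κ X) (hz : c z = c z') : c z ∈ Sp φ c κ X := by
  by_cases a : z ∈ X
  · by_cases b : z' ∈ X
    · rw [hz]
      have hw' : w' ∉ X := fun hw' => h' ((ed_SS he').mpr ⟨hne, Or.inl ⟨b, hw'⟩⟩)
      exact sp_nbig φ c κ b fun hb => h' ((ed_SS he').mpr ⟨hne, Or.inr (Or.inl ⟨b, hw', hb⟩)⟩)
    · exact crs φ κ hT c hc hX a b hz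
  · by_cases b : z' ∈ X
    · rw [hz]
      exact crs φ κ hT c hc hX b a hz.symm
    · obtain ⟨-, h1 | h1 | h1⟩ := (ed_SS he).mp h
      · exact absurd h1.1 a
      · exact absurd h1.1 a
      · exact sp_third φ c κ h1.1 h1.2.2.1 a (ed_nb he)

open Classical in
private theorem L2 (φ : E → V × V) (κ : ℕ) (c : V → V) {X₁ X₂ : Finset V}
    {e : E} {z w : V} (he : Ed φ e z w) (h : e ∈ SS φ c κ (X₁ ∪ X₂)) (h1 : e ∉ SS φ c κ X₁)
    (h2 : e ∉ SS φ c κ X₂) : c z ∈ Sp φ c κ X₁ ∪ Sp φ c κ X₂ ∪ Sp φ c κ (X₁ ∪ X₂) := by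
  obtain ⟨hne, hh⟩ := (ed_SS he).mp h
  have key : ∀ X : Finset V, e ∉ SS φ c κ X → z ∈ X → c z ∈ Sp φ c κ X := by
    intro X hX hz
    have hw : w ∉ X := fun hw => hX ((ed_SS he).mpr ⟨hne, Or.inl ⟨hz, hw⟩⟩)
    exact sp_nbig φ c κ hz fun hb => hX ((ed_SS he).mpr ⟨hne, Or.inr (Or.inl ⟨hz, hw, hb⟩)⟩)
  by_cases hz : z ∈ X₁ ∪ X₂
  · rw [Finset.mem_union] at hz
    rw [Finset.mem_union, Finset.mem_union]
    rcases hz with hz | hz
    · exact Or.inl (Or.inl (key X₁ h1 hz))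
    · exact Or.inl (Or.inr (key X₂ h2 hz))
  · rw [Finset.mem_union]
    right
    rcases hh with hh | hh | hh
    · exact absurd hh.1 hz
    · exact absurd hh.1 hz
    · exact sp_third φ c κ hh.1 hh.2.2.1 hz (ed_nb he)

omit [Fintype V] [Fintype E] in
private theorem ed_of (φ : E → V × V) (c : V → V) {e : E} {p : V}
    (h : (quo φ c e).1 ≠ (quo φ c e).2 ∧ ((quo φ c e).1 = p ∨ (quo φ c e).2 = p)) :
    ∃ z w, Ed φ e z w ∧ c z = p ∧ c z ≠ c w := by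
  obtain ⟨h1, h2 | h2⟩ := h
  · exact ⟨(φ e).1, (φ e).2, Or.inl ⟨rfl, rfl⟩, h2, h1⟩
  · exact ⟨(φ e).2, (φ e).1, Or.inr ⟨rfl, rfl⟩, h2, h1.symm⟩

open Classical in
theorem bd (φ : E → V × V) (κ : ℕ) {T : VTree V} (hT : T.Nodup) (c : V → V)
    (hc : ∀ u v, c u = c v ↔ Relation.EqvGen (Gen φ κ T) u v) {X₁ X₂ : Finset V} (h₁ : X₁ ∈ T.sets)
    (h₂ : X₂ ∈ T.sets) (h : X₁ ∪ X₂ ∈ T.sets) {U : Finset E} (hU₁ : SS φ c κ X₁ ∪ SS φ c κ X₂ ⊆ U)
    (hU₂ : U ⊆ SS φ c κ (X₁ ∪ X₂)) (p : V)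
    (hp : ∃ e ∈ U, (quo φ c e).1 ≠ (quo φ c e).2 ∧ ((quo φ c e).1 = p ∨ (quo φ c e).2 = p))
    (hp' : ∃ e, e ∉ U ∧ (quo φ c e).1 ≠ (quo φ c e).2 ∧ ((quo φ c e).1 = p ∨ (quo φ c e).2 = p)) :
    p ∈ Sp φ c κ X₁ ∪ Sp φ c κ X₂ ∪ Sp φ c κ (X₁ ∪ X₂) := by
  obtain ⟨e, heU, he⟩ := hp
  obtain ⟨e', heU', he'⟩ := hp'
  obtain ⟨z, w, hed, hz, -⟩ := ed_of φ c he
  obtain ⟨z', w', hed', hz', hne'⟩ := ed_of φ c he'
  have hzz : c z = c z' := hz.trans hz'.symm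
  have hS := hU₂ heU
  rw [← hz]
  by_cases a0 : e' ∈ SS φ c κ (X₁ ∪ X₂)
  · by_cases a1 : e ∈ SS φ c κ X₁
    · have b1 : e' ∉ SS φ c κ X₁ := fun hh => heU' (hU₁ (Finset.mem_union_left _ hh))
      have := L1 φ κ hT c hc h₁ hed hed' hne' a1 b1 hzz
      rw [Finset.mem_union, Finset.mem_union]
      exact Or.inl (Or.inl this)
    · by_cases a2 : e ∈ SS φ c κ X₂
      · have b2 : e' ∉ SS φ c κ X₂ := fun hh => heU' (hU₁ (Finset.mem_union_right _ hh))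
        have := L1 φ κ hT c hc h₂ hed hed' hne' a2 b2 hzz
        rw [Finset.mem_union, Finset.mem_union]
        exact Or.inl (Or.inr this)
      · exact L2 φ κ c hed hS a1 a2
  · have := L1 φ κ hT c hc h hed hed' hne' hS a0 hzz
    rw [Finset.mem_union]
    exact Or.inr this

end Pool.Agent.Work.MP_63853a_lc.Tr
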