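import Pool.Agent.Work.MP_63853a_lc.Tr.SSf
import Pool.Agent.Work.MP_63853a_lc.Tr.CatF

set_option autoImplicit false

/-!
# Bld (size S-M): the tree of a vertex tree

Induction on `T`. `leaf v`: `SS_leaf`. `node l r`: `cat_edges`, the induction hypotheses and
`SS l ∪ SS r ⊆ SS (l ∪ r)` (`SS_mono`); `Finset.toList_toFinset`, `Finset.nodup_toList`, `Finset.mem_toList`, `Finset.length_toList`;
disjointness of the children by `SS_disj`. Size: the claim is `size + 1 ≤ 2 |verts| + 2 |SS verts|`; `|SS (l ∪ r)| = |SS l| + |SS r| +
|new|`.
-/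

namespace Pool.Agent.Work.MP_63853a_lc.Tr

open Finset Pool.Agent.Work.MP_63853a_lc

variable {V E : Type} [Fintype V] [Fintype E]

open Classical in
private theorem ss_sub (φ : E → V × V) (c : V → V) (κ : ℕ) (l r : VTree V) :
    SS φ c κ l.verts ∪ SS φ c κ r.verts ⊆ SS φ c κ (VTree.node l r).verts := by
  have hl : l.verts ⊆ (VTree.node l r).verts := by
    intro v hv
    simp only [VTree.verts, Finset.mem_union]
    exact Or.inl hv
  have hr : r.verts ⊆ (VTree.node l r).verts := by
    intro v hv
    simp only [VTree.verts, Finset.mem_union]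
    exact Or.inr hv
  exact Finset.union_subset (SS_mono φ c κ hl) (SS_mono φ c κ hr)

theorem build_edges (φ : E → V × V) (c : V → V) {κ : ℕ} (hκ : 2 ≤ κ) (T : VTree V) (hT : T.Nodup) :
    (build φ c κ T).edges = SS φ c κ T.verts := by
  classical
  induction T with
  | leaf v =>
    simp only [build, ETree.edges, VTree.verts]
    exact (SS_leaf φ c hκ v).symm
  | node l r ihl ihr =>
    obtain ⟨h1, h2, h3⟩ := hT
    have hs := ss_sub φ c κ l r
    simp only [VTree.verts] at hs
    simp only [build, VTree.verts, cat_edges, ETree.edges, ihl h2, ihr h3, Finset.toList_toFinset]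
    ext e
    simp only [Finset.mem_union, Finset.mem_sdiff]
    constructor
    · rintro (h | h)
      · exact hs (by simpa only [Finset.mem_union] using h)
      · exact h.1
    · intro h
      by_cases h' : e ∈ SS φ c κ l.verts ∨ e ∈ SS φ c κ r.verts
      · exact Or.inl h'
      · exact Or.inr ⟨h, h'⟩

theorem build_nodup (φ : E → V × V) (c : V → V) {κ : ℕ} (hκ : 2 ≤ κ) (T : VTree V) (hT : T.Nodup) :
    (build φ c κ T).Nodup := by
  classical
  induction T with
  | leaf v =>
    simp only [build, ETree.Nodup]
  | node l r ihl ihr =>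
    obtain ⟨h1, h2, h3⟩ := hT
    simp only [build]
    refine cat_nodup _ _ ?_ (Finset.nodup_toList _) ?_
    · refine ⟨?_, ihl h2, ihr h3⟩
      rw [build_edges φ c hκ l h2, build_edges φ c hκ r h3]
      exact SS_disj φ c κ h1
    · intro e he
      rw [Finset.mem_toList, Finset.mem_sdiff] at he
      intro h
      apply he.2
      simp only [ETree.edges, Finset.mem_union, build_edges φ c hκ l h2, build_edges φ c hκ r h3] at h
      simpa only [Finset.mem_union] using h

theorem build_size (φ : E → V × V) (c : V → V) {κ : ℕ} (hκ : 2 ≤ κ) (T : VTree V) (hT : T.Nodup) :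
    (build φ c κ T).size + 1 ≤ 2 * T.verts.card + 2 * (SS φ c κ T.verts).card := by
  classical
  induction T with
  | leaf v =>
    simp only [build, ETree.size, VTree.verts, Finset.card_singleton, SS_leaf φ c hκ v, Finset.card_empty]
    omega
  | node l r ihl ihr =>
    obtain ⟨h1, h2, h3⟩ := hT
    have hs := ss_sub φ c κ l r
    have hl := ihl h2
    have hr := ihr h3
    have hv : (VTree.node l r).verts.card = l.verts.card + r.verts.card := by
      simp only [VTree.verts]
      exact Finset.card_union_of_disjoint h1
    have hd : (SS φ c κ l.verts ∪ SS φ c κ r.verts).card =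
        (SS φ c κ l.verts).card + (SS φ c κ r.verts).card :=
      Finset.card_union_of_disjoint (SS_disj φ c κ h1)
    have hc := Finset.card_sdiff_add_card_eq_card hs
    have hb : (build φ c κ (VTree.node l r)).size = (build φ c κ l).size + (build φ c κ r).size + 1 +
        2 * (SS φ c κ (VTree.node l r).verts \ (SS φ c κ l.verts ∪ SS φ c κ r.verts)).card := by
      simp only [build, cat_size, ETree.size, Finset.length_toList, VTree.verts]
    rw [hb, hv]
    omega

end Pool.Agent.Work.MP_63853a_lc.Tr
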