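import Pool.Agent.Work.MP_63853a_lc.Tr.Lab

set_option autoImplicit false

/-!
# SpC (size M): the number of special classes

`Finset.image_union`, `card_union_le`. First part: `c` of `A₁ = {a ∈ X | κ ≤ |out φ X a|}`: if `a, a' ∈ A₁` have the same
`out φ X` then both are in `lab φ X a`, so `Gen φ κ T a a'` and `c a = c a'`; so the number of classes is at most the number of
values of `out φ X` on `A₁`, at most `k` (`Finset.card_le_card_of_surjOn`, or map a class to the value of `out` at a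
representative, `Finset.card_le_card_of_injOn`). Second part: `{a ∈ X | |lab φ X a| < κ}` has at most `k * κ` elements
(`Finset.card_le_mul_card_image`: the fibre of `out φ X` over `out φ X a` is contained in `lab φ X a`). Third part: it is
the union over the values `O` of `out φ X` on `{v ∈ X | κ ≤ |lab φ X v|}` of `c` of `O`, and `c` is constant on `O`
(`Gen`), so at most `k` classes (`Finset.card_biUnion_le`).
-/

namespace Pool.Agent.Work.MP_63853a_lc.Tr

open Finset Pool.Agent.Work.MP_63853a_lc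

variable {V E : Type} [Fintype V]

private theorem inj_le {α β : Type} [DecidableEq α] [DecidableEq β] (s : Finset α) (t : Finset β)
    (P : α → β → Prop) (h1 : ∀ a ∈ s, ∃ b ∈ t, P a b)
    (h2 : ∀ a ∈ s, ∀ a' ∈ s, ∀ b, P a b → P a' b → a = a') : s.card ≤ t.card := by
  rcases s.eq_empty_or_nonempty with rfl | ⟨a₀, ha₀⟩
  · simp
  obtain ⟨b₀, -, -⟩ := h1 a₀ ha₀
  have : Nonempty β := ⟨b₀⟩
  choose! F hF1 hF2 using h1
  refine Finset.card_le_card_of_injOn F (fun a ha => hF1 a ha) ?_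
  intro a ha a' ha' haa
  refine h2 a ha a' ha' (F a) (hF2 a ha) ?_
  have := hF2 a' ha'
  rw [← haa] at this
  exact this

theorem card_Sp (φ : E → V × V) (κ : ℕ) {T : VTree V} (c : V → V)
    (hc : ∀ u v, c u = c v ↔ Relation.EqvGen (Gen φ κ T) u v) {X : Finset V} (hX : X ∈ T.sets) {k : ℕ}
    (hk : Set.ncard (out φ X '' (X : Set V)) ≤ k) : (Sp φ c κ X).card ≤ k * (κ + 2) := by
  classical
  obtain ⟨O, hO⟩ : ∃ O : Finset (Finset V), O = X.image (out φ X) := ⟨_, rfl⟩
  have hOk : O.card ≤ k := by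
    refine le_trans (le_of_eq ?_) hk
    rw [hO, ← Set.ncard_coe_finset, Finset.coe_image]
  obtain ⟨S1, hS1⟩ : ∃ S1 : Finset V, S1 = X.filter fun a => κ ≤ (out φ X a).card := ⟨_, rfl⟩
  obtain ⟨S2, hS2⟩ : ∃ S2 : Finset V, S2 = X.filter fun a => (lab φ X a).card < κ := ⟨_, rfl⟩
  obtain ⟨S3, hS3⟩ : ∃ S3 : Finset V, S3 = univ.filter fun b => ∃ v ∈ X, κ ≤ (lab φ X v).card ∧
    b ∈ out φ X v := ⟨_, rfl⟩
  have hlab : ∀ a ∈ X, ∀ b ∈ X, out φ X b = out φ X a → b ∈ lab φ X a := by
    intro a _ b hb hab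
    unfold lab
    rw [mem_filter]
    exact ⟨hb, hab⟩
  have h1 : (S1.image c).card ≤ k := by
    refine le_trans (inj_le (S1.image c) O (fun y o => ∃ a ∈ S1, c a = y ∧ out φ X a = o) ?_ ?_)
      hOk
    · intro y hy
      obtain ⟨a, ha, rfl⟩ := mem_image.1 hy
      refine ⟨out φ X a, ?_, a, ha, rfl, rfl⟩
      rw [hO]
      rw [hS1, mem_filter] at ha
      exact mem_image_of_mem _ ha.1
    · rintro y hy y' hy' o ⟨a, ha, rfl, hao⟩ ⟨a', ha', rfl, hao'⟩
      rw [hS1, mem_filter] at ha ha'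
      rw [hc]
      refine Relation.EqvGen.rel _ _ ⟨X, hX, a, ha.1, Or.inr ⟨ha.2, hlab a ha.1 a ha.1 rfl, ?_⟩⟩
      exact hlab a ha.1 a' ha'.1 (hao'.trans hao.symm)
  have h2 : (S2.image c).card ≤ k * κ := by
    refine card_image_le.trans ?_
    have h3 : S2.card ≤ κ * (S2.image (out φ X)).card := by
      refine Finset.card_le_mul_card_image S2 κ ?_
      intro o ho
      obtain ⟨a, ha, rfl⟩ := mem_image.1 ho
      rw [hS2, mem_filter] at ha
      refine le_trans (card_le_card ?_) ha.2.le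
      intro b hb
      rw [mem_filter] at hb
      rw [hS2, mem_filter] at hb
      exact hlab a ha.1 b hb.1.1 hb.2
    refine h3.trans ?_
    rw [mul_comm k κ]
    refine Nat.mul_le_mul_left κ (le_trans (card_le_card ?_) hOk)
    rw [hO, hS2]
    exact image_subset_image (filter_subset _ _)
  have h3 : (S3.image c).card ≤ k := by
    refine le_trans (inj_le (S3.image c) O
      (fun y o => ∃ v ∈ X, κ ≤ (lab φ X v).card ∧ out φ X v = o ∧ ∃ b ∈ out φ X v, c b = y) ?_ ?_)
      hOk
    · intro y hy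
      obtain ⟨b, hb, rfl⟩ := mem_image.1 hy
      rw [hS3, mem_filter] at hb
      obtain ⟨-, v, hv, hvk, hbv⟩ := hb
      refine ⟨out φ X v, ?_, v, hv, hvk, rfl, b, hbv, rfl⟩
      rw [hO]
      exact mem_image_of_mem _ hv
    · rintro y hy y' hy' o ⟨v, hv, hvk, hvo, b, hb, rfl⟩ ⟨v', hv', hvk', hvo', b', hb', rfl⟩
      rw [hc]
      refine Relation.EqvGen.rel _ _ ⟨X, hX, v, hv, Or.inl ⟨hvk, hb, ?_⟩⟩
      rw [hvo, ← hvo']
      exact hb'
  have h4 : Sp φ c κ X = S1.image c ∪ S2.image c ∪ S3.image c := by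
    unfold Sp
    rw [hS1, hS2, hS3, image_union, image_union]
  rw [h4]
  refine (card_union_le _ _).trans ?_
  have h5 := card_union_le (S1.image c) (S2.image c)
  calc (S1.image c ∪ S2.image c).card + (S3.image c).card ≤ (k + k * κ) + k := by omega
    _ = k * (κ + 2) := by ring

end Pool.Agent.Work.MP_63853a_lc.Tr
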