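import Pool.Agent.Work.MP_63853a_lc.Tr.Bld
import Pool.Agent.Work.MP_63853a_lc.Tr.Bd
import Pool.Agent.Work.MP_63853a_lc.Tr.SpC
import Pool.Agent.Work.MP_63853a_lc.Tr.Lam

set_option autoImplicit false

/-!
# BldW (size M): the width of this tree

Generalize: for every vertex tree `T'` with `T'.sets ⊆ T.sets`, `T'.Nodup`, every `S ∈ (build φ c κ T').sets` has
`lam (quo φ c) S ≤ 3 * k * (κ + 2)`; induction on `T'`. `leaf`: `S = ∅`, `lam ψ ∅ = 0` (`rk ψ ∅ = 0` by `kk_empty`, or `lam_le` with
`W = ∅`). `node l r` with `X₁ = l.verts`, `X₂ = r.verts` (in `T.sets` by `verts_mem`), `X₁ ∪ X₂ ∈ T.sets`: by `cat_sets` `S` is in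
`(node (build l) (build r)).sets`, or `{e}`, or contains `SS X₁ ∪ SS X₂` (`build_edges`) and is contained in
`SS (X₁ ∪ X₂)`; the first case gives `S = SS X₁ ∪ SS X₂` or `S` in the sets of one of the two children (induction). For
`SS X₁ ∪ SS X₂ ⊆ S ⊆ SS (X₁ ∪ X₂)` use `lam_le` with `W = Sp X₁ ∪ Sp X₂ ∪ Sp (X₁ ∪ X₂)`, `bd`, `card_Sp`. For `{e}`: `lam_le` with `W` the
two ends, `2 ≤ 3 * k * (κ + 2)` as `1 ≤ k` (`X₁` is nonempty, so `out φ X₁ '' X₁` is nonempty; `Set.ncard`).
-/

namespace Pool.Agent.Work.MP_63853a_lc.Tr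

open Finset Pool.Agent.Work.MP_63853a_lc

variable {V E : Type} [Fintype V] [Fintype E]

omit [Fintype V] in
private theorem verts_ne (T : VTree V) : T.verts.Nonempty := by
  classical
  induction T with
  | leaf v => exact ⟨v, by simp [VTree.verts]⟩
  | node l r ihl _ =>
    obtain ⟨v, hv⟩ := ihl
    exact ⟨v, by simp only [VTree.verts, Finset.mem_union]; exact Or.inl hv⟩

private theorem bl_mid (φ : E → V × V) {κ : ℕ} {T : VTree V} (hT : T.Nodup) (c : V → V)
    (hc : ∀ u v, c u = c v ↔ Relation.EqvGen (Gen φ κ T) u v) {k : ℕ}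
    (hk : ∀ X ∈ T.sets, Set.ncard (out φ X '' (X : Set V)) ≤ k) {l r : VTree V} (hs : (VTree.node l r).sets ⊆ T.sets)
    {S : Finset E} (h1 : SS φ c κ l.verts ⊆ S) (h2 : SS φ c κ r.verts ⊆ S)
    (h3 : S ⊆ SS φ c κ (VTree.node l r).verts) : lam (quo φ c) S ≤ 3 * k * (κ + 2) := by
  classical
  have hX₁ : l.verts ∈ T.sets := hs (by
    simp only [VTree.sets, Set.mem_insert_iff, Set.mem_union]
    exact Or.inr (Or.inl (verts_mem l)))
  have hX₂ : r.verts ∈ T.sets := hs (by
    simp only [VTree.sets, Set.mem_insert_iff, Set.mem_union]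
    exact Or.inr (Or.inr (verts_mem r)))
  have hX : l.verts ∪ r.verts ∈ T.sets := hs (by
    simp only [VTree.sets, Set.mem_insert_iff, true_or])
  have h3' : S ⊆ SS φ c κ (l.verts ∪ r.verts) := by
    refine h3.trans (le_of_eq ?_)
    congr 1
  have h4 := lam_le (quo φ c) S (Sp φ c κ l.verts ∪ Sp φ c κ r.verts ∪ Sp φ c κ (l.verts ∪ r.verts))
    (fun p hp hp' => by
      have h5 := bd φ κ hT c hc hX₁ hX₂ (by convert hX) (U := S)
        (by
          intro e he
          rw [Finset.mem_union] at he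
          exact he.elim (fun h => h1 h) (fun h => h2 h))
        (by convert h3') p hp hp'
      rw [Finset.mem_union, Finset.mem_union] at h5 ⊢
      convert h5)
  have e1 := card_Sp φ κ c hc hX₁ (hk _ hX₁)
  have e2 := card_Sp φ κ c hc hX₂ (hk _ hX₂)
  have e3 := card_Sp φ κ c hc hX (hk _ hX)
  have e4 := Finset.card_union_le (Sp φ c κ l.verts ∪ Sp φ c κ r.verts) (Sp φ c κ (l.verts ∪ r.verts))
  have e5 := Finset.card_union_le (Sp φ c κ l.verts) (Sp φ c κ r.verts)
  have e6 : 3 * k * (κ + 2) = k * (κ + 2) + k * (κ + 2) + k * (κ + 2) := by ring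
  rw [e6]
  omega

private theorem bl_gen (φ : E → V × V) {κ : ℕ} (hκ : 2 ≤ κ) {T : VTree V} (hT : T.Nodup) (c : V → V)
    (hc : ∀ u v, c u = c v ↔ Relation.EqvGen (Gen φ κ T) u v) {k : ℕ}
    (hk : ∀ X ∈ T.sets, Set.ncard (out φ X '' (X : Set V)) ≤ k) (T' : VTree V) (hs : T'.sets ⊆ T.sets)
    (hT' : T'.Nodup) : ∀ S ∈ (build φ c κ T').sets, lam (quo φ c) S ≤ 3 * k * (κ + 2) := by
  classical
  induction T' with
  | leaf v =>
    intro S hS
    simp only [build, ETree.sets, Set.mem_singleton_iff] at hS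
    rw [hS]
    have h1 := lam_le (quo φ c) (∅ : Finset E) ∅ (fun p hp _ => by
      obtain ⟨e, he, _⟩ := hp
      exact absurd he (Finset.notMem_empty e))
    rw [Finset.card_empty] at h1
    exact h1.trans (Nat.zero_le _)
  | node l r ihl ihr =>
    intro S hS
    obtain ⟨hd, hl, hr⟩ := hT'
    have hsl : l.sets ⊆ T.sets := fun X hX => hs (by
      simp only [VTree.sets, Set.mem_insert_iff, Set.mem_union]
      exact Or.inr (Or.inl hX))
    have hsr : r.sets ⊆ T.sets := fun X hX => hs (by
      simp only [VTree.sets, Set.mem_insert_iff, Set.mem_union]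
      exact Or.inr (Or.inr hX))
    have hm1 : SS φ c κ l.verts ⊆ SS φ c κ (VTree.node l r).verts := SS_mono φ c κ (by
      intro x hx
      simp only [VTree.verts, Finset.mem_union]
      exact Or.inl hx)
    have hm2 : SS φ c κ r.verts ⊆ SS φ c κ (VTree.node l r).verts := SS_mono φ c κ (by
      intro x hx
      simp only [VTree.verts, Finset.mem_union]
      exact Or.inr hx)
    have hk1 : 1 ≤ k := by
      have hX : l.verts ∈ T.sets := hsl (verts_mem l)
      refine le_trans ?_ (hk _ hX)
      rw [Nat.one_le_iff_ne_zero]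
      intro h0
      rw [Set.ncard_eq_zero (Set.toFinite _)] at h0
      obtain ⟨v, hv⟩ := verts_ne l
      have h1 : out φ l.verts v ∈ out φ l.verts '' (l.verts : Set V) := Set.mem_image_of_mem _ (by exact_mod_cast hv)
      rw [h0] at h1
      exact h1
    rw [build] at hS
    rcases cat_sets _ _ hS with h | ⟨e, he⟩ | ⟨h1, h2⟩
    · simp only [ETree.sets, Set.mem_insert_iff, Set.mem_union] at h
      rcases h with h | h | h
      · rw [build_edges φ c hκ l hl, build_edges φ c hκ r hr] at h
        refine bl_mid φ hT c hc hk hs ?_ ?_ ?_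
        · rw [h]
          intro e he
          rw [Finset.mem_union]
          exact Or.inl he
        · rw [h]
          intro e he
          rw [Finset.mem_union]
          exact Or.inr he
        · rw [h]
          intro e he
          rw [Finset.mem_union] at he
          exact he.elim (fun h => hm1 h) (fun h => hm2 h)
      · exact ihl hsl hl S h
      · exact ihr hsr hr S h
    · rw [he]
      have h1 := lam_le (quo φ c) ({e} : Finset E) {(quo φ c e).1, (quo φ c e).2} (fun p hp _ => by
        obtain ⟨f, hf, _, hf'⟩ := hp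
        rw [Finset.mem_singleton] at hf
        rw [hf] at hf'
        rw [Finset.mem_insert, Finset.mem_singleton]
        exact hf'.imp Eq.symm Eq.symm)
      refine h1.trans (Finset.card_le_two.trans ?_)
      nlinarith [Nat.zero_le κ, Nat.zero_le k]
    · simp only [ETree.edges, build_edges φ c hκ l hl, build_edges φ c hκ r hr] at h1 h2
      refine bl_mid φ hT c hc hk hs ?_ ?_ ?_
      · intro e he
        exact h1 (by rw [Finset.mem_union]; exact Or.inl he)
      · intro e he
        exact h1 (by rw [Finset.mem_union]; exact Or.inr he)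
      · intro e he
        have h3 := h2 he
        rw [Finset.mem_union, Finset.mem_union, List.mem_toFinset, Finset.mem_toList, Finset.mem_sdiff] at h3
        rcases h3 with (h3 | h3) | h3
        · exact hm1 h3
        · exact hm2 h3
        · exact h3.1

theorem build_lam (φ : E → V × V) {κ : ℕ} (hκ : 2 ≤ κ) {T : VTree V} (hT : T.Nodup) (c : V → V)
    (hc : ∀ u v, c u = c v ↔ Relation.EqvGen (Gen φ κ T) u v) {k : ℕ}
    (hk : ∀ X ∈ T.sets, Set.ncard (out φ X '' (X : Set V)) ≤ k) {S : Finset E}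
    (hS : S ∈ (build φ c κ T).sets) : lam (quo φ c) S ≤ 3 * k * (κ + 2) := by
  exact bl_gen φ hκ hT c hc hk T (fun _ h => h) hT S hS

end Pool.Agent.Work.MP_63853a_lc.Tr
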