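import Pool.Agent.Work.MP_63853a_lc.Tr.Defs

set_option autoImplicit false

/-!
# Phi (size S): identities for the weights

`Phi_union`: `A ↦ (A ∩ S₁, A ∩ S₂)` is a bijection from the subsets of `S₁ ∪ S₂` to the pairs (`Finset.sum_bij'` or
`Finset.sum_nbij'` after `Finset.sum_product'` / `Finset.sum_sigma'`), `|A₁ ∪ A₂| = |A₁| + |A₂|` (`card_union_of_disjoint`) and
`A₂ ∪ (B ∪ A₁) = A₁ ∪ A₂ ∪ B`. `FF_join`, `FF_swap`: rewrite the unions (`Finset.union_comm`, `union_assoc`, or `ext`; `simp`;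
`tauto`), the power in the denominator of `FF ψ q (S₁ ∪ S₂) B` cancels. `FF_top`: `x / x = 1`. `Phi_nil`, `Phi_leaf`: the
powersets are `{∅}` and `{∅, {e}}`.
-/

namespace Pool.Agent.Work.MP_63853a_lc.Tr

open Finset Pool.Agent.Work.MP_63853a_lc

variable {V E : Type} [Fintype E]

open Classical in
theorem Phi_union (ψ : E → V × V) (q v : ℝ) {S₁ S₂ : Finset E} (h : Disjoint S₁ S₂) (B : Finset E) :
    ∑ A ∈ S₁.powerset, v ^ A.card * Phi ψ q v S₂ (B ∪ A) = Phi ψ q v (S₁ ∪ S₂) B := by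
  unfold Phi
  have h1 : ∀ A ∈ S₁.powerset, v ^ A.card * ∑ A' ∈ S₂.powerset, v ^ A'.card * q ^ kk ψ (A' ∪ (B ∪ A)) =
      ∑ A' ∈ S₂.powerset, v ^ A.card * (v ^ A'.card * q ^ kk ψ (A' ∪ (B ∪ A))) := fun A _ => Finset.mul_sum _ _ _
  rw [Finset.sum_congr rfl h1, ← Finset.sum_product']
  refine Finset.sum_bij' (fun x _ => x.1 ∪ x.2) (fun C _ => (C ∩ S₁, C ∩ S₂)) ?_ ?_ ?_ ?_ ?_
  · rintro ⟨A, A'⟩ hx
    simp only [Finset.mem_product, Finset.mem_powerset] at hx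
    exact Finset.mem_powerset.2 (Finset.union_subset_union hx.1 hx.2)
  · intro C _
    simp only [Finset.mem_product, Finset.mem_powerset]
    exact ⟨Finset.inter_subset_right, Finset.inter_subset_right⟩
  · rintro ⟨A, A'⟩ hx
    simp only [Finset.mem_product, Finset.mem_powerset] at hx
    have h2 : A' ∩ S₁ = ∅ := by
      rw [← Finset.disjoint_iff_inter_eq_empty]
      exact Finset.disjoint_of_subset_left hx.2 h.symm
    have h3 : A ∩ S₂ = ∅ := by
      rw [← Finset.disjoint_iff_inter_eq_empty]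
      exact Finset.disjoint_of_subset_left hx.1 h
    simp only [Finset.union_inter_distrib_right, h2, h3, Finset.inter_eq_left.2 hx.1, Finset.inter_eq_left.2 hx.2,
      Finset.union_empty, Finset.empty_union]
  · intro C hC
    rw [← Finset.inter_union_distrib_left]
    exact Finset.inter_eq_left.2 (Finset.mem_powerset.1 hC)
  · rintro ⟨A, A'⟩ hx
    simp only [Finset.mem_product, Finset.mem_powerset] at hx
    have h4 : Disjoint A A' := Finset.disjoint_of_subset_left hx.1 (Finset.disjoint_of_subset_right hx.2 h)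
    rw [Finset.card_union_of_disjoint h4, pow_add]
    have h5 : A' ∪ (B ∪ A) = A ∪ A' ∪ B := by
      ext e
      simp only [Finset.mem_union]
      tauto
    simp only [h5]
    ring

open Classical in
theorem FF_join (ψ : E → V × V) {q : ℝ} (hq : 0 < q) (S₁ S₂ B A₁ A₂ : Finset E) :
    q ^ kk ψ (A₁ ∪ A₂ ∪ (univ \ (S₁ ∪ S₂))) /
        (q ^ kk ψ (A₁ ∪ (univ \ S₁)) * q ^ kk ψ (A₂ ∪ (univ \ S₂))) * FF ψ q (S₁ ∪ S₂) B (A₁ ∪ A₂) =
      FF ψ q S₁ (B ∪ A₂) A₁ * (1 / q ^ kk ψ (A₂ ∪ (univ \ S₂))) := by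
  unfold FF
  have h1 : A₁ ∪ A₂ ∪ B = A₁ ∪ (B ∪ A₂) := by
    ext e
    simp only [Finset.mem_union]
    tauto
  rw [h1]
  have h2 : q ^ kk ψ (A₁ ∪ A₂ ∪ (univ \ (S₁ ∪ S₂))) ≠ 0 := (pow_pos hq _).ne'
  have h3 : q ^ kk ψ (A₁ ∪ (univ \ S₁)) ≠ 0 := (pow_pos hq _).ne'
  have h4 : q ^ kk ψ (A₂ ∪ (univ \ S₂)) ≠ 0 := (pow_pos hq _).ne'
  field_simp

open Classical in
theorem FF_swap (ψ : E → V × V) (q v : ℝ) (S₁ S₂ B A₂ : Finset E) :
    Phi ψ q v S₁ (B ∪ A₂) * (1 / q ^ kk ψ (A₂ ∪ (univ \ S₂))) =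
      ∑ A₁ ∈ S₁.powerset, v ^ A₁.card * FF ψ q S₂ (B ∪ A₁) A₂ := by
  unfold FF Phi
  rw [Finset.sum_mul]
  refine Finset.sum_congr rfl fun A₁ _ => ?_
  have h1 : A₁ ∪ (B ∪ A₂) = A₂ ∪ (B ∪ A₁) := by
    ext e
    simp only [Finset.mem_union]
    tauto
  rw [h1, mul_assoc, mul_one_div]

open Classical in
theorem FF_top (ψ : E → V × V) {q : ℝ} (hq : 0 < q) (S A : Finset E) : FF ψ q S (univ \ S) A = 1 := by
  unfold FF
  exact div_self (pow_pos hq _).ne'

theorem FF_nonneg (ψ : E → V × V) {q : ℝ} (hq : 0 < q) (S B A : Finset E) : 0 ≤ FF ψ q S B A := by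
  unfold FF
  exact div_nonneg (pow_pos hq _).le (pow_pos hq _).le

theorem Phi_nonneg (ψ : E → V × V) {q v : ℝ} (hq : 0 < q) (hv : 0 < v) (S B : Finset E) :
    0 < Phi ψ q v S B := by
  unfold Phi
  exact Finset.sum_pos (fun A _ => mul_pos (pow_pos hv _) (pow_pos hq _)) ⟨∅, Finset.empty_mem_powerset _⟩

theorem Phi_nil (ψ : E → V × V) (q v : ℝ) (B : Finset E) : Phi ψ q v ∅ B = q ^ kk ψ B := by
  classical
  unfold Phi
  rw [Finset.powerset_empty, Finset.sum_singleton, Finset.card_empty, pow_zero, one_mul]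
  congr 2
  exact Finset.empty_union B

open Classical in
theorem Phi_leaf (ψ : E → V × V) (q v : ℝ) (e : E) (B : Finset E) :
    Phi ψ q v {e} B = q ^ kk ψ B + v * q ^ kk ψ ({e} ∪ B) := by
  unfold Phi
  have h1 : ({e} : Finset E).powerset = {∅, {e}} := by
    ext A
    simp only [Finset.mem_powerset, Finset.subset_singleton_iff, Finset.mem_insert, Finset.mem_singleton]
  rw [h1, Finset.sum_pair (Finset.singleton_ne_empty e).symm, Finset.card_empty, pow_zero, one_mul, Finset.empty_union,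
    Finset.card_singleton, pow_one]

end Pool.Agent.Work.MP_63853a_lc.Tr
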