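import Pool.Agent.Work.MP_63853a_lc.Tr.Defs

set_option autoImplicit false

/-!
# Run (size M): `run` is a positive normalised linear functional

All by induction on `t` for all `f`, `g` (`induction t generalizing f g`; for `run_sum` generalize `f`). In a node the
inner functions are `fun P a => run ψ q v N r fun R b => draw ..`; the draw is a finite sum
`∑ s, (∏ ..) * f (..) (..)` with nonnegative coefficients: all weights are positive because `0 < q`, `0 < v`, `0 < a`,
`0 < b`, `0 < N`, and the sets drawn, `P i ∪ R j`, are contained in `l.edges ∪ r.edges`; the total weight is a nonempty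
sum of positive numbers (`Fin N × Fin N` is nonempty), hence positive. `run_congr` from `run_mono` twice. `run_one`: the
sum of the coefficients of a draw is `1`: prove it directly (`Finset.prod_univ_sum`) or cite `draw_one` of `Tr.Draw` (add the
import; its proof by another prover may still be a sorry); use `run_congr` for the inner functions. `run_add`, `run_mul`,
`run_sum` need no positivity.
-/

namespace Pool.Agent.Work.MP_63853a_lc.Tr

open Finset Pool.Agent.Work.MP_63853a_lc

variable {V E : Type} [Fintype E]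

private theorem draw_mono' {ι : Type} [Fintype ι] (N : ℕ) (a : ι → Finset E) (w : ι → ℝ) (hw : ∀ j, 0 ≤ w j)
    (f g : (Fin N → Finset E) → ℝ → ℝ)
    (h : ∀ s : Fin N → ι, f (fun i => a (s i)) (∑ j, w j) ≤ g (fun i => a (s i)) (∑ j, w j)) :
    draw N a w f ≤ draw N a w g := by
  unfold draw
  refine Finset.sum_le_sum fun s _ => mul_le_mul_of_nonneg_left (h s) ?_
  exact Finset.prod_nonneg fun i _ => div_nonneg (hw _) (Finset.sum_nonneg fun j _ => hw j)

open Classical in
private theorem mass {Ω : Type} [Fintype Ω] (W : Ω → ℝ) (h1 : ∑ o, W o = 1) (N : ℕ) :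
    ∑ ω : Fin N → Ω, ∏ i, W (ω i) = 1 := by
  have h := Finset.prod_univ_sum (fun _ : Fin N => (Finset.univ : Finset Ω)) (fun _ o => W o)
  rw [Fintype.piFinset_univ] at h
  rw [← h]
  exact Finset.prod_eq_one fun i _ => h1

private theorem draw_one' {ι : Type} [Fintype ι] (N : ℕ) (a : ι → Finset E) (w : ι → ℝ) (hW : 0 < ∑ j, w j) :
    draw N a w (fun _ _ => 1) = 1 := by
  unfold draw
  simp only [mul_one]
  exact mass (fun j => w j / ∑ k, w k) (by rw [← Finset.sum_div, div_self hW.ne']) N

open Classical in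
private theorem wpos (ψ : E → V × V) {q : ℝ} (hq : 0 < q) {N : ℕ} (hN : 0 < N) (S₁ S₂ : Finset E)
    (P R : Fin N → Finset E) {a b : ℝ} (ha : 0 < a) (hb : 0 < b) (i : Fin N × Fin N) :
    0 < a * b / N ^ 2 * (q ^ kk ψ (P i.1 ∪ R i.2 ∪ (univ \ (S₁ ∪ S₂))) /
        (q ^ kk ψ (P i.1 ∪ (univ \ S₁)) * q ^ kk ψ (R i.2 ∪ (univ \ S₂)))) := by
  have hNr : (0 : ℝ) < N := Nat.cast_pos.2 hN
  positivity

theorem run_mono (ψ : E → V × V) {q v : ℝ} (hq : 0 < q) (hv : 0 < v) {N : ℕ} (hN : 0 < N) (t : ETree E)
    (f g : (Fin N → Finset E) → ℝ → ℝ)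
    (h : ∀ P a, (∀ i, P i ⊆ t.edges) → 0 < a → f P a ≤ g P a) : run ψ q v N t f ≤ run ψ q v N t g := by
  classical
  have hne : Nonempty (Fin N × Fin N) := ⟨(⟨0, hN⟩, ⟨0, hN⟩)⟩
  induction t generalizing f g with
  | nil =>
    simp only [run]
    exact h _ _ (fun i => by simp [ETree.edges]) (pow_pos hq _)
  | leaf e =>
    simp only [run]
    have hw : ∀ b : Bool, 0 < (if b then v * q ^ kk ψ univ else q ^ kk ψ (univ \ {e}) : ℝ) := by
      intro b
      cases b
      · simpa using pow_pos hq (kk ψ (univ \ {e}))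
      · simpa using mul_pos hv (pow_pos hq (kk ψ univ))
    refine draw_mono' N _ _ (fun b => (hw b).le) f g fun s => h _ _ (fun i => ?_)
      (Finset.sum_pos (fun b _ => hw b) Finset.univ_nonempty)
    simp only [ETree.edges]
    split_ifs <;> simp
  | node l r ihl ihr =>
    simp only [run]
    refine ihl _ _ fun P a hP ha => ihr _ _ fun R b hR hb => ?_
    refine draw_mono' N _ _ (fun i => (wpos ψ hq hN _ _ P R ha hb i).le) f g fun s => h _ _ (fun i => ?_)
      (Finset.sum_pos (fun i _ => wpos ψ hq hN _ _ P R ha hb i) Finset.univ_nonempty)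
    simp only [ETree.edges]
    exact Finset.union_subset_union (hP _) (hR _)

theorem run_congr (ψ : E → V × V) {q v : ℝ} (hq : 0 < q) (hv : 0 < v) {N : ℕ} (hN : 0 < N) (t : ETree E)
    (f g : (Fin N → Finset E) → ℝ → ℝ)
    (h : ∀ P a, (∀ i, P i ⊆ t.edges) → 0 < a → f P a = g P a) : run ψ q v N t f = run ψ q v N t g := by
  exact le_antisymm (run_mono ψ hq hv hN t f g fun P a hP ha => (h P a hP ha).le)
    (run_mono ψ hq hv hN t g f fun P a hP ha => (h P a hP ha).ge)

theorem run_one (ψ : E → V × V) {q v : ℝ} (hq : 0 < q) (hv : 0 < v) {N : ℕ} (hN : 0 < N) (t : ETree E) :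
    run ψ q v N t (fun _ _ => 1) = 1 := by
  classical
  have hne : Nonempty (Fin N × Fin N) := ⟨(⟨0, hN⟩, ⟨0, hN⟩)⟩
  induction t with
  | nil => simp only [run]
  | leaf e =>
    simp only [run]
    have hw : ∀ b : Bool, 0 < (if b then v * q ^ kk ψ univ else q ^ kk ψ (univ \ {e}) : ℝ) := by
      intro b
      cases b
      · simpa using pow_pos hq (kk ψ (univ \ {e}))
      · simpa using mul_pos hv (pow_pos hq (kk ψ univ))
    exact draw_one' N _ _ (Finset.sum_pos (fun (b : Bool) _ => hw b) Finset.univ_nonempty)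
  | node l r ihl ihr =>
    simp only [run]
    refine (run_congr ψ hq hv hN l _ (fun _ _ => 1) fun P a hP ha => ?_).trans ihl
    refine (run_congr ψ hq hv hN r _ (fun _ _ => 1) fun R b hR hb => ?_).trans ihr
    exact draw_one' N _ _ (Finset.sum_pos (fun (i : Fin N × Fin N) _ => wpos ψ hq hN _ _ P R ha hb i) Finset.univ_nonempty)

private theorem draw_add' {ι : Type} [Fintype ι] (N : ℕ) (a : ι → Finset E) (w : ι → ℝ)
    (f g : (Fin N → Finset E) → ℝ → ℝ) :
    draw N a w (fun P m => f P m + g P m) = draw N a w f + draw N a w g := by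
  unfold draw
  rw [← Finset.sum_add_distrib]
  exact Finset.sum_congr rfl fun s _ => mul_add _ _ _

private theorem draw_mul' {ι : Type} [Fintype ι] (N : ℕ) (a : ι → Finset E) (w : ι → ℝ) (c : ℝ)
    (f : (Fin N → Finset E) → ℝ → ℝ) :
    draw N a w (fun P m => c * f P m) = c * draw N a w f := by
  unfold draw
  rw [Finset.mul_sum]
  exact Finset.sum_congr rfl fun s _ => by ring

theorem run_add (ψ : E → V × V) (q v : ℝ) (N : ℕ) (t : ETree E) (f g : (Fin N → Finset E) → ℝ → ℝ) :
    run ψ q v N t (fun P a => f P a + g P a) = run ψ q v N t f + run ψ q v N t g := by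
  induction t generalizing f g with
  | nil => simp only [run]
  | leaf e =>
    simp only [run]
    exact draw_add' N _ _ f g
  | node l r ihl ihr =>
    simp only [run]
    rw [← ihl]
    congr 1
    funext P a
    rw [← ihr]
    congr 1
    funext R b
    exact draw_add' N _ _ f g

theorem run_mul (ψ : E → V × V) (q v : ℝ) (N : ℕ) (t : ETree E) (c : ℝ) (f : (Fin N → Finset E) → ℝ → ℝ) :
    run ψ q v N t (fun P a => c * f P a) = c * run ψ q v N t f := by
  induction t generalizing f with
  | nil => simp only [run]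
  | leaf e =>
    simp only [run]
    exact draw_mul' N _ _ c f
  | node l r ihl ihr =>
    simp only [run]
    rw [← ihl]
    congr 1
    funext P a
    rw [← ihr]
    congr 1
    funext R b
    exact draw_mul' N _ _ c f

theorem run_sum (ψ : E → V × V) (q v : ℝ) (N : ℕ) (t : ETree E) {κ : Type} (s : Finset κ)
    (f : κ → (Fin N → Finset E) → ℝ → ℝ) :
    run ψ q v N t (fun P a => ∑ k ∈ s, f k P a) = ∑ k ∈ s, run ψ q v N t (f k) := by
  classical
  induction s using Finset.induction_on with
  | empty =>
    simp only [Finset.sum_empty]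
    have := run_mul ψ q v N t 0 (fun _ _ => 0)
    simpa using this
  | insert k s hk ih =>
    simp only [Finset.sum_insert hk]
    rw [← ih]
    exact run_add ψ q v N t (f k) (fun P a => ∑ k ∈ s, f k P a)

end Pool.Agent.Work.MP_63853a_lc.Tr
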