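import Pool.Agent.Work.MP_63853a_lc.Tr.Draw
import Pool.Agent.Work.MP_63853a_lc.Tr.Run
import Pool.Agent.Work.MP_63853a_lc.Tr.Phi

set_option autoImplicit false

/-!
# Snd (size M-L): the second moment

Induction on `t`, generalizing `B`, `B'`. Write `M_t B P a = a / N * ∑ i, FF ψ q t.edges B (P i)`.
`nil`: `M = q ^ kk B` exactly, `Phi_nil`, and `1 ≤ (1 + Q / N) ^ 1`. `leaf e`: `draw_snd` (with `FF_nonneg`, `hosc` for
`S = {e}`) and `draw`'s expectations as in `Fst`: `∑ b, w b * FF .. = Phi ψ q v {e} B`.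
`node l r` (`S = l.edges ∪ r.edges`): for admissible `P`, `a`, `R`, `b` by `draw_snd` the draw is at most
`(1 + Q / N) * X B * X B'` with `X B = ∑ i, weight * FF ψ q S B (P i.1 ∪ R i.2)`, and by `FF_join` (mirrored, as in `Fst`)
`X B = a / N * ∑ i, g i * M_r (B ∪ P i) R b`, `g i = 1 / q ^ kk (P i ∪ (univ \ l.edges))`. So `X B * X B'` is the sum over
`i`, `i'` of `(a / N) ^ 2 * g i * g i' * (M_r (B ∪ P i) * M_r (B' ∪ P i'))`; by the induction hypothesis for `r` (`run_sum`,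
`run_mul`) its inner run is at most `(1 + Q / N) ^ r.size * Y B * Y B'` with
`Y B = a / N * ∑ i, g i * Phi ψ q v r.edges (B ∪ P i) = ∑ A ∈ r.edges.powerset, v ^ A.card * M_l (B ∪ A) P a` (`FF_swap`).
Then `Y B * Y B' = ∑ A, ∑ A', v ^ A.card * v ^ A'.card * (M_l (B ∪ A) * M_l (B' ∪ A'))`, apply the induction hypothesis for
`l` and `Phi_union`; the exponents add up to `l.size + r.size + 1`. Use `run_mono` to pass to bounds (nonnegative
coefficients), `Disjoint (B ∪ P i) r.edges` because `P i ⊆ l.edges`.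
-/

namespace Pool.Agent.Work.MP_63853a_lc.Tr

open Finset Pool.Agent.Work.MP_63853a_lc

variable {V E : Type} [Fintype E]

open Classical in
private theorem join2 (ψ : E → V × V) {q : ℝ} (hq : 0 < q) (S₁ S₂ B A₁ A₂ : Finset E) :
    q ^ kk ψ (A₁ ∪ A₂ ∪ (univ \ (S₁ ∪ S₂))) /
        (q ^ kk ψ (A₁ ∪ (univ \ S₁)) * q ^ kk ψ (A₂ ∪ (univ \ S₂))) * FF ψ q (S₁ ∪ S₂) B (A₁ ∪ A₂) =
      (1 / q ^ kk ψ (A₁ ∪ (univ \ S₁))) * FF ψ q S₂ (B ∪ A₁) A₂ := by
  have h := FF_join ψ hq S₂ S₁ B A₂ A₁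
  rw [union_comm A₂ A₁, union_comm S₂ S₁, mul_comm (q ^ kk ψ (A₂ ∪ (univ \ S₂)))] at h
  rw [h, mul_comm]

open Classical in
private theorem nodeX (ψ : E → V × V) {q : ℝ} (hq : 0 < q) {N : ℕ} (S₁ S₂ B : Finset E)
    (P R : Fin N → Finset E) (a b : ℝ) :
    ∑ i : Fin N × Fin N, a * b / N ^ 2 * (q ^ kk ψ (P i.1 ∪ R i.2 ∪ (univ \ (S₁ ∪ S₂))) /
        (q ^ kk ψ (P i.1 ∪ (univ \ S₁)) * q ^ kk ψ (R i.2 ∪ (univ \ S₂)))) *
          FF ψ q (S₁ ∪ S₂) B (P i.1 ∪ R i.2) =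
      ∑ i, (a / N * (1 / q ^ kk ψ (P i ∪ (univ \ S₁)))) * (b / N * ∑ j, FF ψ q S₂ (B ∪ P i) (R j)) := by
  rw [Fintype.sum_prod_type]
  refine Finset.sum_congr rfl fun i _ => ?_
  rw [Finset.mul_sum, Finset.mul_sum]
  refine Finset.sum_congr rfl fun j _ => ?_
  rw [mul_assoc, join2 ψ hq]
  ring

open Classical in
private theorem swapX (ψ : E → V × V) (q v : ℝ) {N : ℕ} (S₁ S₂ B : Finset E) (P : Fin N → Finset E) (a : ℝ) :
    ∑ i, (a / N * (1 / q ^ kk ψ (P i ∪ (univ \ S₁)))) * Phi ψ q v S₂ (B ∪ P i) =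
      ∑ A ∈ S₂.powerset, v ^ A.card * (a / N * ∑ i, FF ψ q S₁ (B ∪ A) (P i)) := by
  have h : ∀ i, (a / N * (1 / q ^ kk ψ (P i ∪ (univ \ S₁)))) * Phi ψ q v S₂ (B ∪ P i) =
      ∑ A ∈ S₂.powerset, a / N * (v ^ A.card * FF ψ q S₁ (B ∪ A) (P i)) := by
    intro i
    rw [mul_assoc, mul_comm (1 / q ^ kk ψ (P i ∪ (univ \ S₁))), FF_swap ψ q v S₂ S₁ B (P i), Finset.mul_sum]
  rw [Finset.sum_congr rfl fun i _ => h i, Finset.sum_comm]
  refine Finset.sum_congr rfl fun A _ => ?_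
  rw [← Finset.mul_sum, ← Finset.mul_sum]
  ring

private theorem bil (ψ : E → V × V) (q v : ℝ) (N : ℕ) (t : ETree E) {κ₁ κ₂ : Type} (s₁ : Finset κ₁) (s₂ : Finset κ₂)
    (c : κ₁ → ℝ) (d : κ₂ → ℝ) (X : κ₁ → (Fin N → Finset E) → ℝ → ℝ) (Y : κ₂ → (Fin N → Finset E) → ℝ → ℝ)
    (x : κ₁ → ℝ) (y : κ₂ → ℝ) (K : ℝ) (hc : ∀ i ∈ s₁, 0 ≤ c i) (hd : ∀ j ∈ s₂, 0 ≤ d j)
    (h : ∀ i ∈ s₁, ∀ j ∈ s₂, run ψ q v N t (fun P a => X i P a * Y j P a) ≤ K * (x i * y j)) :
    run ψ q v N t (fun P a => (∑ i ∈ s₁, c i * X i P a) * ∑ j ∈ s₂, d j * Y j P a) ≤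
      K * ((∑ i ∈ s₁, c i * x i) * ∑ j ∈ s₂, d j * y j) := by
  have e1 : (fun (P : Fin N → Finset E) (a : ℝ) => (∑ i ∈ s₁, c i * X i P a) * ∑ j ∈ s₂, d j * Y j P a) =
      fun P a => ∑ i ∈ s₁, ∑ j ∈ s₂, c i * d j * (X i P a * Y j P a) := by
    funext P a
    rw [Finset.sum_mul_sum]
    refine Finset.sum_congr rfl fun i _ => Finset.sum_congr rfl fun j _ => ?_
    ring
  rw [e1, run_sum, Finset.sum_mul_sum, Finset.mul_sum]
  refine Finset.sum_le_sum fun i hi => ?_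
  rw [run_sum, Finset.mul_sum]
  refine Finset.sum_le_sum fun j hj => ?_
  rw [run_mul]
  calc c i * d j * run ψ q v N t (fun P a => X i P a * Y j P a) ≤ c i * d j * (K * (x i * y j)) :=
        mul_le_mul_of_nonneg_left (h i hi j hj) (mul_nonneg (hc i hi) (hd j hj))
    _ = K * (c i * x i * (d j * y j)) := by ring

theorem run_snd (ψ : E → V × V) {q v : ℝ} (hq : 0 < q) (hv : 0 < v) {N : ℕ} (hN : 0 < N) (Q : ℝ) (hQ : 0 ≤ Q)
    (t : ETree E) (ht : t.Nodup)
    (hosc : ∀ S ∈ t.sets, ∀ B A A' : Finset E, Disjoint B S → A ⊆ S → A' ⊆ S → FF ψ q S B A ≤ Q * FF ψ q S B A')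
    (B B' : Finset E) (hB : Disjoint B t.edges) (hB' : Disjoint B' t.edges) :
    run ψ q v N t (fun P a =>
        (a / N * ∑ i, FF ψ q t.edges B (P i)) * (a / N * ∑ i, FF ψ q t.edges B' (P i))) ≤
      (1 + Q / N) ^ t.size * (Phi ψ q v t.edges B * Phi ψ q v t.edges B') := by
  classical
  have hNr : (0 : ℝ) < N := Nat.cast_pos.2 hN
  have hK : 0 ≤ 1 + Q / N := by positivity
  induction t generalizing B B' with
  | nil =>
    simp only [run, ETree.edges, ETree.size]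
    have h0 : ∀ C : Finset E, q ^ kk ψ univ / (N : ℝ) * ∑ i : Fin N, FF ψ q ∅ C ∅ = Phi ψ q v ∅ C := by
      intro C
      rw [Finset.sum_const, Finset.card_univ, Fintype.card_fin, nsmul_eq_mul, Phi_nil]
      simp only [FF, Finset.empty_union, Finset.sdiff_empty]
      have : q ^ kk ψ univ ≠ 0 := (pow_pos hq _).ne'
      field_simp
    rw [h0, h0, pow_one]
    have h1 := Phi_nonneg ψ hq hv (∅ : Finset E) B
    have h2 := Phi_nonneg ψ hq hv (∅ : Finset E) B'
    have h3 : 0 ≤ Q / N := by positivity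
    nlinarith [mul_pos h1 h2]
  | leaf e =>
    simp only [run, ETree.edges, ETree.size]
    have h1 : 0 < q ^ kk ψ univ := pow_pos hq _
    have h2 : 0 < q ^ kk ψ (univ \ {e}) := pow_pos hq _
    have hw : ∀ b : Bool, 0 < (if b then v * q ^ kk ψ univ else q ^ kk ψ (univ \ {e}) : ℝ) := by
      intro b
      cases b
      · simpa using h2
      · simpa using mul_pos hv h1
    have hsub : ∀ b : Bool, (if b then {e} else ∅ : Finset E) ⊆ {e} := by
      intro b
      cases b <;> simp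
    have hphi : ∀ C : Finset E, ∑ b : Bool, (if b then v * q ^ kk ψ univ else q ^ kk ψ (univ \ {e}) : ℝ) *
        FF ψ q {e} C (if b then {e} else ∅) = Phi ψ q v {e} C := by
      intro C
      rw [Fintype.sum_bool, Phi_leaf]
      simp only [if_true, Bool.false_eq_true, if_false, FF, Finset.empty_union]
      have h3 : ({e} : Finset E) ∪ (univ \ {e}) = univ := Finset.union_sdiff_of_subset (Finset.subset_univ _)
      rw [h3]
      field_simp
      ring
    have h4 := draw_snd (E := E) N hN (fun b : Bool => if b then {e} else ∅)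
      (fun b => if b then v * q ^ kk ψ univ else q ^ kk ψ (univ \ {e})) (fun b => (hw b).le)
      (Finset.sum_pos (fun b _ => hw b) Finset.univ_nonempty) (FF ψ q {e} B) (FF ψ q {e} B')
      (fun b => FF_nonneg ψ hq _ _ _) (fun b => FF_nonneg ψ hq _ _ _) Q hQ
      (fun i j => hosc {e} (by simp [ETree.sets]) B _ _ hB (hsub i) (hsub j))
    rw [hphi, hphi] at h4
    rw [pow_one]
    exact h4
  | node l r ihl ihr =>
    obtain ⟨hd, hl, hr⟩ := ht
    simp only [ETree.edges] at hB hB' ⊢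
    rw [Finset.disjoint_union_right] at hB hB'
    have hol : ∀ S ∈ l.sets, ∀ B A A' : Finset E, Disjoint B S → A ⊆ S → A' ⊆ S →
        FF ψ q S B A ≤ Q * FF ψ q S B A' := fun S hS => hosc S (by
      simp only [ETree.sets]
      exact Set.mem_insert_of_mem _ (Or.inl hS))
    have hor : ∀ S ∈ r.sets, ∀ B A A' : Finset E, Disjoint B S → A ⊆ S → A' ⊆ S →
        FF ψ q S B A ≤ Q * FF ψ q S B A' := fun S hS => hosc S (by
      simp only [ETree.sets]
      exact Set.mem_insert_of_mem _ (Or.inr hS))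
    have hot := hosc (l.edges ∪ r.edges) (by
      simp only [ETree.sets]
      exact Set.mem_insert _ _)
    have e1 : ∀ (P : Fin N → Finset E) (a : ℝ), (∀ i, P i ⊆ l.edges) → 0 < a →
        (run ψ q v N r fun R b => draw N (fun i : Fin N × Fin N => P i.1 ∪ R i.2)
          (fun i => a * b / N ^ 2 * (q ^ kk ψ (P i.1 ∪ R i.2 ∪ (univ \ (l.edges ∪ r.edges))) /
            (q ^ kk ψ (P i.1 ∪ (univ \ l.edges)) * q ^ kk ψ (R i.2 ∪ (univ \ r.edges)))))
          (fun P' m => (m / N * ∑ i, FF ψ q (l.edges ∪ r.edges) B (P' i)) *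
            (m / N * ∑ i, FF ψ q (l.edges ∪ r.edges) B' (P' i)))) ≤
        (1 + Q / N) ^ (r.size + 1) *
          ((∑ A ∈ r.edges.powerset, v ^ A.card * (a / N * ∑ i, FF ψ q l.edges (B ∪ A) (P i))) *
          ∑ A ∈ r.edges.powerset, v ^ A.card * (a / N * ∑ i, FF ψ q l.edges (B' ∪ A) (P i))) := by
      intro P a hP ha
      have e2 : (run ψ q v N r fun R b => draw N (fun i : Fin N × Fin N => P i.1 ∪ R i.2)
          (fun i => a * b / N ^ 2 * (q ^ kk ψ (P i.1 ∪ R i.2 ∪ (univ \ (l.edges ∪ r.edges))) /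
            (q ^ kk ψ (P i.1 ∪ (univ \ l.edges)) * q ^ kk ψ (R i.2 ∪ (univ \ r.edges)))))
          (fun P' m => (m / N * ∑ i, FF ψ q (l.edges ∪ r.edges) B (P' i)) *
            (m / N * ∑ i, FF ψ q (l.edges ∪ r.edges) B' (P' i)))) ≤
          run ψ q v N r fun R b => (1 + Q / N) *
            ((∑ i, (a / N * (1 / q ^ kk ψ (P i ∪ (univ \ l.edges)))) *
              (b / N * ∑ j, FF ψ q r.edges (B ∪ P i) (R j))) *
            ∑ i, (a / N * (1 / q ^ kk ψ (P i ∪ (univ \ l.edges)))) *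
              (b / N * ∑ j, FF ψ q r.edges (B' ∪ P i) (R j))) := by
        refine run_mono ψ hq hv hN r _ _ fun R b hR hb => ?_
        have hw : ∀ i : Fin N × Fin N, 0 < a * b / N ^ 2 *
            (q ^ kk ψ (P i.1 ∪ R i.2 ∪ (univ \ (l.edges ∪ r.edges))) /
            (q ^ kk ψ (P i.1 ∪ (univ \ l.edges)) * q ^ kk ψ (R i.2 ∪ (univ \ r.edges)))) := by
          intro i
          positivity
        have : Nonempty (Fin N × Fin N) := ⟨(⟨0, hN⟩, ⟨0, hN⟩)⟩
        have hsub : ∀ i : Fin N × Fin N, P i.1 ∪ R i.2 ⊆ l.edges ∪ r.edges := fun i =>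
          Finset.union_subset_union (hP i.1) (hR i.2)
        have h4 := draw_snd (E := E) N hN (fun i : Fin N × Fin N => P i.1 ∪ R i.2) _ (fun i => (hw i).le)
          (Finset.sum_pos (fun i _ => hw i) Finset.univ_nonempty) (FF ψ q (l.edges ∪ r.edges) B)
          (FF ψ q (l.edges ∪ r.edges) B')
          (fun b => FF_nonneg ψ hq _ _ _) (fun b => FF_nonneg ψ hq _ _ _) Q hQ
          (fun i j => hot B _ _ (Finset.disjoint_union_right.2 hB) (hsub i) (hsub j))
        rw [nodeX ψ hq, nodeX ψ hq] at h4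
        exact h4
      refine e2.trans ?_
      rw [run_mul, pow_succ, mul_comm _ (1 + Q / N), mul_assoc]
      refine mul_le_mul_of_nonneg_left ?_ hK
      rw [← swapX, ← swapX]
      have hg : ∀ i ∈ (Finset.univ : Finset (Fin N)), 0 ≤ a / N * (1 / q ^ kk ψ (P i ∪ (univ \ l.edges))) := by
        intro i _
        positivity
      refine bil ψ q v N r Finset.univ Finset.univ _ _
        (fun i (R : Fin N → Finset E) b => b / N * ∑ j, FF ψ q r.edges (B ∪ P i) (R j))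
        (fun i (R : Fin N → Finset E) b => b / N * ∑ j, FF ψ q r.edges (B' ∪ P i) (R j))
        (fun i => Phi ψ q v r.edges (B ∪ P i)) (fun i => Phi ψ q v r.edges (B' ∪ P i)) _ hg hg ?_
      intro i _ j _
      refine ihr hr hor _ _ ?_ ?_
      · rw [Finset.disjoint_union_left]
        exact ⟨hB.2, Finset.disjoint_of_subset_left (hP i) hd⟩
      · rw [Finset.disjoint_union_left]
        exact ⟨hB'.2, Finset.disjoint_of_subset_left (hP j) hd⟩
    change run ψ q v N l (fun P a => run ψ q v N r fun R b => draw N (fun i : Fin N × Fin N => P i.1 ∪ R i.2)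
          (fun i => a * b / N ^ 2 * (q ^ kk ψ (P i.1 ∪ R i.2 ∪ (univ \ (l.edges ∪ r.edges))) /
            (q ^ kk ψ (P i.1 ∪ (univ \ l.edges)) * q ^ kk ψ (R i.2 ∪ (univ \ r.edges)))))
          (fun P' m => (m / N * ∑ i, FF ψ q (l.edges ∪ r.edges) B (P' i)) *
            (m / N * ∑ i, FF ψ q (l.edges ∪ r.edges) B' (P' i)))) ≤ _
    refine (run_mono ψ hq hv hN l _ _ e1).trans ?_
    rw [run_mul]
    have e5 : ETree.size (ETree.node l r) = (r.size + 1) + l.size := by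
      simp only [ETree.size]
      ring
    rw [e5, pow_add _ (r.size + 1) l.size, mul_assoc]
    refine mul_le_mul_of_nonneg_left ?_ (pow_nonneg hK _)
    have e6 : ∀ C : Finset E, ∑ A ∈ r.edges.powerset, v ^ A.card * Phi ψ q v l.edges (C ∪ A) =
        Phi ψ q v (l.edges ∪ r.edges) C := by
      intro C
      rw [Phi_union ψ q v hd.symm, union_comm]
    rw [← e6, ← e6]
    have hv' : ∀ A ∈ r.edges.powerset, 0 ≤ v ^ A.card := fun A _ => (pow_pos hv _).le
    refine bil ψ q v N l r.edges.powerset r.edges.powerset (fun A => v ^ A.card) (fun A => v ^ A.card)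
      (fun A (P : Fin N → Finset E) a => a / N * ∑ i, FF ψ q l.edges (B ∪ A) (P i))
      (fun A (P : Fin N → Finset E) a => a / N * ∑ i, FF ψ q l.edges (B' ∪ A) (P i))
      (fun A => Phi ψ q v l.edges (B ∪ A)) (fun A => Phi ψ q v l.edges (B' ∪ A)) _ hv' hv' ?_
    intro A hA A' hA'
    refine ihl hl hol _ _ ?_ ?_
    · rw [Finset.disjoint_union_left]
      exact ⟨hB.1, Finset.disjoint_of_subset_left (Finset.mem_powerset.1 hA) hd.symm⟩
    · rw [Finset.disjoint_union_left]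
      exact ⟨hB'.1, Finset.disjoint_of_subset_left (Finset.mem_powerset.1 hA') hd.symm⟩

end Pool.Agent.Work.MP_63853a_lc.Tr
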