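import Pool.Agent.Work.MP_63853a_lc.Tr.Fst
import Pool.Agent.Work.MP_63853a_lc.Tr.Snd

set_option autoImplicit false

/-!
# Chb (size M): the inequality of Chebyshev for the sampler

Let `S = t.edges`, `B = univ \ S`, `Z = Phi ψ q v S B > 0`. By `FF_top`, `a / N * ∑ i, FF ψ q S B (P i) = a`, so `run_fst`,
`run_snd` (with `run_congr` / `simp`) give `run (a) = Z`, `run (a * a) ≤ (1 + Q / N) ^ size * Z ^ 2 ≤ (1 + δ ^ 2 / 4) * Z ^ 2`,
hence `run ((a - Z) ^ 2) = run (a * a) - 2 Z run (a) + Z ^ 2 ≤ δ ^ 2 / 4 * Z ^ 2` (`run_add`, `run_mul`, `run_one`).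
Pointwise `1 - (a - Z) ^ 2 / (δ * Z) ^ 2 ≤ if |a - Z| ≤ δ * Z then 1 else 0`; integrate with `run_mono`.
-/

namespace Pool.Agent.Work.MP_63853a_lc.Tr

open Finset Pool.Agent.Work.MP_63853a_lc

variable {V E : Type} [Fintype E]

open Classical in
theorem run_cheb (ψ : E → V × V) {q v : ℝ} (hq : 0 < q) (hv : 0 < v) {N : ℕ} (hN : 0 < N) (Q : ℝ) (hQ : 0 ≤ Q)
    (t : ETree E) (ht : t.Nodup)
    (hosc : ∀ S ∈ t.sets, ∀ B A A' : Finset E, Disjoint B S → A ⊆ S → A' ⊆ S → FF ψ q S B A ≤ Q * FF ψ q S B A')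
    (δ : ℝ) (hδ : 0 < δ) (hsize : (1 + Q / N) ^ t.size ≤ 1 + δ ^ 2 / 4) :
    3 / 4 ≤ run ψ q v N t (fun _ m =>
      if |m - Phi ψ q v t.edges (univ \ t.edges)| ≤ δ * Phi ψ q v t.edges (univ \ t.edges) then 1 else 0) := by
  have hNr : (0 : ℝ) < N := Nat.cast_pos.2 hN
  set S := t.edges with hS
  set Z := Phi ψ q v S (univ \ S) with hZ
  have hZ0 : 0 < Z := Phi_nonneg ψ hq hv S _
  have hdis : Disjoint (univ \ S) S := Finset.sdiff_disjoint
  have hF : ∀ (P : Fin N → Finset E) (a : ℝ), a / N * ∑ i, FF ψ q S (univ \ S) (P i) = a := by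
    intro P a
    rw [Finset.sum_congr rfl fun i _ => FF_top ψ hq S (P i), Finset.sum_const, Finset.card_univ, Fintype.card_fin,
      nsmul_eq_mul, mul_one]
    field_simp
  have h1 : run ψ q v N t (fun _ a => a) = Z := by
    have := run_fst ψ hq hv hN t ht (univ \ S) hdis
    simp only [← hS, hF] at this
    exact this
  have h2 : run ψ q v N t (fun _ a => a * a) ≤ (1 + δ ^ 2 / 4) * (Z * Z) := by
    have := run_snd ψ hq hv hN Q hQ t ht hosc (univ \ S) (univ \ S) hdis hdis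
    simp only [← hS, hF] at this
    exact this.trans (mul_le_mul_of_nonneg_right hsize (mul_pos hZ0 hZ0).le)
  have h3 := run_one ψ hq hv hN t
  have h4 : run ψ q v N t (fun _ a => 1 + -(1 / (δ * Z) ^ 2) * ((a * a) + ((-2 * Z) * a + Z ^ 2 * 1))) =
      1 + -(1 / (δ * Z) ^ 2) * (run ψ q v N t (fun _ a => a * a) + ((-2 * Z) * Z + Z ^ 2 * 1)) := by
    rw [run_add ψ q v N t (fun _ _ => 1) (fun _ a => -(1 / (δ * Z) ^ 2) * ((a * a) + ((-2 * Z) * a + Z ^ 2 * 1))), h3,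
      run_mul ψ q v N t _ (fun _ a => (a * a) + ((-2 * Z) * a + Z ^ 2 * 1)),
      run_add ψ q v N t (fun _ a => a * a) (fun _ a => (-2 * Z) * a + Z ^ 2 * 1),
      run_add ψ q v N t (fun _ a => (-2 * Z) * a) (fun _ _ => Z ^ 2 * 1),
      run_mul ψ q v N t (-2 * Z) (fun _ a => a), h1, run_mul ψ q v N t (Z ^ 2) (fun _ _ => 1), h3]
  have hD : 0 < (δ * Z) ^ 2 := by positivity
  have h5 : run ψ q v N t (fun _ a => 1 + -(1 / (δ * Z) ^ 2) * ((a * a) + ((-2 * Z) * a + Z ^ 2 * 1))) ≤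
      run ψ q v N t (fun _ m => if |m - Z| ≤ δ * Z then 1 else 0) := by
    refine run_mono ψ hq hv hN t _ _ fun P a _ _ => ?_
    have e1 : (a * a) + ((-2 * Z) * a + Z ^ 2 * 1) = (a - Z) ^ 2 := by ring
    rw [e1]
    split_ifs with hc
    · have : 0 ≤ 1 / (δ * Z) ^ 2 * (a - Z) ^ 2 := by positivity
      linarith
    · rw [not_le] at hc
      have h6 : (δ * Z) ^ 2 ≤ (a - Z) ^ 2 := by
        rw [← sq_abs (a - Z)]
        exact pow_le_pow_left₀ (by positivity) hc.le 2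
      have h7 : 1 ≤ 1 / (δ * Z) ^ 2 * (a - Z) ^ 2 := by
        rw [one_div, inv_mul_eq_div, one_le_div hD]
        exact h6
      linarith
  refine le_trans ?_ h5
  rw [h4]
  have h8 : run ψ q v N t (fun _ a => a * a) + ((-2 * Z) * Z + Z ^ 2 * 1) ≤ 1 / 4 * (δ * Z) ^ 2 := by
    nlinarith
  have h9 : 1 / (δ * Z) ^ 2 * (run ψ q v N t (fun _ a => a * a) + ((-2 * Z) * Z + Z ^ 2 * 1)) ≤ 1 / 4 := by
    rw [one_div, inv_mul_eq_div, div_le_iff₀ hD]
    exact h8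
  linarith

end Pool.Agent.Work.MP_63853a_lc.Tr
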