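import Pool.Agent.Work.MP_63853a_lc.Tr.Har
import Pool.Agent.Work.MP_63853a_lc.Tr.Sub
import Pool.Agent.Work.MP_63853a_lc.KBasic

set_option autoImplicit false

/-!
# Cut (size M): the error of making an edge a loop

`q = (x-1)(y-1)`, `v = y-1`, `y = 1 + v`, `x / (y (x-1)) = (1 + v/q) / (1 + v)`. Let `ψ' = loopy ψ e`. Sets `A` not containing
`e`: `kk ψ' A = kk ψ A`, `kk ψ' (insert e A) = kk ψ A` (a loop never crosses; for `A` without `e` the maps `ψ`, `ψ'` agree on
`A`), and `kk ψ (insert e A) = kk ψ A - 1` or `= kk ψ A` if `c A = 0` or `1`, where `c A = 1` iff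
`cls ψ A (ψ e).1 = cls ψ A (ψ e).2`. With `W = ∑ A without e, v ^ |A| * q ^ kk ψ A` and `C = ∑ A without e, v ^ |A| * q ^ kk ψ A * c A`:
`zz ψ' = (1 + v) W`, `zz ψ = (1 + v/q) W + (v - v/q) C`. So the first claim. For the second it is enough that
`C ≤ conn * W`, because `(v - v/q) / (1 + v/q) ≤ q - 1`. With `p = 1 - 1/y = v / (1 + v)`: `v ^ |A| = (1+v)^n * wt p A`,
and for functions `h (A.erase e)` the sum over all `A` is `(1 + v)` times the sum over the `A` without `e`. So
`∑ all A, wt p A * q ^ kk ψ (A.erase e) * c (A.erase e) ≤ (∑ wt p A * q ^ kk ψ (A.erase e)) * conn` is `harris` with the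
increasing function `c (A.erase e)` (`cls_mono`) and the decreasing function `q ^ kk ψ (A.erase e)` (`kk_anti`, `1 ≤ q`).
-/

namespace Pool.Agent.Work.MP_63853a_lc.Tr

open Finset Pool.Agent.Work.MP_63853a_lc

variable {V E : Type} [Fintype V] [Fintype E]

private theorem alg2 {y : ℝ} (hy : 1 < y) {n m : ℕ} (h : m + 1 ≤ n) :
    (y - 1) ^ m = y ^ (n - 1) * ((1 - 1 / y) ^ m * (1 - (1 - 1 / y)) ^ (n - m) +
      (1 - 1 / y) ^ (m + 1) * (1 - (1 - 1 / y)) ^ (n - (m + 1))) := by
  obtain ⟨r, rfl⟩ := Nat.exists_eq_add_of_le h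
  have hy0 : 0 < y := by linarith
  have e1 : m + 1 + r - 1 = m + r := by omega
  have e2 : m + 1 + r - m = r + 1 := by omega
  have e3 : m + 1 + r - (m + 1) = r := by omega
  rw [e1, e2, e3]
  have e4 : (1 : ℝ) - 1 / y = (y - 1) / y := by field_simp
  have e5 : (1 : ℝ) - (1 - 1 / y) = 1 / y := by ring
  rw [e5, e4, pow_succ (1 / y), pow_succ ((y - 1) / y)]
  have e6 : y ^ r * (1 / y) ^ r = 1 := by
    rw [← mul_pow, mul_one_div, div_self hy0.ne', one_pow]
  have e7 : y ^ m * ((y - 1) / y) ^ m = (y - 1) ^ m := by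
    rw [← mul_pow]
    congr 1
    field_simp
  have e8 : 1 / y + (y - 1) / y = 1 := by
    field_simp
    ring
  calc (y - 1) ^ m = (y ^ m * ((y - 1) / y) ^ m) * (y ^ r * (1 / y) ^ r) * (1 / y + (y - 1) / y) := by
        rw [e7, e6, e8]
        ring
    _ = _ := by
        rw [pow_add]
        ring

open Classical in
private theorem split (e : E) (F : Finset E → ℝ) :
    ∑ A : Finset E, F A = ∑ B ∈ (Finset.univ.erase e).powerset, (F B + F (insert e B)) := by
  rw [Finset.sum_add_distrib, ← Finset.sum_powerset_insert (Finset.notMem_erase e _) F,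
    Finset.insert_erase (Finset.mem_univ e), Finset.powerset_univ]

open Classical in
private theorem kk_loopy (ψ : E → V × V) (e : E) {B : Finset E} (he : e ∉ B) : kk (loopy ψ e) B = kk ψ B := by
  unfold kk
  have : (fun u v : V => ∃ f ∈ B, loopy ψ e f = (u, v)) = fun u v : V => ∃ f ∈ B, ψ f = (u, v) := by
    funext u v
    refine propext (exists_congr fun f => ?_)
    constructor
    · rintro ⟨hf, h⟩
      refine ⟨hf, ?_⟩
      have hne : f ≠ e := fun h' => he (h' ▸ hf)
      simpa [loopy, Function.update_of_ne hne] using h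
    · rintro ⟨hf, h⟩
      refine ⟨hf, ?_⟩
      have hne : f ≠ e := fun h' => he (h' ▸ hf)
      simpa [loopy, Function.update_of_ne hne] using h
  rw [this]

open Classical in
private theorem kk_loopy_insert (ψ : E → V × V) (e : E) {B : Finset E} (he : e ∉ B) :
    kk (loopy ψ e) (insert e B) = kk ψ B := by
  rw [← kk_loopy ψ e he]
  refine kk_insert_eq _ ?_
  intro h
  apply h
  simp [loopy]

theorem cut_step (ψ : E → V × V) {x y : ℝ} (hx : 1 < x) (hy : 1 < y) (hq : 1 ≤ (x - 1) * (y - 1)) (e : E) :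
    x / (y * (x - 1)) * zz (loopy ψ e) ((x - 1) * (y - 1)) (fun _ => y - 1) ≤
      zz ψ ((x - 1) * (y - 1)) (fun _ => y - 1) ∧
    zz ψ ((x - 1) * (y - 1)) (fun _ => y - 1) ≤
      (1 + ((x - 1) * (y - 1) - 1) * conn ψ (1 - 1 / y) e) *
        (x / (y * (x - 1)) * zz (loopy ψ e) ((x - 1) * (y - 1)) (fun _ => y - 1)) := by
  classical
  have hx0 : 0 < x - 1 := by linarith
  have hv0 : 0 < y - 1 := by linarith
  have hy0 : 0 < y := by linarith
  obtain ⟨q, hqd⟩ : ∃ q, q = (x - 1) * (y - 1) := ⟨_, rfl⟩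
  obtain ⟨v, hvd⟩ : ∃ v, v = y - 1 := ⟨_, rfl⟩
  rw [← hqd] at hq ⊢
  rw [← hvd] at hv0 ⊢
  have hq0 : 0 < q := by linarith
  set c : Finset E → ℝ := fun A => if cls ψ A (ψ e).1 = cls ψ A (ψ e).2 then 1 else 0 with hc
  have hc0 : ∀ A, 0 ≤ c A := fun A => by
    simp only [hc]
    split_ifs <;> norm_num
  set PS := (Finset.univ.erase e).powerset with hPS
  have hmem : ∀ B ∈ PS, e ∉ B := fun B hB he =>
    Finset.notMem_erase e _ (Finset.mem_powerset.1 hB he)
  set W := ∑ B ∈ PS, v ^ B.card * q ^ kk ψ B with hW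
  set C := ∑ B ∈ PS, v ^ B.card * (c B * q ^ kk ψ B) with hC
  have hz : ∀ χ : E → V × V, zz χ q (fun _ => v) = ∑ A : Finset E, q ^ kk χ A * v ^ A.card := by
    intro χ
    unfold zz
    exact Finset.sum_congr rfl fun A _ => by rw [Finset.prod_const]
  have hZ' : zz (loopy ψ e) q (fun _ => v) = (1 + v) * W := by
    rw [hz, split e, hW, Finset.mul_sum]
    refine Finset.sum_congr rfl fun B hB => ?_
    rw [kk_loopy ψ e (hmem B hB), kk_loopy_insert ψ e (hmem B hB), Finset.card_insert_of_notMem (hmem B hB), pow_succ]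
    ring
  have hZ : zz ψ q (fun _ => v) = (1 + v / q) * W + (v - v / q) * C := by
    rw [hz, split e, hW, hC, Finset.mul_sum, Finset.mul_sum, ← Finset.sum_add_distrib]
    refine Finset.sum_congr rfl fun B hB => ?_
    rw [Finset.card_insert_of_notMem (hmem B hB), pow_succ]
    simp only [hc]
    by_cases h1 : cls ψ B (ψ e).1 = cls ψ B (ψ e).2
    · rw [if_pos h1, kk_insert_eq ψ (fun h => h h1)]
      ring
    · rw [if_neg h1]
      have h2 := kk_insert_cross ψ (A := B) (e := e) h1
      rw [← h2, pow_succ]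
      field_simp
      ring
  have hvq : v / q = 1 / (x - 1) := by
    rw [hqd, ← hvd, div_mul_cancel_right₀ hv0.ne', one_div]
  have hfac : x / (y * (x - 1)) * ((1 + v) * W) = (1 + v / q) * W := by
    rw [hvq, hvd]
    field_simp
    ring
  have hW0 : 0 ≤ W := Finset.sum_nonneg fun B _ => by positivity
  have hC0 : 0 ≤ C := Finset.sum_nonneg fun B _ => mul_nonneg (by positivity) (mul_nonneg (hc0 B) (by positivity))
  have hvv : 0 ≤ v - v / q := by
    have : v / q ≤ v := div_le_self hv0.le hq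
    linarith
  have hq1 : 0 ≤ q - 1 := by linarith
  set p := 1 - 1 / y with hp
  have hp0 : 0 ≤ p := by
    have : 1 / y ≤ 1 := by
      rw [div_le_one hy0]
      exact hy.le
    linarith
  have hp1 : p ≤ 1 := by
    have : 0 ≤ 1 / y := by positivity
    linarith
  have hcard : ∀ B ∈ PS, B.card + 1 ≤ Fintype.card E := by
    intro B hB
    rw [← Finset.card_insert_of_notMem (hmem B hB)]
    exact Finset.card_le_univ _
  have htrans : ∀ H : Finset E → ℝ, ∑ B ∈ PS, v ^ B.card * H B =
      y ^ (Fintype.card E - 1) * ∑ A : Finset E, wt p A * H (A.erase e) := by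
    intro H
    rw [split e, Finset.mul_sum]
    refine Finset.sum_congr rfl fun B hB => ?_
    rw [Finset.erase_insert (hmem B hB), Finset.erase_eq_of_notMem (hmem B hB), ← add_mul, ← mul_assoc]
    congr 1
    simp only [wt]
    rw [Finset.card_insert_of_notMem (hmem B hB), hvd]
    exact alg2 hy (hcard B hB)
  have hharris := harris hp0 hp1 (fun A => c (A.erase e)) (fun A => q ^ kk ψ (A.erase e)) (fun A B hAB => by
      simp only [hc]
      by_cases h1 : cls ψ (A.erase e) (ψ e).1 = cls ψ (A.erase e) (ψ e).2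
      · rw [if_pos h1, if_pos (cls_mono ψ (Finset.erase_subset_erase e hAB) h1)]
      · rw [if_neg h1]
        split_ifs <;> norm_num)
    (fun A B hAB => pow_le_pow_right₀ hq (kk_anti ψ (Finset.erase_subset_erase e hAB))) (fun A => hc0 _)
  have hconn : ∑ A : Finset E, wt p A * c (A.erase e) = conn ψ p e := by
    unfold conn
    refine Finset.sum_congr rfl fun A _ => ?_
    simp only [hc]
    split_ifs <;> ring
  have hCle : C ≤ conn ψ p e * W := by
    rw [hC, hW, htrans (fun B => c B * q ^ kk ψ B), htrans (fun B => q ^ kk ψ B)]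
    rw [hconn] at hharris
    have hyn : 0 ≤ y ^ (Fintype.card E - 1) := by positivity
    calc y ^ (Fintype.card E - 1) * ∑ A : Finset E, wt p A * (c (A.erase e) * q ^ kk ψ (A.erase e))
        ≤ y ^ (Fintype.card E - 1) * (conn ψ p e * ∑ A : Finset E, wt p A * q ^ kk ψ (A.erase e)) :=
          mul_le_mul_of_nonneg_left hharris hyn
      _ = _ := by ring
  have hconn0 : 0 ≤ conn ψ p e := by
    rw [← hconn]
    exact Finset.sum_nonneg fun A _ => mul_nonneg (wt_nonneg hp0 hp1 A) (hc0 _)
  rw [hZ', hZ, hfac]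
  constructor
  · have := mul_nonneg hvv hC0
    linarith
  · have h1 := mul_le_mul_of_nonneg_left hCle hvv
    have h2 : (v - v / q) ≤ (q - 1) * (1 + v / q) := by
      have e1 : (q - 1) * (1 + v / q) = q - 1 + (v - v / q) := by
        field_simp
      rw [e1]
      linarith
    have h3 := mul_le_mul_of_nonneg_right h2 (mul_nonneg hconn0 hW0)
    nlinarith

end Pool.Agent.Work.MP_63853a_lc.Tr
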