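import Pool.Agent.Work.MP_63853a_lc.Defs

set_option autoImplicit false

/-!
# Definitions: reductions, the tree sampler, decompositions

A finite multigraph is a map `φ : E → V × V` as in `Defs`.
-/

namespace Pool.Agent.Work.MP_63853a_lc.Tr

open Finset Pool.Agent.Work.MP_63853a_lc

/-! ## Reductions -/

/-- the vertex `u` is identified with the vertex `w` (`u` is kept as an isolated vertex) -/
noncomputable def glue {V E : Type} (ψ : E → V × V) (u w : V) (e : E) : V × V := by
  classical
  exact (if (ψ e).1 = u then w else (ψ e).1, if (ψ e).2 = u then w else (ψ e).2)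

/-- the edge `e` is turned into a loop -/
noncomputable def loopy {V E : Type} (ψ : E → V × V) (e : E) : E → V × V := by
  classical
  exact Function.update ψ e ((ψ e).1, (ψ e).1)

open Classical in
/-- the probability that `u` and `w` are in different components if every edge is kept with probability `p`,
independently -/
noncomputable def sep {V E : Type} [Fintype E] (ψ : E → V × V) (p : ℝ) (u w : V) : ℝ :=
  ∑ A : Finset E, if cls ψ A u = cls ψ A w then 0 else wt p A

open Classical in
/-- the probability that the two ends of `e` are in the same component without `e` if every edge is kept with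
probability `p`, independently -/
noncomputable def conn {V E : Type} [Fintype E] (ψ : E → V × V) (p : ℝ) (e : E) : ℝ :=
  ∑ A : Finset E, if cls ψ (A.erase e) (ψ e).1 = cls ψ (A.erase e) (ψ e).2 then wt p A else 0

/-- `φ` is reduced to `ψ`, with factor `a` and error `d`: the allowed steps are the identification of two vertices
(error: the probability that they are separated if edges are kept with probability `1 / x`) and the change of an edge
into a loop (error: the probability that its ends are connected without it if edges are kept with probability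
`1 - 1 / y`) -/
inductive Red {V E : Type} [Fintype E] (x y : ℝ) (φ : E → V × V) : (E → V × V) → ℝ → ℝ → Prop
  | refl : Red x y φ φ 1 0
  | glue {ψ : E → V × V} {a d : ℝ} (u w : V) (h : Red x y φ ψ a d) (huw : u ≠ w) :
      Red x y φ (glue ψ u w) (a / ((x - 1) * (y - 1))) (d + sep ψ (1 / x) u w)
  | loop {ψ : E → V × V} {a d : ℝ} (e : E) (h : Red x y φ ψ a d) :
      Red x y φ (loopy ψ e) (a * (x / (y * (x - 1)))) (d + conn ψ (1 - 1 / y) e)

/-! ## Trees -/

/-- binary trees whose leaves are edges (or empty) -/
inductive ETree (E : Type) : Type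
  | nil : ETree E
  | leaf (e : E) : ETree E
  | node (l r : ETree E) : ETree E

open Classical in
/-- the edges at the leaves -/
noncomputable def ETree.edges {E : Type} : ETree E → Finset E
  | .nil => ∅
  | .leaf e => {e}
  | .node l r => l.edges ∪ r.edges

/-- the number of nodes -/
def ETree.size {E : Type} : ETree E → ℕ
  | .nil => 1
  | .leaf _ => 1
  | .node l r => l.size + r.size + 1

/-- no edge occurs twice -/
def ETree.Nodup {E : Type} : ETree E → Prop
  | .nil => True
  | .leaf _ => True
  | .node l r => Disjoint l.edges r.edges ∧ l.Nodup ∧ r.Nodup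

open Classical in
/-- the edge sets of the subtrees -/
noncomputable def ETree.sets {E : Type} : ETree E → Set (Finset E)
  | .nil => {∅}
  | .leaf e => {{e}}
  | .node l r => insert (l.edges ∪ r.edges) (l.sets ∪ r.sets)

open Classical in
/-- the connectivity function of the cycle matroid: `r(S) + r(E \ S) - r(E)` -/
noncomputable def lam {V E : Type} [Fintype V] [Fintype E] (ψ : E → V × V) (S : Finset E) : ℕ :=
  rk ψ S + rk ψ (univ \ S) - rk ψ univ

/-! ## The sampler -/

/-- `N` independent draws from the family `a` of edge sets, the set `a j` being drawn with probability proportional to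
`w j`: the expected value of `f P m`, where `P` are the `N` sets drawn and `m` is the total weight -/
noncomputable def draw {E ι : Type} [Fintype ι] (N : ℕ) (a : ι → Finset E) (w : ι → ℝ)
    (f : (Fin N → Finset E) → ℝ → ℝ) : ℝ :=
  ∑ s : Fin N → ι, (∏ i, w (s i) / ∑ j, w j) * f (fun i => a (s i)) (∑ j, w j)

open Classical in
/-- the tree sampler: for every subtree, with edge set `S`, it computes `N` random subsets `P i` of `S` and a total
weight `m`; for a node the sets are drawn from the `N ^ 2` unions of a set of the left subtree and a set of the right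
subtree. `run ψ q v N t f` is the expected value of `f P m` for the tree `t`. -/
noncomputable def run {V E : Type} [Fintype E] (ψ : E → V × V) (q v : ℝ) (N : ℕ) :
    ETree E → ((Fin N → Finset E) → ℝ → ℝ) → ℝ
  | .nil, f => f (fun _ => ∅) (q ^ kk ψ univ)
  | .leaf e, f => draw N (fun b : Bool => if b then {e} else ∅)
      (fun b => if b then v * q ^ kk ψ univ else q ^ kk ψ (univ \ {e})) f
  | .node l r, f => run ψ q v N l fun P a => run ψ q v N r fun R b =>
      draw N (fun i : Fin N × Fin N => P i.1 ∪ R i.2)
        (fun i => a * b / N ^ 2 * (q ^ kk ψ (P i.1 ∪ R i.2 ∪ (univ \ (l.edges ∪ r.edges))) /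
          (q ^ kk ψ (P i.1 ∪ (univ \ l.edges)) * q ^ kk ψ (R i.2 ∪ (univ \ r.edges))))) f

open Classical in
/-- the estimate of `tutte φ x y` computed from the total weight `m` -/
noncomputable def value {V E : Type} [Fintype V] [Fintype E] (φ : E → V × V) (x y a : ℝ) (t : ETree E) (m : ℝ) : ℝ :=
  a * y ^ (univ \ t.edges).card * m / ((x - 1) ^ kk φ univ * (y - 1) ^ Fintype.card V)

open Classical in
/-- the probability that the estimate computed by the tree sampler on the reduced graph `ψ` is in the interval
`[(1 - ε) T, (1 + ε) T]`, `T = tutte φ x y` -/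
noncomputable def good {V E : Type} [Fintype V] [Fintype E] (φ ψ : E → V × V) (x y a : ℝ) (t : ETree E) (ε : ℝ)
    (N : ℕ) : ℝ :=
  run ψ ((x - 1) * (y - 1)) (y - 1) N t fun _ m =>
    if |value φ x y a t m - tutte φ x y| ≤ ε * tutte φ x y then 1 else 0

/-! ## Classes of vertices -/

/-- the graph in which vertices with the same image under `c` are identified -/
def quo {V E : Type} (φ : E → V × V) (c : V → V) (e : E) : V × V := (c (φ e).1, c (φ e).2)

/-- adjacent vertices -/
def nb {V E : Type} (φ : E → V × V) (u w : V) : Prop := ∃ e, φ e = (u, w) ∨ φ e = (w, u)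

/-- the factor of the reduction of `φ` to `quo φ c` -/
noncomputable def fac {V : Type} [Fintype V] (x y : ℝ) (c : V → V) : ℝ :=
  (1 / ((x - 1) * (y - 1))) ^ (Fintype.card V - (Set.range c).ncard)

/-! ## Bounded clique-width -/

/-- binary trees whose leaves are vertices -/
inductive VTree (V : Type) : Type
  | leaf (v : V) : VTree V
  | node (l r : VTree V) : VTree V

open Classical in
/-- the vertices at the leaves -/
noncomputable def VTree.verts {V : Type} : VTree V → Finset V
  | .leaf v => {v}
  | .node l r => l.verts ∪ r.verts

/-- no vertex occurs twice -/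
def VTree.Nodup {V : Type} : VTree V → Prop
  | .leaf _ => True
  | .node l r => Disjoint l.verts r.verts ∧ l.Nodup ∧ r.Nodup

open Classical in
/-- the vertex sets of the subtrees -/
noncomputable def VTree.sets {V : Type} : VTree V → Set (Finset V)
  | .leaf v => {{v}}
  | .node l r => insert (l.verts ∪ r.verts) (l.sets ∪ r.sets)

open Classical in
/-- the neighbours of `v` outside `X` -/
noncomputable def out {V E : Type} [Fintype V] (φ : E → V × V) (X : Finset V) (v : V) : Finset V :=
  univ.filter fun w => w ∉ X ∧ nb φ v w

open Classical in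
/-- the vertices of `X` with the same neighbours outside `X` as `v` -/
noncomputable def lab {V E : Type} [Fintype V] (φ : E → V × V) (X : Finset V) (v : V) : Finset V :=
  X.filter fun u => out φ X u = out φ X v

/-- the pairs of vertices which are put into one class: for a set `X` of the tree and `v ∈ X` these are two
neighbours of `v` outside `X` if at least `κ` vertices of `X` have the same neighbours outside `X` as `v`, and two
vertices of `X` with the same neighbours outside `X` as `v` if there are at least `κ` such neighbours -/
def Gen {V E : Type} [Fintype V] (φ : E → V × V) (κ : ℕ) (T : VTree V) (u w : V) : Prop :=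
  ∃ X ∈ T.sets, ∃ v ∈ X, (κ ≤ (lab φ X v).card ∧ u ∈ out φ X v ∧ w ∈ out φ X v) ∨
    (κ ≤ (out φ X v).card ∧ u ∈ lab φ X v ∧ w ∈ lab φ X v)

/-- at least `κ` vertices of `X` have the same neighbours outside `X` as `v`, and these are fewer than `κ` -/
def Big {V E : Type} [Fintype V] (φ : E → V × V) (κ : ℕ) (X : Finset V) (v : V) : Prop :=
  κ ≤ (lab φ X v).card ∧ (out φ X v).card < κ

/-- the edge `e` belongs to the set `X`: both ends are in `X`, or one end is in `X` and is `Big` -/
def Own {V E : Type} [Fintype V] (φ : E → V × V) (κ : ℕ) (X : Finset V) (e : E) : Prop :=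
  ((φ e).1 ∈ X ∧ (φ e).2 ∈ X) ∨ ((φ e).1 ∈ X ∧ (φ e).2 ∉ X ∧ Big φ κ X (φ e).1) ∨
    ((φ e).2 ∈ X ∧ (φ e).1 ∉ X ∧ Big φ κ X (φ e).2)

open Classical in
/-- the edges which belong to `X` and join different classes -/
noncomputable def SS {V E : Type} [Fintype V] [Fintype E] (φ : E → V × V) (c : V → V) (κ : ℕ) (X : Finset V) :
    Finset E :=
  univ.filter fun e => c (φ e).1 ≠ c (φ e).2 ∧ Own φ κ X e

/-- the edges of a list are added one by one -/
def cat {E : Type} : ETree E → List E → ETree E
  | t, [] => t
  | t, e :: L => cat (.node t (.leaf e)) L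

open Classical in
/-- the tree of the edges which belong to the sets of `T` -/
noncomputable def build {V E : Type} [Fintype V] [Fintype E] (φ : E → V × V) (c : V → V) (κ : ℕ) :
    VTree V → ETree E
  | .leaf _ => .nil
  | .node l r => cat (.node (build φ c κ l) (build φ c κ r))
      (SS φ c κ (l.verts ∪ r.verts) \ (SS φ c κ l.verts ∪ SS φ c κ r.verts)).toList

/-! ## Bounded independence number of separators -/

open Classical in
/-- the vertices incident with an edge in `S` and with an edge outside `S` -/
noncomputable def mid {V E : Type} [Fintype V] (φ : E → V × V) (S : Finset E) : Finset V :=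
  univ.filter fun v => (∃ e ∈ S, (φ e).1 = v ∨ (φ e).2 = v) ∧ ∃ e, e ∉ S ∧ ((φ e).1 = v ∨ (φ e).2 = v)

/-- every set of pairwise nonadjacent vertices in `W` has at most `k` elements -/
def Ind {V E : Type} (φ : E → V × V) (k : ℕ) (W : Finset V) : Prop :=
  ∀ I : Finset V, I ⊆ W → (∀ u ∈ I, ∀ w ∈ I, u ≠ w → ¬ nb φ u w) → I.card ≤ k

open Classical in
/-- adjacent vertices with at least `κ` common neighbours -/
def Close {V E : Type} [Fintype V] (φ : E → V × V) (κ : ℕ) (u w : V) : Prop :=
  nb φ u w ∧ κ ≤ (univ.filter fun z => z ≠ u ∧ z ≠ w ∧ nb φ u z ∧ nb φ w z).card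

/-! ## Tools -/

open Classical in
/-- the weight of the sets `A ∪ B`, `A ⊆ S` -/
noncomputable def Phi {V E : Type} (ψ : E → V × V) (q v : ℝ) (S B : Finset E) : ℝ :=
  ∑ A ∈ S.powerset, v ^ A.card * q ^ kk ψ (A ∪ B)

open Classical in
/-- the test function for the continuation `B` -/
noncomputable def FF {V E : Type} [Fintype E] (ψ : E → V × V) (q : ℝ) (S B A : Finset E) : ℝ :=
  q ^ kk ψ (A ∪ B) / q ^ kk ψ (A ∪ (univ \ S))

open Classical in
/-- the classes which can be incident with edges of `SS φ c κ X` and with other edges -/
noncomputable def Sp {V E : Type} [Fintype V] (φ : E → V × V) (c : V → V) (κ : ℕ) (X : Finset V) : Finset V :=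
  ((X.filter fun a => κ ≤ (out φ X a).card) ∪ (X.filter fun a => (lab φ X a).card < κ) ∪
    univ.filter fun b => ∃ v ∈ X, κ ≤ (lab φ X v).card ∧ b ∈ out φ X v).image c

/-- `κ` common neighbours -/
def Com {V E : Type} (φ : E → V × V) (κ : ℕ) (u w : V) : Prop :=
  ∃ Z : Finset V, κ ≤ Z.card ∧ ∀ z ∈ Z, z ≠ u ∧ z ≠ w ∧ nb φ u z ∧ nb φ w z

end Pool.Agent.Work.MP_63853a_lc.Tr
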