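import Pool.Agent.Work.MP_63853a_lc.Tr.Defs

set_option autoImplicit false

/-!
# Draw (size M): first and second moments of one resampling step

With `p j = w j / ∑ w` we have `∑ j, p j = 1`; sums over `s : Fin N → ι` of `∏ i, p (s i)` times a function of one or
two coordinates are computed as in `Cheb` (`mass`, `mixed` there: `Finset.prod_univ_sum`, `Fintype.piFinset_univ`; they
are private, copy them). `draw_fst`: `∑ s, (∏ p) * (W / N * ∑ i, F (a (s i))) = W / N * N * ∑ j, p j * F (a j)`.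
`draw_snd`: for `i ≠ k` the mixed term is `(∑ p F) (∑ p G)`, for `i = k` it is `∑ p F G`, so the left side is
`(1 - 1 / N) * (∑ w F) * (∑ w G) + W / N * ∑ j, w j * F (a j) * G (a j)` and
`W * ∑ j, w j * F (a j) * G (a j) = ∑ i, ∑ j, w i * w j * F (a j) * G (a j) ≤ ∑ i, ∑ j, w i * w j * (Q * F (a i)) * G (a j)`.
-/

namespace Pool.Agent.Work.MP_63853a_lc.Tr

open Finset Pool.Agent.Work.MP_63853a_lc

variable {E ι : Type} [Fintype ι]

open Classical in
private theorem mass {Ω : Type} [Fintype Ω] (W : Ω → ℝ) (h1 : ∑ o, W o = 1) (N : ℕ) :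
    ∑ ω : Fin N → Ω, ∏ i, W (ω i) = 1 := by
  have h := Finset.prod_univ_sum (fun _ : Fin N => (Finset.univ : Finset Ω)) (fun _ o => W o)
  rw [Fintype.piFinset_univ] at h
  rw [← h]
  exact Finset.prod_eq_one fun i _ => h1

open Classical in
private theorem mixed {Ω : Type} [Fintype Ω] (W X Y : Ω → ℝ) (h1 : ∑ o, W o = 1) (N : ℕ) (i j : Fin N) :
    ∑ ω : Fin N → Ω, (∏ k, W (ω k)) * (X (ω i) * Y (ω j)) =
      if i = j then ∑ o, W o * (X o * Y o) else (∑ o, W o * X o) * ∑ o, W o * Y o := by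
  have h := Finset.prod_univ_sum (fun _ : Fin N => (Finset.univ : Finset Ω))
    (fun k o => W o * ((if k = i then X o else 1) * (if k = j then Y o else 1)))
  rw [Fintype.piFinset_univ] at h
  have h2 : ∀ ω : Fin N → Ω, ∏ k, W (ω k) * ((if k = i then X (ω k) else 1) *
      (if k = j then Y (ω k) else 1)) = (∏ k, W (ω k)) * (X (ω i) * Y (ω j)) := by
    intro ω
    rw [Finset.prod_mul_distrib, Finset.prod_mul_distrib,
      Finset.prod_ite_eq' Finset.univ i (fun k => X (ω k)),
      Finset.prod_ite_eq' Finset.univ j (fun k => Y (ω k)), if_pos (Finset.mem_univ i),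
      if_pos (Finset.mem_univ j)]
  rw [Finset.sum_congr rfl fun ω _ => h2 ω] at h
  rw [← h]
  by_cases hij : i = j
  · subst hij
    rw [if_pos rfl, Finset.prod_eq_single i]
    · refine Finset.sum_congr rfl fun o _ => ?_
      rw [if_pos rfl, if_pos rfl]
    · intro k _ hk
      refine Eq.trans (Finset.sum_congr rfl fun o _ => ?_) h1
      rw [if_neg hk, if_neg hk]
      ring
    · intro h3
      exact absurd (Finset.mem_univ i) h3
  · rw [if_neg hij]
    rw [← Finset.mul_prod_erase Finset.univ _ (Finset.mem_univ i),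
      ← Finset.mul_prod_erase (Finset.univ.erase i) _ (Finset.mem_erase.2 ⟨fun h4 => hij h4.symm, Finset.mem_univ j⟩)]
    have h5 : ∏ k ∈ (Finset.univ.erase i).erase j, ∑ o, W o * ((if k = i then X o else 1) * (if k = j then Y o else 1)) = 1 := by
      refine Finset.prod_eq_one fun k hk => ?_
      simp only [Finset.mem_erase, Finset.mem_univ, and_true] at hk
      refine Eq.trans (Finset.sum_congr rfl fun o _ => ?_) h1
      rw [if_neg hk.1, if_neg hk.2]
      ring
    rw [h5, mul_one]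
    congr 1
    · refine Finset.sum_congr rfl fun o _ => ?_
      rw [if_pos rfl, if_neg hij, mul_one]
    · refine Finset.sum_congr rfl fun o _ => ?_
      rw [if_neg (fun h4 => hij h4.symm), if_pos rfl, one_mul]

private theorem pdiv (w : ι → ℝ) (hW : ∑ j, w j ≠ 0) : ∑ j, w j / ∑ k, w k = 1 := by
  rw [← Finset.sum_div, div_self hW]

theorem draw_one (N : ℕ) (a : ι → Finset E) (w : ι → ℝ) (hW : ∑ j, w j ≠ 0) :
    draw N a w (fun _ _ => 1) = 1 := by
  unfold draw
  simp only [mul_one]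
  exact mass (fun j => w j / ∑ k, w k) (pdiv w hW) N

theorem draw_fst (N : ℕ) (hN : 0 < N) (a : ι → Finset E) (w : ι → ℝ) (hW : ∑ j, w j ≠ 0) (F : Finset E → ℝ) :
    draw N a w (fun P m => m / N * ∑ i, F (P i)) = ∑ j, w j * F (a j) := by
  classical
  have hNr : (N : ℝ) ≠ 0 := Nat.cast_ne_zero.2 hN.ne'
  unfold draw
  have h1 : ∀ s : Fin N → ι, (∏ i, w (s i) / ∑ j, w j) * ((∑ j, w j) / N * ∑ i, F (a (s i))) =
      (∑ j, w j) / N * ∑ i, (∏ i, w (s i) / ∑ j, w j) * (F (a (s i)) * 1) := by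
    intro s
    rw [Finset.mul_sum, Finset.mul_sum, Finset.mul_sum]
    refine Finset.sum_congr rfl fun i _ => ?_
    ring
  rw [Finset.sum_congr rfl fun s _ => h1 s, ← Finset.mul_sum, Finset.sum_comm]
  have h2 : ∀ i : Fin N, ∑ s : Fin N → ι, (∏ i, w (s i) / ∑ j, w j) * (F (a (s i)) * 1) =
      ∑ o, (w o / ∑ j, w j) * (F (a o) * 1) := by
    intro i
    have := mixed (fun j => w j / ∑ k, w k) (fun o => F (a o)) (fun _ => 1) (pdiv w hW) N i i
    rw [if_pos rfl] at this
    exact this
  rw [Finset.sum_congr rfl fun i _ => h2 i, Finset.sum_const, Finset.card_univ, Fintype.card_fin, nsmul_eq_mul,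
    ← mul_assoc, div_mul_cancel₀ _ hNr, Finset.mul_sum]
  refine Finset.sum_congr rfl fun o _ => ?_
  field_simp

theorem draw_snd (N : ℕ) (hN : 0 < N) (a : ι → Finset E) (w : ι → ℝ) (hw : ∀ j, 0 ≤ w j) (hW : 0 < ∑ j, w j)
    (F G : Finset E → ℝ) (hF : ∀ j, 0 ≤ F (a j)) (hG : ∀ j, 0 ≤ G (a j)) (Q : ℝ) (hQ : 0 ≤ Q)
    (hosc : ∀ i j, F (a i) ≤ Q * F (a j)) :
    draw N a w (fun P m => (m / N * ∑ i, F (P i)) * (m / N * ∑ i, G (P i))) ≤
      (1 + Q / N) * ((∑ j, w j * F (a j)) * ∑ j, w j * G (a j)) := by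
  classical
  have hNr : (0 : ℝ) < N := Nat.cast_pos.2 hN
  have hW' : ∑ j, w j ≠ 0 := hW.ne'
  set W := ∑ j, w j with hWdef
  set X := ∑ j, w j * F (a j) with hX
  set Y := ∑ j, w j * G (a j) with hY
  set D := ∑ j, w j * (F (a j) * G (a j)) with hD
  have key : draw N a w (fun P m => (m / N * ∑ i, F (P i)) * (m / N * ∑ i, G (P i))) =
      (1 - 1 / N) * (X * Y) + W / N * D := by
    unfold draw
    rw [← hWdef]
    have h1 : ∀ s : Fin N → ι, (∏ i, w (s i) / W) * ((W / N * ∑ i, F (a (s i))) * (W / N * ∑ i, G (a (s i)))) =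
        (W / N) ^ 2 * ∑ i, ∑ j, (∏ i, w (s i) / W) * (F (a (s i)) * G (a (s j))) := by
      intro s
      have h0 : (∑ i, F (a (s i))) * (∑ j, G (a (s j))) = ∑ i, ∑ j, F (a (s i)) * G (a (s j)) :=
        Finset.sum_mul_sum _ _ _ _
      calc (∏ i, w (s i) / W) * ((W / N * ∑ i, F (a (s i))) * (W / N * ∑ i, G (a (s i))))
          = (W / N) ^ 2 * ((∏ i, w (s i) / W) * ((∑ i, F (a (s i))) * (∑ j, G (a (s j))))) := by ring
        _ = _ := by
          rw [h0, Finset.mul_sum]
          congr 1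
          exact Finset.sum_congr rfl fun i _ => Finset.mul_sum _ _ _
    rw [Finset.sum_congr rfl fun s _ => h1 s, ← Finset.mul_sum, Finset.sum_comm]
    have h2 : ∀ i j : Fin N, ∑ s : Fin N → ι, (∏ i, w (s i) / W) * (F (a (s i)) * G (a (s j))) =
        if i = j then D / W else X / W * (Y / W) := by
      intro i j
      rw [mixed (fun j => w j / W) (fun o => F (a o)) (fun o => G (a o)) (by rw [← Finset.sum_div, div_self hW']) N i j]
      refine if_congr Iff.rfl ?_ ?_
      · rw [hD, Finset.sum_div]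
        exact Finset.sum_congr rfl fun o _ => by ring
      · rw [hX, hY, Finset.sum_div, Finset.sum_div]
        congr 1
        · exact Finset.sum_congr rfl fun o _ => by ring
        · exact Finset.sum_congr rfl fun o _ => by ring
    have h3 : ∀ i : Fin N, ∑ s : Fin N → ι, ∑ j, (∏ i, w (s i) / W) * (F (a (s i)) * G (a (s j))) =
        D / W + (N - 1) * (X / W * (Y / W)) := by
      intro i
      rw [Finset.sum_comm, Finset.sum_congr rfl fun j _ => h2 i j]
      have h4 : ∀ j : Fin N, (if i = j then D / W else X / W * (Y / W)) =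
          X / W * (Y / W) + if i = j then D / W - X / W * (Y / W) else 0 := by
        intro j
        split_ifs <;> ring
      rw [Finset.sum_congr rfl fun j _ => h4 j, Finset.sum_add_distrib, Finset.sum_const, Finset.card_univ,
        Fintype.card_fin, nsmul_eq_mul, Finset.sum_ite_eq, if_pos (Finset.mem_univ i)]
      ring
    rw [Finset.sum_congr rfl fun i _ => h3 i, Finset.sum_const, Finset.card_univ, Fintype.card_fin, nsmul_eq_mul]
    field_simp
    ring
  have hX0 : 0 ≤ X := Finset.sum_nonneg fun j _ => mul_nonneg (hw j) (hF j)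
  have hY0 : 0 ≤ Y := Finset.sum_nonneg fun j _ => mul_nonneg (hw j) (hG j)
  have hWD : W * D ≤ Q * (X * Y) := by
    have e1 : W * D = ∑ i, ∑ j, w i * (w j * (F (a j) * G (a j))) := Finset.sum_mul_sum _ _ _ _
    have e2 : Q * (X * Y) = ∑ i, ∑ j, w i * (w j * ((Q * F (a i)) * G (a j))) := by
      rw [hX, hY, Finset.sum_mul_sum, Finset.mul_sum]
      refine Finset.sum_congr rfl fun i _ => ?_
      rw [Finset.mul_sum]
      exact Finset.sum_congr rfl fun j _ => by ring
    rw [e1, e2]
    refine Finset.sum_le_sum fun i _ => Finset.sum_le_sum fun j _ => ?_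
    refine mul_le_mul_of_nonneg_left (mul_le_mul_of_nonneg_left ?_ (hw j)) (hw i)
    exact mul_le_mul_of_nonneg_right (hosc j i) (hG j)
  rw [key]
  have h5 : W / N * D ≤ Q / N * (X * Y) := by
    rw [div_mul_eq_mul_div, div_mul_eq_mul_div]
    exact div_le_div_of_nonneg_right hWD hNr.le
  have h6 : 0 ≤ 1 / (N : ℝ) * (X * Y) := by positivity
  nlinarith

end Pool.Agent.Work.MP_63853a_lc.Tr
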