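import Pool.Agent.Work.MP_63853a_lc.Tr.Asm
import Pool.Agent.Work.MP_63853a_lc.Tr.IndW

set_option autoImplicit false

/-!
# MainIII (size S-M): separators of bounded independence number

`asm` with `α = k * k + k`, `s = card V + card E + t.size + 1 ≥ 2` (`t.size ≥ 1`), `R = Close φ κ` with `κ = ⌈b log (s/ε)⌉`
(`Close` gives `Com`). The tree `t` has all edges. `lam_ind`: `k * (k * κ + 1) ≤ (k * k + k) * (κ + 2)`.
-/

namespace Pool.Agent.Work.MP_63853a_lc.Tr

open Finset Pool.Agent.Work.MP_63853a_lc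

theorem main_three (x y : ℝ) (hx : 1 < x) (hy : 1 < y) (hq : 1 ≤ (x - 1) * (y - 1)) (k : ℕ) :
    ∃ b C : ℝ, ∀ (V E : Type) [Fintype V] [Fintype E] (φ : E → V × V) (t : ETree E) (ε : ℝ),
      t.Nodup → t.edges = univ → (∀ S ∈ t.sets, Ind φ k (mid φ S)) → 0 < ε → ε ≤ 1 →
      ∀ κ : ℕ, κ = ⌈b * Real.log ((Fintype.card V + Fintype.card E + t.size + 1 : ℕ) / ε)⌉₊ →
      ∃ c : V → V, (∀ u v, c u = c v ↔ Relation.EqvGen (Close φ κ) u v) ∧
        ∀ N : ℕ, ((Fintype.card V + Fintype.card E + t.size + 1 : ℕ) / ε : ℝ) ^ C ≤ N →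
          3 / 4 ≤ good φ (quo φ c) x y (fac x y c) t ε N := by
  classical
  obtain ⟨b, C, h⟩ := asm x y hx hy hq (k * k + k)
  refine ⟨b, C, ?_⟩
  intro V E _ _ φ t ε ht hU hk hε hε1 κ hκ
  have ht1 : 1 ≤ t.size := by
    cases t <;> simp only [ETree.size] <;> omega
  have h2 : (2 : ℝ) ≤ ((Fintype.card V + Fintype.card E + t.size + 1 : ℕ) : ℝ) := by
    have : (2 : ℕ) ≤ Fintype.card V + Fintype.card E + t.size + 1 := by omega
    exact_mod_cast this
  have h3 : ((Fintype.card V + Fintype.card E + 1 : ℕ) : ℝ) ≤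
      ((Fintype.card V + Fintype.card E + t.size + 1 : ℕ) : ℝ) := by
    have : Fintype.card V + Fintype.card E + 1 ≤ Fintype.card V + Fintype.card E + t.size + 1 := by omega
    exact_mod_cast this
  obtain ⟨hk2, c, hc, hm⟩ := h V E φ ((Fintype.card V + Fintype.card E + t.size + 1 : ℕ) : ℝ) ε (Close φ κ)
    hε hε1 h2 h3 (fun u w huw _ => by
      rw [← hκ]
      refine ⟨_, huw.2, fun z hz => ?_⟩
      simp only [Finset.mem_filter, Finset.mem_univ, true_and] at hz
      exact hz)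
  rw [← hκ] at hk2 hm
  refine ⟨c, hc, ?_⟩
  refine hm t ht ?_ ?_ ?_ ?_
  · intro e hn
    rw [hU] at hn
    exact absurd (Finset.mem_univ e) hn
  · have : t.size ≤ Fintype.card V + Fintype.card E + t.size + 1 := by omega
    exact_mod_cast this
  · have : Fintype.card V + Fintype.card E + t.size + 1 ≤
        2 * (Fintype.card V + Fintype.card E + t.size + 1) := by omega
    exact_mod_cast this
  · intro S hS
    refine (lam_ind φ κ c hc S (hk S hS)).trans ?_
    nlinarith [Nat.zero_le (k * κ), Nat.zero_le (k * k), Nat.zero_le k]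

end Pool.Agent.Work.MP_63853a_lc.Tr
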