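import Pool.Agent.Work.MP_63853a_lc.Tr.MainII
import Pool.Agent.Work.MP_63853a_lc.Tr.MainIII

set_option autoImplicit false

/-!
# The Tutte polynomial of graphs of bounded clique-width and of graphs with separators of bounded independence number
-/

namespace Pool.Agent.Work.MP_63853a_lc.Tr

open Finset Pool.Agent.Work.MP_63853a_lc

theorem final (x y : ℝ) (hx : 1 < x) (hy : 1 < y) (hq : 1 ≤ (x - 1) * (y - 1)) :
    (∀ β : ℝ, ∃ C : ℝ, ∀ (V E : Type) [Fintype V] [Fintype E] (φ ψ : E → V × V) (a d : ℝ) (t : ETree E) (ε : ℝ),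
      0 < ε → ε ≤ 1 → Red x y φ ψ a d → (x - 1) * (y - 1) * d ≤ ε / 4 →
      t.Nodup → (∀ e, e ∉ t.edges → (ψ e).1 = (ψ e).2) →
      (∀ S ∈ t.sets, (lam ψ S : ℝ) ≤
        β * Real.log ((Fintype.card V + Fintype.card E + t.size + 1 : ℕ) / ε)) →
      ∀ N : ℕ, ((Fintype.card V + Fintype.card E + t.size + 1 : ℕ) / ε : ℝ) ^ C ≤ N →
        3 / 4 ≤ good φ ψ x y a t ε N) ∧
    (∀ k : ℕ, ∃ b C : ℝ, ∀ (V E : Type) [Fintype V] [Fintype E] (φ : E → V × V) (T : VTree V) (ε : ℝ),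
      T.Nodup → T.verts = univ → (∀ X ∈ T.sets, Set.ncard (out φ X '' (X : Set V)) ≤ k) → 0 < ε → ε ≤ 1 →
      ∀ κ : ℕ, κ = ⌈b * Real.log ((2 * (Fintype.card V + Fintype.card E + 1) : ℕ) / ε)⌉₊ →
      ∃ c : V → V, (∀ u v, c u = c v ↔ Relation.EqvGen (Gen φ κ T) u v) ∧
        ∀ N : ℕ, ((2 * (Fintype.card V + Fintype.card E + 1) : ℕ) / ε : ℝ) ^ C ≤ N →
          3 / 4 ≤ good φ (quo φ c) x y (fac x y c) (build φ c κ T) ε N) ∧
    (∀ k : ℕ, ∃ b C : ℝ, ∀ (V E : Type) [Fintype V] [Fintype E] (φ : E → V × V) (t : ETree E) (ε : ℝ),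
      t.Nodup → t.edges = univ → (∀ S ∈ t.sets, Ind φ k (mid φ S)) → 0 < ε → ε ≤ 1 →
      ∀ κ : ℕ, κ = ⌈b * Real.log ((Fintype.card V + Fintype.card E + t.size + 1 : ℕ) / ε)⌉₊ →
      ∃ c : V → V, (∀ u v, c u = c v ↔ Relation.EqvGen (Close φ κ) u v) ∧
        ∀ N : ℕ, ((Fintype.card V + Fintype.card E + t.size + 1 : ℕ) / ε : ℝ) ^ C ≤ N →
          3 / 4 ≤ good φ (quo φ c) x y (fac x y c) t ε N) :=
  ⟨main_one x y hx hy hq, main_two x y hx hy hq, main_three x y hx hy hq⟩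

end Pool.Agent.Work.MP_63853a_lc.Tr
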