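import Pool.Agent.Work.MP_63853a_lc.Tr.Draw
import Pool.Agent.Work.MP_63853a_lc.Tr.Run
import Pool.Agent.Work.MP_63853a_lc.Tr.Phi

set_option autoImplicit false

/-!
# Fst (size M): the sampler is unbiased

Induction on `t`, generalizing `B`. `nil`: `N` equal terms (`0 < N`), `FF ψ q ∅ B ∅ = q ^ kk B / q ^ kk univ`, `Phi_nil`.
`leaf e`: `draw_fst`, `Fintype.sum_bool`; `FF ψ q {e} B {e} = q ^ kk ({e} ∪ B) / q ^ kk univ` because `{e} ∪ (univ \ {e}) = univ`,
`FF ψ q {e} B ∅ = q ^ kk B / q ^ kk (univ \ {e})`, `Phi_leaf`.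
`node l r`: by `draw_fst` (the total weight is positive for admissible `P`, `a`, `R`, `b`; use `run_congr` twice) the expectation
of the draw is `∑ i, a * b / N ^ 2 * (..) * FF ψ q (l.edges ∪ r.edges) B (P i.1 ∪ R i.2)`, by `FF_join` this is
`b / N * ∑ j, (1 / q ^ kk (R j ∪ rᶜ)) * (a / N * ∑ i, FF ψ q l.edges (B ∪ R j) (P i))`. The order of the two runs is: the
left tree is the outer one; the function of `P a` inside is linear in the functions `a / N * ∑ i, FF ..(P i)`. So first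
exchange: for fixed `P`, `a` apply the induction hypothesis to the inner run (the right tree): by the mirror of `FF_join`
(exchange the roles, `Finset.union_comm`) the draw is
`a / N * ∑ i, (1 / q ^ kk (P i ∪ lᶜ)) * (b / N * ∑ j, FF ψ q r.edges (B ∪ P i) (R j))`, its inner run is (`run_sum`, `run_mul`)
`a / N * ∑ i, (1 / q ^ kk (P i ∪ lᶜ)) * Phi ψ q v r.edges (B ∪ P i)`, which by `FF_swap` (with `S₁ = r.edges`, `S₂ = l.edges`) is
`∑ A ∈ r.edges.powerset, v ^ A.card * (a / N * ∑ i, FF ψ q l.edges (B ∪ A) (P i))`; apply the induction hypothesis for `l` and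
`Phi_union`. The sets `B ∪ P i` are disjoint from `r.edges` because `P i ⊆ l.edges` (`run_congr`).
-/

namespace Pool.Agent.Work.MP_63853a_lc.Tr

open Finset Pool.Agent.Work.MP_63853a_lc

variable {V E : Type} [Fintype E]

open Classical in
private theorem join2 (ψ : E → V × V) {q : ℝ} (hq : 0 < q) (S₁ S₂ B A₁ A₂ : Finset E) :
    q ^ kk ψ (A₁ ∪ A₂ ∪ (univ \ (S₁ ∪ S₂))) /
        (q ^ kk ψ (A₁ ∪ (univ \ S₁)) * q ^ kk ψ (A₂ ∪ (univ \ S₂))) * FF ψ q (S₁ ∪ S₂) B (A₁ ∪ A₂) =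
      (1 / q ^ kk ψ (A₁ ∪ (univ \ S₁))) * FF ψ q S₂ (B ∪ A₁) A₂ := by
  have h := FF_join ψ hq S₂ S₁ B A₂ A₁
  rw [union_comm A₂ A₁, union_comm S₂ S₁, mul_comm (q ^ kk ψ (A₂ ∪ (univ \ S₂)))] at h
  rw [h, mul_comm]

open Classical in
private theorem nodeX (ψ : E → V × V) {q : ℝ} (hq : 0 < q) {N : ℕ} (S₁ S₂ B : Finset E)
    (P R : Fin N → Finset E) (a b : ℝ) :
    ∑ i : Fin N × Fin N, a * b / N ^ 2 * (q ^ kk ψ (P i.1 ∪ R i.2 ∪ (univ \ (S₁ ∪ S₂))) /
        (q ^ kk ψ (P i.1 ∪ (univ \ S₁)) * q ^ kk ψ (R i.2 ∪ (univ \ S₂)))) *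
          FF ψ q (S₁ ∪ S₂) B (P i.1 ∪ R i.2) =
      a / N * ∑ i, (1 / q ^ kk ψ (P i ∪ (univ \ S₁))) * (b / N * ∑ j, FF ψ q S₂ (B ∪ P i) (R j)) := by
  rw [Fintype.sum_prod_type, Finset.mul_sum]
  refine Finset.sum_congr rfl fun i _ => ?_
  rw [Finset.mul_sum, Finset.mul_sum, Finset.mul_sum]
  refine Finset.sum_congr rfl fun j _ => ?_
  rw [mul_assoc, join2 ψ hq]
  ring

open Classical in
private theorem swapX (ψ : E → V × V) (q v : ℝ) {N : ℕ} (S₁ S₂ B : Finset E) (P : Fin N → Finset E) (a : ℝ) :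
    a / N * ∑ i, (1 / q ^ kk ψ (P i ∪ (univ \ S₁))) * Phi ψ q v S₂ (B ∪ P i) =
      ∑ A ∈ S₂.powerset, v ^ A.card * (a / N * ∑ i, FF ψ q S₁ (B ∪ A) (P i)) := by
  have h : ∀ i, (1 / q ^ kk ψ (P i ∪ (univ \ S₁))) * Phi ψ q v S₂ (B ∪ P i) =
      ∑ A ∈ S₂.powerset, v ^ A.card * FF ψ q S₁ (B ∪ A) (P i) := by
    intro i
    rw [mul_comm]
    exact FF_swap ψ q v S₂ S₁ B (P i)
  rw [Finset.sum_congr rfl fun i _ => h i, Finset.sum_comm, Finset.mul_sum]
  refine Finset.sum_congr rfl fun A _ => ?_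
  rw [← Finset.mul_sum]
  ring

theorem run_fst (ψ : E → V × V) {q v : ℝ} (hq : 0 < q) (hv : 0 < v) {N : ℕ} (hN : 0 < N) (t : ETree E)
    (ht : t.Nodup) (B : Finset E) (hB : Disjoint B t.edges) :
    run ψ q v N t (fun P a => a / N * ∑ i, FF ψ q t.edges B (P i)) = Phi ψ q v t.edges B := by
  classical
  have hNr : (0 : ℝ) < N := Nat.cast_pos.2 hN
  induction t generalizing B with
  | nil =>
    simp only [run, ETree.edges]
    rw [Finset.sum_const, Finset.card_univ, Fintype.card_fin, nsmul_eq_mul, Phi_nil]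
    simp only [FF, Finset.empty_union, Finset.sdiff_empty]
    have : q ^ kk ψ univ ≠ 0 := (pow_pos hq _).ne'
    field_simp
  | leaf e =>
    simp only [run, ETree.edges]
    have h1 : 0 < q ^ kk ψ univ := pow_pos hq _
    have h2 : 0 < q ^ kk ψ (univ \ {e}) := pow_pos hq _
    rw [draw_fst N hN _ _ (by rw [Fintype.sum_bool]; simp only [if_true, Bool.false_eq_true, if_false]; positivity),
      Fintype.sum_bool, Phi_leaf]
    simp only [if_true, Bool.false_eq_true, if_false, FF, Finset.empty_union]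
    have h3 : ({e} : Finset E) ∪ (univ \ {e}) = univ := Finset.union_sdiff_of_subset (Finset.subset_univ _)
    rw [h3]
    field_simp
    ring
  | node l r ihl ihr =>
    obtain ⟨hd, hl, hr⟩ := ht
    simp only [ETree.edges] at hB ⊢
    rw [Finset.disjoint_union_right] at hB
    have e1 : ∀ (P : Fin N → Finset E) (a : ℝ), (∀ i, P i ⊆ l.edges) → 0 < a →
        (run ψ q v N r fun R b => draw N (fun i : Fin N × Fin N => P i.1 ∪ R i.2)
          (fun i => a * b / N ^ 2 * (q ^ kk ψ (P i.1 ∪ R i.2 ∪ (univ \ (l.edges ∪ r.edges))) /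
            (q ^ kk ψ (P i.1 ∪ (univ \ l.edges)) * q ^ kk ψ (R i.2 ∪ (univ \ r.edges)))))
          (fun P' m => m / N * ∑ i, FF ψ q (l.edges ∪ r.edges) B (P' i))) =
        ∑ A ∈ r.edges.powerset, v ^ A.card * (a / N * ∑ i, FF ψ q l.edges (B ∪ A) (P i)) := by
      intro P a hP ha
      have e2 : (run ψ q v N r fun R b => draw N (fun i : Fin N × Fin N => P i.1 ∪ R i.2)
          (fun i => a * b / N ^ 2 * (q ^ kk ψ (P i.1 ∪ R i.2 ∪ (univ \ (l.edges ∪ r.edges))) /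
            (q ^ kk ψ (P i.1 ∪ (univ \ l.edges)) * q ^ kk ψ (R i.2 ∪ (univ \ r.edges)))))
          (fun P' m => m / N * ∑ i, FF ψ q (l.edges ∪ r.edges) B (P' i))) =
          run ψ q v N r fun R b => a / N * ∑ i, (1 / q ^ kk ψ (P i ∪ (univ \ l.edges))) *
            (b / N * ∑ j, FF ψ q r.edges (B ∪ P i) (R j)) := by
        refine run_congr ψ hq hv hN r _ _ fun R b hR hb => ?_
        rw [draw_fst N hN, nodeX ψ hq]
        have : Nonempty (Fin N × Fin N) := ⟨(⟨0, hN⟩, ⟨0, hN⟩)⟩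
        refine (Finset.sum_pos (fun i _ => ?_) Finset.univ_nonempty).ne'
        positivity
      rw [e2, run_mul, run_sum]
      have e3 : ∀ i, run ψ q v N r (fun R b => (1 / q ^ kk ψ (P i ∪ (univ \ l.edges))) *
            (b / N * ∑ j, FF ψ q r.edges (B ∪ P i) (R j))) =
          (1 / q ^ kk ψ (P i ∪ (univ \ l.edges))) * Phi ψ q v r.edges (B ∪ P i) := by
        intro i
        rw [run_mul, ihr hr]
        rw [Finset.disjoint_union_left]
        exact ⟨hB.2, Finset.disjoint_of_subset_left (hP i) hd⟩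
      rw [Finset.sum_congr rfl fun i _ => e3 i, swapX]
    change run ψ q v N l (fun P a => run ψ q v N r fun R b => draw N (fun i : Fin N × Fin N => P i.1 ∪ R i.2)
          (fun i => a * b / N ^ 2 * (q ^ kk ψ (P i.1 ∪ R i.2 ∪ (univ \ (l.edges ∪ r.edges))) /
            (q ^ kk ψ (P i.1 ∪ (univ \ l.edges)) * q ^ kk ψ (R i.2 ∪ (univ \ r.edges)))))
          (fun P' m => m / N * ∑ i, FF ψ q (l.edges ∪ r.edges) B (P' i))) = _
    rw [run_congr ψ hq hv hN l _ _ e1, run_sum]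
    have e4 : ∀ A ∈ r.edges.powerset, run ψ q v N l (fun P a => v ^ A.card *
        (a / N * ∑ i, FF ψ q l.edges (B ∪ A) (P i))) = v ^ A.card * Phi ψ q v l.edges (B ∪ A) := by
      intro A hA
      rw [run_mul, ihl hl]
      rw [Finset.disjoint_union_left]
      exact ⟨hB.1, Finset.disjoint_of_subset_left (Finset.mem_powerset.1 hA) hd.symm⟩
    rw [Finset.sum_congr rfl e4, Phi_union ψ q v hd.symm, union_comm]

end Pool.Agent.Work.MP_63853a_lc.Tr
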