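import Pool.Agent.Work.MP_63853a_lc.Tr.Defs
import Pool.Agent.Work.MP_63853a_lc.KBasic

set_option autoImplicit false

/-!
# KGlue (size M): components after identifying two vertices

Let `m z = if z = u then w else z`, so `glue ψ u w e = (m (ψ e).1, m (ψ e).2)`. No edge of `glue ψ u w` is incident with
`u` (as `u ≠ w`), so `u` is a component of its own. If `cls ψ A u = cls ψ A w` then `Cl (glue ψ u w) A ≃ Option (Cl ψ A)`:
`z ↦ if z = u then none else some (cls ψ A z)`, with inverse `none ↦ cls u`, `some (cls ψ A z) ↦ cls (m z)` (well defined).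
If `cls ψ A u ≠ cls ψ A w` then `Cl (glue ψ u w) A` and `Cl ψ A` have the same cardinality: the class of `u` in `Cl ψ A`
corresponds to `{u}`, every other class `cls ψ A z` to `cls (m z)` (the classes of `u` and `w` without `u` are merged into
the class of `w`): bijection `z ↦ if z = u then cls ψ A u else if cls ψ A z = cls ψ A u then cls ψ A w else cls ψ A z`, inverse
`cls ψ A z ↦ if cls ψ A z = cls ψ A u then cls u else cls (m z)`. Alternatively induction on `A` from `kk_insert_eq`,
`kk_insert_cross`.
-/

namespace Pool.Agent.Work.MP_63853a_lc.Tr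

open Finset Pool.Agent.Work.MP_63853a_lc

variable {V E : Type} [Fintype V]

open Classical in
theorem kk_glue (ψ : E → V × V) {u w : V} (huw : u ≠ w) (A : Finset E) :
    kk (glue ψ u w) A = kk ψ A + if cls ψ A u = cls ψ A w then 1 else 0 := by
  have hfin : Finite (Cl ψ A) := Quot.finite _
  -- the map on the vertices
  let m : V → V := fun z => if z = u then w else z
  have hmu : m u = w := if_pos rfl
  have hmo : ∀ z, z ≠ u → m z = z := fun z hz => if_neg hz
  have hmn : ∀ z, m z ≠ u := by
    intro z hz
    by_cases h : z = u
    · rw [h, hmu] at hz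
      exact huw hz.symm
    · rw [hmo z h] at hz
      exact h hz
  have hgl : ∀ e, glue ψ u w e = (m (ψ e).1, m (ψ e).2) := fun e => rfl
  have hedge : ∀ e ∈ A, cls ψ A (ψ e).1 = cls ψ A (ψ e).2 := fun e he => Quot.sound ⟨e, he, rfl⟩
  -- the map from the components of `ψ` to those of `glue ψ u w`
  let g' : Cl ψ A → Cl (glue ψ u w) A := Quot.lift (fun z => cls (glue ψ u w) A (m z)) (by
    rintro a b ⟨e, he, hab⟩
    refine Quot.sound ⟨e, he, ?_⟩
    rw [hgl, hab])
  have hg' : ∀ z, g' (cls ψ A z) = cls (glue ψ u w) A (m z) := fun z => rfl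
  by_cases hc : cls ψ A u = cls ψ A w
  · rw [if_pos hc]
    have hcm : ∀ z, cls ψ A (m z) = cls ψ A z := by
      intro z
      by_cases h : z = u
      · rw [h, hmu, hc]
      · rw [hmo z h]
    let f : Cl (glue ψ u w) A → Option (Cl ψ A) := Quot.lift
      (fun z => if z = u then none else some (cls ψ A z)) (by
        rintro a b ⟨e, he, hab⟩
        rw [hgl] at hab
        have ha : m (ψ e).1 = a := congrArg Prod.fst hab
        have hb : m (ψ e).2 = b := congrArg Prod.snd hab
        rw [← ha, ← hb, if_neg (hmn _), if_neg (hmn _), hcm, hcm, hedge e he])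
    have hf : ∀ z, f (cls (glue ψ u w) A z) = if z = u then none else some (cls ψ A z) := fun z => rfl
    have hcard : kk (glue ψ u w) A = Nat.card (Option (Cl ψ A)) := by
      refine Nat.card_congr
        { toFun := f
          invFun := fun o => o.elim (cls (glue ψ u w) A u) g'
          left_inv := ?_
          right_inv := ?_ }
      · rintro ⟨z⟩
        change Option.elim (f (cls (glue ψ u w) A z)) (cls (glue ψ u w) A u) g' =
          cls (glue ψ u w) A z
        rw [hf]
        by_cases h : z = u
        · rw [if_pos h, h]
          rfl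
        · rw [if_neg h, Option.elim_some, hg', hmo z h]
      · rintro (_ | c)
        · change f (cls (glue ψ u w) A u) = none
          rw [hf, if_pos rfl]
        · obtain ⟨z, rfl⟩ : ∃ z, cls ψ A z = c := Quot.exists_rep c
          change f (g' (cls ψ A z)) = some (cls ψ A z)
          rw [hg', hf, if_neg (hmn z), hcm]
    rw [hcard, Finite.card_option]
    rfl
  · rw [if_neg hc, add_zero]
    have hF : ∀ z, (if cls ψ A (m z) = cls ψ A u then cls ψ A w else cls ψ A (m z)) =
        if cls ψ A z = cls ψ A u then cls ψ A w else cls ψ A z := by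
      intro z
      by_cases h : z = u
      · rw [h, hmu, if_neg (fun h' => hc h'.symm), if_pos rfl]
      · rw [hmo z h]
    let f : Cl (glue ψ u w) A → Cl ψ A := Quot.lift
      (fun z => if z = u then cls ψ A u else if cls ψ A z = cls ψ A u then cls ψ A w
        else cls ψ A z) (by
        rintro a b ⟨e, he, hab⟩
        rw [hgl] at hab
        have ha : m (ψ e).1 = a := congrArg Prod.fst hab
        have hb : m (ψ e).2 = b := congrArg Prod.snd hab
        rw [← ha, ← hb, if_neg (hmn _), if_neg (hmn _), hF, hF, hedge e he])
    have hf : ∀ z, f (cls (glue ψ u w) A z) = if z = u then cls ψ A u else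
        if cls ψ A z = cls ψ A u then cls ψ A w else cls ψ A z := fun z => rfl
    refine Nat.card_congr
      { toFun := f
        invFun := fun c => if c = cls ψ A u then cls (glue ψ u w) A u else g' c
        left_inv := ?_
        right_inv := ?_ }
    · rintro ⟨z⟩
      change (if f (cls (glue ψ u w) A z) = cls ψ A u then cls (glue ψ u w) A u
        else g' (f (cls (glue ψ u w) A z))) = cls (glue ψ u w) A z
      rw [hf]
      by_cases h : z = u
      · rw [if_pos h, if_pos rfl, h]
      · rw [if_neg h]
        by_cases h2 : cls ψ A z = cls ψ A u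
        · rw [if_pos h2, if_neg (fun h' => hc h'.symm), hg', hmo w huw.symm]
          have h3 : g' (cls ψ A z) = g' (cls ψ A u) := by rw [h2]
          rw [hg', hg', hmo z h, hmu] at h3
          exact h3.symm
        · rw [if_neg h2, if_neg h2, hg', hmo z h]
    · rintro ⟨z⟩
      change f (if cls ψ A z = cls ψ A u then cls (glue ψ u w) A u else g' (cls ψ A z)) =
        cls ψ A z
      by_cases h2 : cls ψ A z = cls ψ A u
      · rw [if_pos h2, hf, if_pos rfl, h2]
      · have h : z ≠ u := fun h => h2 (by rw [h])
        rw [if_neg h2, hg', hf, if_neg (hmn z), hmo z h, if_neg h2]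

end Pool.Agent.Work.MP_63853a_lc.Tr
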