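import Pool.Agent.Work.MP_63853a_lc.Tr.Har
import Pool.Agent.Work.MP_63853a_lc.Tr.KGlue
import Pool.Agent.Work.MP_63853a_lc.Tr.Sub

set_option autoImplicit false

/-!
# Glue (size M): the error of an identification

`q = (x-1)(y-1)`, `v = y - 1`, `Z = zz ψ q v`, `Z' = zz (glue ψ u w) q v`, `s A = 1` if `cls ψ A u ≠ cls ψ A w` and `0` otherwise.
By `kk_glue`, `q * (q ^ kk ψ A * v ^ |A|) = q ^ kk (glue) A * v ^ |A| * (1 + (q - 1) * s A)`, so `Z' ≤ q Z` and
`q Z = Z' + (q - 1) * ∑ A, q ^ kk' A * v ^ |A| * s A` with `kk' = kk (glue ψ u w)`. With `p = 1 / x = v / (v + q)` and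
`n = card E`: `v ^ |A| = x ^ n * (y-1)^n * .. `; precisely `v ^ |A| * q ^ kk' A = K * wt p A * f A` with
`f A = q ^ (|A| + kk' A)` and the constant `K = ((v + q) / q) ^ n`: indeed `p / (1 - p) = v / q`, so
`wt p A = (1 - p) ^ n * (v / q) ^ |A|` and `1 - p = q / (v + q)`. `f` is monotone because adding an edge raises `|A|` by
one and lowers `kk'` by at most one (`card_le`-like, from `kk_insert_eq`, `kk_insert_cross`; induction for general
inclusions), `s` is antitone (`cls_mono`). By `harris`: `∑ wt f s ≤ (∑ wt f) (∑ wt s)`, `∑ wt s = sep ψ (1/x) u w`.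
-/

namespace Pool.Agent.Work.MP_63853a_lc.Tr

open Finset Pool.Agent.Work.MP_63853a_lc

variable {V E : Type} [Fintype V] [Fintype E]

private theorem kk_card_mono (χ : E → V × V) {A B : Finset E} (h : A ⊆ B) : A.card + kk χ A ≤ B.card + kk χ B := by
  classical
  obtain ⟨C, rfl⟩ : ∃ C, B = A ∪ C := ⟨B, (Finset.union_eq_right.2 h).symm⟩
  clear h
  induction C using Finset.induction_on with
  | empty => rw [Finset.union_empty]
  | insert e C _ ih =>
    rw [Finset.union_insert]
    by_cases he : e ∈ A ∪ C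
    · rw [Finset.insert_eq_of_mem he]
      exact ih
    · rw [Finset.card_insert_of_notMem he]
      by_cases hc : Cross χ (A ∪ C) e
      · have := kk_insert_cross χ hc
        omega
      · have := kk_insert_eq χ hc
        omega

private theorem alg {x q v : ℝ} (hx : 1 < x) (hv : q = v * (x - 1)) {n m k : ℕ} (h : m ≤ n) :
    q ^ k * v ^ m = (x / (x - 1)) ^ n * ((1 / x) ^ m * (1 - 1 / x) ^ (n - m) * q ^ (m + k)) := by
  obtain ⟨r, rfl⟩ := Nat.exists_eq_add_of_le h
  have hx0 : 0 < x := by linarith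
  have hx1 : x - 1 ≠ 0 := by linarith
  have e2 : (1 : ℝ) - 1 / x = (x - 1) / x := by field_simp
  rw [Nat.add_sub_cancel_left, e2, pow_add, pow_add]
  have e3 : (x / (x - 1)) ^ r * ((x - 1) / x) ^ r = 1 := by
    rw [← mul_pow, div_mul_div_comm, mul_comm x, div_self (mul_ne_zero hx1 hx0.ne'), one_pow]
  have e4 : (x / (x - 1)) ^ m * (1 / x) ^ m * q ^ m = v ^ m := by
    rw [← mul_pow, ← mul_pow, hv]
    congr 1
    field_simp
  calc q ^ k * v ^ m = ((x / (x - 1)) ^ m * (1 / x) ^ m * q ^ m) * ((x / (x - 1)) ^ r * ((x - 1) / x) ^ r) * q ^ k := by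
        rw [e4, e3]
        ring
    _ = _ := by ring

theorem glue_step (ψ : E → V × V) {x y : ℝ} (hx : 1 < x) (hy : 1 < y) (hq : 1 ≤ (x - 1) * (y - 1)) {u w : V}
    (huw : u ≠ w) :
    zz (glue ψ u w) ((x - 1) * (y - 1)) (fun _ => y - 1) ≤ (x - 1) * (y - 1) * zz ψ ((x - 1) * (y - 1)) (fun _ => y - 1) ∧
    (x - 1) * (y - 1) * zz ψ ((x - 1) * (y - 1)) (fun _ => y - 1) ≤
      (1 + ((x - 1) * (y - 1) - 1) * sep ψ (1 / x) u w) *
        zz (glue ψ u w) ((x - 1) * (y - 1)) (fun _ => y - 1) := by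
  classical
  set q := (x - 1) * (y - 1) with hqd
  set v := y - 1 with hv
  have hx0 : 0 < x - 1 := by linarith
  have hv0 : 0 < v := by linarith
  have hq0 : 0 < q := by linarith
  have hxv : v + q = x * v := by rw [hqd, hv]; ring
  have hx' : 0 < x := by linarith
  set ψ' := glue ψ u w with hψ'
  set s : Finset E → ℝ := fun A => if cls ψ A u = cls ψ A w then 0 else 1 with hs
  have hs0 : ∀ A, 0 ≤ s A := fun A => by
    simp only [hs]
    split_ifs <;> norm_num
  have hterm : ∀ A : Finset E, q * (q ^ kk ψ A * v ^ A.card) = q ^ kk ψ' A * v ^ A.card * (1 + (q - 1) * s A) := by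
    intro A
    have h := kk_glue ψ huw A
    rw [← hψ'] at h
    rw [h]
    simp only [hs]
    split_ifs
    · rw [pow_succ]
      ring
    · rw [add_zero]
      ring
  have hz : ∀ χ : E → V × V, zz χ q (fun _ => v) = ∑ A : Finset E, q ^ kk χ A * v ^ A.card := by
    intro χ
    unfold zz
    exact Finset.sum_congr rfl fun A _ => by rw [Finset.prod_const]
  have hZ : q * zz ψ q (fun _ => v) = zz ψ' q (fun _ => v) + (q - 1) * ∑ A : Finset E, q ^ kk ψ' A * v ^ A.card * s A := by
    rw [hz, hz, Finset.mul_sum, Finset.mul_sum, ← Finset.sum_add_distrib]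
    exact Finset.sum_congr rfl fun A _ => by
      rw [hterm A]
      ring
  have hq1 : 0 ≤ q - 1 := by linarith
  have hC0 : 0 ≤ ∑ A : Finset E, q ^ kk ψ' A * v ^ A.card * s A :=
    Finset.sum_nonneg fun A _ => mul_nonneg (by positivity) (hs0 A)
  set p := 1 / x with hp
  have hp0 : 0 ≤ p := by positivity
  have hp1 : p ≤ 1 := by
    rw [hp, div_le_one hx']
    exact hx.le
  set f : Finset E → ℝ := fun A => q ^ (A.card + kk ψ' A) with hf
  set K := (x / (x - 1)) ^ Fintype.card E with hK
  have hK0 : 0 < K := by positivity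
  have hkey : ∀ A : Finset E, q ^ kk ψ' A * v ^ A.card = K * (wt p A * f A) := by
    intro A
    have hc := Finset.card_le_univ A
    simp only [hK, hf, wt, hp]
    exact alg hx (by rw [hqd]; ring) hc
  have hharris := harris hp0 hp1 f s (fun A B hAB => pow_le_pow_right₀ hq (kk_card_mono ψ' hAB)) (fun A B hAB => by
      simp only [hs]
      by_cases h1 : cls ψ A u = cls ψ A w
      · rw [if_pos h1, if_pos (cls_mono ψ hAB h1)]
      · rw [if_neg h1]
        split_ifs <;> norm_num) (fun A => (pow_pos hq0 _).le)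
  have hsep : ∑ A : Finset E, wt p A * s A = sep ψ p u w := by
    unfold sep
    refine Finset.sum_congr rfl fun A _ => ?_
    simp only [hs]
    split_ifs <;> ring
  have hCle : ∑ A : Finset E, q ^ kk ψ' A * v ^ A.card * s A ≤ sep ψ p u w * zz ψ' q (fun _ => v) := by
    have e1 : ∑ A : Finset E, q ^ kk ψ' A * v ^ A.card * s A = K * ∑ A : Finset E, wt p A * (f A * s A) := by
      rw [Finset.mul_sum]
      exact Finset.sum_congr rfl fun A _ => by
        rw [hkey A]
        ring
    have e2 : zz ψ' q (fun _ => v) = K * ∑ A : Finset E, wt p A * f A := by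
      rw [hz, Finset.mul_sum]
      exact Finset.sum_congr rfl fun A _ => hkey A
    rw [e1, e2]
    rw [hsep] at hharris
    calc K * ∑ A : Finset E, wt p A * (f A * s A) ≤ K * ((∑ A : Finset E, wt p A * f A) * sep ψ p u w) :=
          mul_le_mul_of_nonneg_left hharris hK0.le
      _ = sep ψ p u w * (K * ∑ A : Finset E, wt p A * f A) := by ring
  constructor
  · rw [hZ]
    have := mul_nonneg hq1 hC0
    linarith
  · rw [hZ]
    have := mul_le_mul_of_nonneg_left hCle hq1
    linarith

end Pool.Agent.Work.MP_63853a_lc.Tr
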