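import Pool.Agent.Work.MP_63853a_lc.Tr.Defs

set_option autoImplicit false

/-!
# Grd (size S): greedy independent sets

Take an independent `I ⊆ W` with the largest number of elements (`Finset.exists_max_image` on the filtered powerset, which
contains `∅`). Every `v ∈ W` is in `I` or adjacent to some `u ∈ I` (else `insert v I` is larger; `nb` is symmetric). So `W` is
contained in the union over `u ∈ I` of `insert u {z ∈ W | z ≠ u ∧ nb φ u z}`; `Finset.card_biUnion_le`.
-/

namespace Pool.Agent.Work.MP_63853a_lc.Tr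

open Finset Pool.Agent.Work.MP_63853a_lc

variable {V E : Type} [Fintype V]

open Classical in
theorem greedy (φ : E → V × V) (W : Finset V) (k Δ : ℕ) (hk : Ind φ k W)
    (hΔ : ∀ v ∈ W, (W.filter fun z => z ≠ v ∧ nb φ v z).card ≤ Δ) : W.card ≤ k * (Δ + 1) := by
  have hsym : ∀ u w : V, nb φ u w → nb φ w u := by
    rintro u w ⟨e, he⟩
    exact ⟨e, he.symm⟩
  obtain ⟨I, hI, hmax⟩ := Finset.exists_max_image
    (W.powerset.filter fun I => ∀ u ∈ I, ∀ w ∈ I, u ≠ w → ¬ nb φ u w) Finset.card
    ⟨∅, by simp⟩
  rw [Finset.mem_filter, Finset.mem_powerset] at hI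
  obtain ⟨hIW, hIi⟩ := hI
  have hcov : ∀ v ∈ W, v ∉ I → ∃ u ∈ I, nb φ u v := by
    intro v hv hvI
    by_contra hcon
    push Not at hcon
    have h1 := hmax (insert v I) (by
      rw [Finset.mem_filter, Finset.mem_powerset]
      refine ⟨Finset.insert_subset hv hIW, ?_⟩
      intro u hu w hw huw
      rw [Finset.mem_insert] at hu hw
      rcases hu with hu | hu
      · rcases hw with hw | hw
        · exact absurd (hu.trans hw.symm) huw
        · rw [hu]
          exact fun h => hcon w hw (hsym _ _ h)
      · rcases hw with hw | hw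
        · rw [hw]
          exact hcon u hu
        · exact hIi u hu w hw huw)
    rw [Finset.card_insert_of_notMem hvI] at h1
    omega
  have hsub : W ⊆ I.biUnion (fun u => insert u (W.filter fun z => z ≠ u ∧ nb φ u z)) := by
    intro v hv
    rw [Finset.mem_biUnion]
    by_cases hvI : v ∈ I
    · exact ⟨v, hvI, Finset.mem_insert_self _ _⟩
    · obtain ⟨u, hu, huv⟩ := hcov v hv hvI
      refine ⟨u, hu, Finset.mem_insert_of_mem ?_⟩
      rw [Finset.mem_filter]
      exact ⟨hv, fun h => hvI (h ▸ hu), huv⟩
  calc W.card ≤ (I.biUnion (fun u => insert u (W.filter fun z => z ≠ u ∧ nb φ u z))).card :=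
        Finset.card_le_card hsub
    _ ≤ I.card * (Δ + 1) := by
        refine Finset.card_biUnion_le_card_mul _ _ _ (fun u hu => ?_)
        exact (Finset.card_insert_le _ _).trans (Nat.add_le_add_right (hΔ u (hIW hu)) 1)
    _ ≤ k * (Δ + 1) := Nat.mul_le_mul_right _ (hk I hIW hIi)

end Pool.Agent.Work.MP_63853a_lc.Tr
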