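import Pool.Agent.Work.MP_63853a_lc.Tr.Defs
import Pool.Agent.Work.MP_63853a_lc.KBasic

set_option autoImplicit false

/-!
# Loops (size S-M): edges outside the tree are loops

Every `A : Finset E` is uniquely `A₁ ∪ L` with `A₁ ⊆ S`, `L ⊆ univ \ S`. A loop never crosses, so
`kk ψ (A₁ ∪ L) = kk ψ A₁ = kk ψ (A₁ ∪ (univ \ S))` (induction on the loops with `kk_insert_eq`), and
`∑ L ∈ (univ \ S).powerset, v ^ L.card = (1 + v) ^ (univ \ S).card` (`Finset.sum_pow_mul_eq_add_pow` or
`Finset.prod_add` with constant factors). In `zz` the product is `v ^ A.card` (`Finset.prod_const`).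
-/

namespace Pool.Agent.Work.MP_63853a_lc.Tr

open Finset Pool.Agent.Work.MP_63853a_lc

variable {V E : Type} [Fintype V] [Fintype E]

open Classical in
private theorem kk_loops (ψ : E → V × V) (A L : Finset E) (h : ∀ e ∈ L, (ψ e).1 = (ψ e).2) :
    kk ψ (A ∪ L) = kk ψ A := by
  induction L using Finset.induction_on with
  | empty => rw [Finset.union_empty]
  | insert e L he ih =>
    rw [Finset.union_insert, kk_insert_eq ψ, ih (fun f hf => h f (mem_insert_of_mem hf))]
    intro hc
    apply hc
    rw [h e (mem_insert_self e L)]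

open Classical in
theorem zz_loops (ψ : E → V × V) (q v : ℝ) (S : Finset E) (h : ∀ e, e ∉ S → (ψ e).1 = (ψ e).2) :
    zz ψ q (fun _ => v) = (1 + v) ^ (univ \ S).card * Phi ψ q v S (univ \ S) := by
  have hk : ∀ A : Finset E, kk ψ (A ∪ (univ \ S)) = kk ψ A := fun A =>
    kk_loops ψ A _ (fun e he => h e (mem_sdiff.1 he).2)
  have hk2 : ∀ A L : Finset E, L ⊆ univ \ S → kk ψ (A ∪ L) = kk ψ A := fun A L hL =>
    kk_loops ψ A _ (fun e he => h e (mem_sdiff.1 (hL he)).2)
  have hd : ∀ A L : Finset E, A ⊆ S → L ⊆ univ \ S → Disjoint A L := by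
    intro A L hA hL
    rw [Finset.disjoint_left]
    intro e he hl
    exact (mem_sdiff.1 (hL hl)).2 (hA he)
  have h1 : zz ψ q (fun _ => v) =
      ∑ p ∈ S.powerset ×ˢ (univ \ S).powerset, v ^ (p.1 ∪ p.2).card * q ^ kk ψ (p.1 ∪ p.2) := by
    unfold zz
    refine Finset.sum_nbij' (fun A => (A ∩ S, A ∩ (univ \ S))) (fun p => p.1 ∪ p.2) ?_ ?_ ?_ ?_ ?_
    · intro A _
      rw [mem_product, mem_powerset, mem_powerset]
      exact ⟨inter_subset_right, inter_subset_right⟩
    · intro p _
      exact mem_univ _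
    · intro A _
      ext e
      simp only [mem_union, mem_inter, mem_sdiff, mem_univ, true_and]
      tauto
    · rintro ⟨A, L⟩ hp
      rw [mem_product, mem_powerset, mem_powerset] at hp
      have hA : ∀ e, e ∈ A → e ∈ S := fun e he => hp.1 he
      have hL : ∀ e, e ∈ L → e ∉ S := fun e he => (mem_sdiff.1 (hp.2 he)).2
      refine Prod.ext ?_ ?_
      · ext e
        simp only [mem_union, mem_inter]
        constructor
        · rintro ⟨h3 | h3, h4⟩
          · exact h3
          · exact absurd h4 (hL e h3)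
        · intro h3
          exact ⟨Or.inl h3, hA e h3⟩
      · ext e
        simp only [mem_union, mem_inter, mem_sdiff, mem_univ, true_and]
        constructor
        · rintro ⟨h3 | h3, h4⟩
          · exact absurd (hA e h3) h4
          · exact h3
        · intro h3
          exact ⟨Or.inr h3, hL e h3⟩
    · intro A _
      have h5 : A ∩ S ∪ A ∩ (univ \ S) = A := by
        ext e
        simp only [mem_union, mem_inter, mem_sdiff, mem_univ, true_and]
        tauto
      simp only [h5, prod_const]
      exact mul_comm _ _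
  rw [h1, sum_product]
  have h2 : ∀ A ∈ S.powerset, ∑ L ∈ (univ \ S).powerset, v ^ (A ∪ L).card * q ^ kk ψ (A ∪ L) =
      (1 + v) ^ (univ \ S).card * (v ^ A.card * q ^ kk ψ (A ∪ (univ \ S))) := by
    intro A hA
    rw [mem_powerset] at hA
    have h3 : ∀ L ∈ (univ \ S).powerset, v ^ (A ∪ L).card * q ^ kk ψ (A ∪ L) =
        v ^ L.card * (v ^ A.card * q ^ kk ψ (A ∪ (univ \ S))) := by
      intro L hL
      rw [mem_powerset] at hL
      rw [hk2 A L hL, hk, card_union_of_disjoint (hd A L hA hL), pow_add]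
      ring
    rw [sum_congr rfl h3, ← sum_mul]
    congr 1
    have h4 := Finset.sum_pow_mul_eq_add_pow v 1 (univ \ S)
    simp only [one_pow, mul_one] at h4
    rw [h4, add_comm]
  rw [sum_congr rfl h2, ← mul_sum]
  rfl

end Pool.Agent.Work.MP_63853a_lc.Tr
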