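import Pool.Agent.Work.MP_63853a_lc.Tr.Glue
import Pool.Agent.Work.MP_63853a_lc.Tr.Cut

set_option autoImplicit false

/-!
# RedZ (size S): the error of a reduction

Induction on `Red` with `glue_step`, `cut_step`; `0 ≤ sep`, `0 ≤ conn` (sums of nonnegative numbers, `wt_nonneg` in
`Russo`), `1 + t ≤ exp t` (`Real.add_one_le_exp`), `zz > 0` is not needed (only `0 ≤ zz`).
-/

namespace Pool.Agent.Work.MP_63853a_lc.Tr

open Finset Pool.Agent.Work.MP_63853a_lc

variable {V E : Type} [Fintype V] [Fintype E]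

private theorem sep_nn (ψ : E → V × V) {p : ℝ} (h0 : 0 ≤ p) (h1 : p ≤ 1) (u w : V) : 0 ≤ sep ψ p u w := by
  unfold sep
  refine Finset.sum_nonneg fun A _ => ?_
  split_ifs
  · exact le_refl _
  · exact wt_nonneg h0 h1 A

private theorem conn_nn (ψ : E → V × V) {p : ℝ} (h0 : 0 ≤ p) (h1 : p ≤ 1) (e : E) : 0 ≤ conn ψ p e := by
  unfold conn
  refine Finset.sum_nonneg fun A _ => ?_
  split_ifs
  · exact wt_nonneg h0 h1 A
  · exact le_refl _

private theorem zz_nn (ψ : E → V × V) {q v : ℝ} (hq : 0 ≤ q) (hv : 0 ≤ v) : 0 ≤ zz ψ q (fun _ => v) := by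
  unfold zz
  refine Finset.sum_nonneg fun A _ => mul_nonneg (pow_nonneg hq _) ?_
  exact Finset.prod_nonneg fun _ _ => hv

theorem red_zz (φ ψ : E → V × V) {x y a d : ℝ} (hx : 1 < x) (hy : 1 < y) (hq : 1 ≤ (x - 1) * (y - 1))
    (h : Red x y φ ψ a d) :
    0 < a ∧ 0 ≤ d ∧
      a * zz ψ ((x - 1) * (y - 1)) (fun _ => y - 1) ≤ zz φ ((x - 1) * (y - 1)) (fun _ => y - 1) ∧
      zz φ ((x - 1) * (y - 1)) (fun _ => y - 1) ≤
        Real.exp (((x - 1) * (y - 1) - 1) * d) * (a * zz ψ ((x - 1) * (y - 1)) (fun _ => y - 1)) := by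
  have hx0 : 0 < x - 1 := by linarith
  have hv0 : 0 < y - 1 := by linarith
  have hxp : 0 < x := by linarith
  have hyp : 0 < y := by linarith
  have hp0 : 0 ≤ 1 / x := by positivity
  have hp1 : 1 / x ≤ 1 := by
    rw [div_le_one hxp]
    exact hx.le
  have hr0 : 0 ≤ 1 - 1 / y := by
    have : 1 / y ≤ 1 := by
      rw [div_le_one hyp]
      exact hy.le
    linarith
  have hr1 : 1 - 1 / y ≤ 1 := by
    have : 0 ≤ 1 / y := by positivity
    linarith
  have hq0 : 0 < (x - 1) * (y - 1) := by positivity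
  have hq1 : 0 ≤ (x - 1) * (y - 1) - 1 := by linarith
  induction h with
  | refl =>
    refine ⟨one_pos, le_refl _, by rw [one_mul], ?_⟩
    rw [mul_zero, Real.exp_zero, one_mul, one_mul]
  | @glue ψ a d u w h huw ih =>
    obtain ⟨ha, hd, h1, h2⟩ := ih
    obtain ⟨g1, g2⟩ := glue_step ψ hx hy hq huw
    have hs := sep_nn ψ hp0 hp1 u w
    have hz := zz_nn (glue ψ u w) hq0.le hv0.le
    generalize (x - 1) * (y - 1) = q at *
    generalize zz ψ q (fun _ => y - 1) = Z at *
    generalize zz (glue ψ u w) q (fun _ => y - 1) = Z' at *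
    generalize zz φ q (fun _ => y - 1) = Zφ at *
    generalize sep ψ (1 / x) u w = s at *
    refine ⟨by positivity, by positivity, ?_, ?_⟩
    · calc a / q * Z' ≤ a / q * (q * Z) := mul_le_mul_of_nonneg_left g1 (by positivity)
        _ = a * Z := by field_simp
        _ ≤ Zφ := h1
    · have e1 : a * Z ≤ Real.exp ((q - 1) * s) * (a / q * Z') := by
        calc a * Z = a / q * (q * Z) := by field_simp
          _ ≤ a / q * ((1 + (q - 1) * s) * Z') := mul_le_mul_of_nonneg_left g2 (by positivity)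
          _ = (1 + (q - 1) * s) * (a / q * Z') := by ring
          _ ≤ Real.exp ((q - 1) * s) * (a / q * Z') := by
            refine mul_le_mul_of_nonneg_right ?_ (by positivity)
            have := Real.add_one_le_exp ((q - 1) * s)
            linarith
      calc Zφ ≤ Real.exp ((q - 1) * d) * (a * Z) := h2
        _ ≤ Real.exp ((q - 1) * d) * (Real.exp ((q - 1) * s) * (a / q * Z')) :=
          mul_le_mul_of_nonneg_left e1 (Real.exp_pos _).le
        _ = _ := by rw [← mul_assoc, ← Real.exp_add, mul_add]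
  | @loop ψ a d e h ih =>
    obtain ⟨ha, hd, h1, h2⟩ := ih
    obtain ⟨g1, g2⟩ := cut_step ψ hx hy hq e
    have hs := conn_nn ψ hr0 hr1 e
    have hz := zz_nn (loopy ψ e) hq0.le hv0.le
    have hf : 0 < x / (y * (x - 1)) := by positivity
    generalize (x - 1) * (y - 1) = q at *
    generalize zz ψ q (fun _ => y - 1) = Z at *
    generalize zz (loopy ψ e) q (fun _ => y - 1) = Z' at *
    generalize zz φ q (fun _ => y - 1) = Zφ at *
    generalize conn ψ (1 - 1 / y) e = s at *
    generalize x / (y * (x - 1)) = f at *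
    refine ⟨by positivity, by positivity, ?_, ?_⟩
    · calc a * f * Z' = a * (f * Z') := by ring
        _ ≤ a * Z := mul_le_mul_of_nonneg_left g1 ha.le
        _ ≤ Zφ := h1
    · have e1 : a * Z ≤ Real.exp ((q - 1) * s) * (a * f * Z') := by
        calc a * Z ≤ a * ((1 + (q - 1) * s) * (f * Z')) := mul_le_mul_of_nonneg_left g2 ha.le
          _ = (1 + (q - 1) * s) * (a * f * Z') := by ring
          _ ≤ Real.exp ((q - 1) * s) * (a * f * Z') := by
            refine mul_le_mul_of_nonneg_right ?_ (by positivity)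
            have := Real.add_one_le_exp ((q - 1) * s)
            linarith
      calc Zφ ≤ Real.exp ((q - 1) * d) * (a * Z) := h2
        _ ≤ Real.exp ((q - 1) * d) * (Real.exp ((q - 1) * s) * (a * f * Z')) :=
          mul_le_mul_of_nonneg_left e1 (Real.exp_pos _).le
        _ = _ := by rw [← mul_assoc, ← Real.exp_add, mul_add]

end Pool.Agent.Work.MP_63853a_lc.Tr
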