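import Pool.Agent.Work.MP_63853a_lc.Tr.Chb
import Pool.Agent.Work.MP_63853a_lc.Tr.Loops
import Pool.Agent.Work.MP_63853a_lc.Tr.RedZ
import Pool.Agent.Work.MP_63853a_lc.Tr.Sub
import Pool.Agent.Work.MP_63853a_lc.TutteZ

set_option autoImplicit false

/-!
# MainI (size M): the sampler on a reduced graph of small branch-width

`q = (x-1)(y-1) ≥ 1`, `v = y-1`, `L = log (s/ε)`, `s/ε ≥ 2`, `D = (x-1)^(kk φ univ) * (y-1)^n`, `T = tutte φ x y`,
`D * T = zz φ q v` (`tutte_zz` in `TutteZ`), `M = Phi ψ q v t.edges (univ \ t.edges)`, `T' = value φ x y a t M`. By `zz_loops`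
(`1 + v = y`) `a * zz ψ q v = D * T'`, so by `red_zz`: `T' ≤ T ≤ exp ((q-1) d) T' ≤ exp (ε/4) T' ≤ (1 + ε/2) T'`
(`exp t ≤ 1 + 2 t` for `0 ≤ t ≤ 1`). If `|m - M| ≤ (ε/2) M` then `|value m - T'| ≤ (ε/2) T'` (`value` is linear in `m` with a
positive coefficient), so `|value m - T| ≤ ε T' ≤ ε T`. Hence by `run_mono` the claim follows from `run_cheb` with
`δ = ε/2`, `Q = exp (|β| * L * log q)`: `hosc` from `FF_osc` (`Sub`) and `q ^ lam ≤ exp (lam * log q) ≤ Q`.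
`hsize`: `(1 + Q/N)^size ≤ exp (size * Q / N) ≤ exp (ε^2/32) ≤ 1 + ε^2/16` if `N ≥ 32 * size * Q / ε^2`. With
`C = 7 + |β| * log q`: `(s/ε)^C = (s/ε)^5 * (s/ε)^2 * Q ≥ 32 * (s/ε)^2 * Q ≥ 32 * size * Q / ε^2` as `s ≥ size`, `s ≥ 1`.
-/

namespace Pool.Agent.Work.MP_63853a_lc.Tr

open Finset Pool.Agent.Work.MP_63853a_lc

private theorem size_pos {E : Type} (t : ETree E) : 1 ≤ t.size := by
  cases t <;> simp [ETree.size]

private theorem exp_le {t : ℝ} (h0 : 0 ≤ t) (h1 : t ≤ 1) : Real.exp t ≤ 1 + 2 * t := by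
  have h := Real.abs_exp_sub_one_le (x := t) (by rw [abs_of_nonneg h0]; exact h1)
  rw [abs_of_nonneg h0] at h
  have := (abs_le.1 h).2
  linarith

private theorem num {s ε Q : ℝ} {N n : ℕ} (hN : 0 < N) (hε : 0 < ε) (hε1 : ε ≤ 1) (hQ : 0 < Q) (hs : 1 ≤ s)
    (hn : (n : ℝ) ≤ s) (h : 32 * (s / ε) ^ 2 * Q ≤ N) : (1 + Q / N) ^ n ≤ 1 + (ε / 2) ^ 2 / 4 := by
  have hNr : (0 : ℝ) < N := Nat.cast_pos.2 hN
  have h1 : (1 + Q / N) ^ n ≤ Real.exp (n * (Q / N)) := by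
    rw [Real.exp_nat_mul]
    refine pow_le_pow_left₀ (by positivity) ?_ n
    have := Real.add_one_le_exp (Q / N)
    linarith
  have h2 : n * (Q / N) ≤ ε ^ 2 / 32 := by
    rw [mul_div_assoc', div_le_iff₀ hNr]
    have h3 : (n : ℝ) * Q ≤ s ^ 2 * Q := by
      refine mul_le_mul_of_nonneg_right ?_ hQ.le
      nlinarith
    have h4 : s ^ 2 * Q = ε ^ 2 / 32 * (32 * (s / ε) ^ 2 * Q) := by
      field_simp
    have h5 : ε ^ 2 / 32 * (32 * (s / ε) ^ 2 * Q) ≤ ε ^ 2 / 32 * N :=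
      mul_le_mul_of_nonneg_left h (by positivity)
    linarith
  have h6 : ε ^ 2 / 32 ≤ 1 := by nlinarith
  calc (1 + Q / N) ^ n ≤ Real.exp (n * (Q / N)) := h1
    _ ≤ Real.exp (ε ^ 2 / 32) := Real.exp_le_exp.2 h2
    _ ≤ 1 + 2 * (ε ^ 2 / 32) := exp_le (by positivity) h6
    _ = 1 + (ε / 2) ^ 2 / 4 := by ring

private theorem close {D a Y M m T T' ε : ℝ} (hD : 0 < D) (ha : 0 < a) (hY : 0 < Y) (hM : 0 < M) (hε : 0 < ε)
    (hT' : T' = a * Y * M / D) (h1 : T' ≤ T) (h2 : T ≤ (1 + ε / 2) * T') (hm : |m - M| ≤ ε / 2 * M) :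
    |a * Y * m / D - T| ≤ ε * T := by
  have hT'0 : 0 < T' := by
    rw [hT']
    positivity
  have e1 : a * Y * m / D - T = a * Y / D * (m - M) + (T' - T) := by
    rw [hT']
    ring
  have e2 : |a * Y / D * (m - M)| ≤ ε / 2 * T' := by
    rw [abs_mul, abs_of_pos (by positivity : 0 < a * Y / D)]
    calc a * Y / D * |m - M| ≤ a * Y / D * (ε / 2 * M) := mul_le_mul_of_nonneg_left hm (by positivity)
      _ = ε / 2 * T' := by
        rw [hT']
        ring
  have e3 : |T' - T| ≤ ε / 2 * T' := by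
    rw [abs_le]
    constructor
    · linarith
    · have : 0 ≤ ε / 2 * T' := by positivity
      linarith
  rw [e1]
  calc |a * Y / D * (m - M) + (T' - T)| ≤ |a * Y / D * (m - M)| + |T' - T| := abs_add_le _ _
    _ ≤ ε / 2 * T' + ε / 2 * T' := add_le_add e2 e3
    _ = ε * T' := by ring
    _ ≤ ε * T := mul_le_mul_of_nonneg_left h1 hε.le

theorem main_one (x y : ℝ) (hx : 1 < x) (hy : 1 < y) (hq : 1 ≤ (x - 1) * (y - 1)) (β : ℝ) :
    ∃ C : ℝ, ∀ (V E : Type) [Fintype V] [Fintype E] (φ ψ : E → V × V) (a d : ℝ) (t : ETree E) (ε : ℝ),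
      0 < ε → ε ≤ 1 → Red x y φ ψ a d → (x - 1) * (y - 1) * d ≤ ε / 4 →
      t.Nodup → (∀ e, e ∉ t.edges → (ψ e).1 = (ψ e).2) →
      (∀ S ∈ t.sets, (lam ψ S : ℝ) ≤
        β * Real.log ((Fintype.card V + Fintype.card E + t.size + 1 : ℕ) / ε)) →
      ∀ N : ℕ, ((Fintype.card V + Fintype.card E + t.size + 1 : ℕ) / ε : ℝ) ^ C ≤ N →
        3 / 4 ≤ good φ ψ x y a t ε N := by
  classical
  refine ⟨7 + |β| * Real.log ((x - 1) * (y - 1)), ?_⟩
  intro V E _ _ φ ψ a d t ε hε hε1 hRed hd ht hloop hw N hN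
  have hx0 : 0 < x - 1 := by linarith
  have hv0 : 0 < y - 1 := by linarith
  have hy0 : 0 < y := by linarith
  have hq0 : 0 < (x - 1) * (y - 1) := by positivity
  have hlq : 0 ≤ Real.log ((x - 1) * (y - 1)) := Real.log_nonneg hq
  set s : ℝ := ((Fintype.card V + Fintype.card E + t.size + 1 : ℕ) : ℝ) with hs
  have hs2 : (2 : ℝ) ≤ s := by
    have h1 := size_pos t
    have h2 : 2 ≤ Fintype.card V + Fintype.card E + t.size + 1 := by omega
    have h3 : ((2 : ℕ) : ℝ) ≤ s := Nat.cast_le.2 h2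
    exact_mod_cast h3
  have hsn : (t.size : ℝ) ≤ s := by
    rw [hs]
    exact_mod_cast (by omega : t.size ≤ Fintype.card V + Fintype.card E + t.size + 1)
  have hsε : 2 ≤ s / ε := by
    rw [le_div_iff₀ hε]
    nlinarith
  have hsε0 : 0 < s / ε := by linarith
  have hL : 0 < Real.log (s / ε) := Real.log_pos (by linarith)
  obtain ⟨ha, hd0, hz1, hz2⟩ := red_zz φ ψ hx hy hq hRed
  have hDT := tutte_zz φ x y
  have hTpos := tutte_pos φ hx hy
  have hzl := zz_loops ψ ((x - 1) * (y - 1)) (y - 1) t.edges hloop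
  have hQdef : (s / ε) ^ (|β| * Real.log ((x - 1) * (y - 1))) =
      Real.exp (|β| * Real.log (s / ε) * Real.log ((x - 1) * (y - 1))) := by
    rw [Real.rpow_def_of_pos hsε0]
    congr 1
    ring
  set Q : ℝ := Real.exp (|β| * Real.log (s / ε) * Real.log ((x - 1) * (y - 1))) with hQ
  have hQ0 : 0 < Q := Real.exp_pos _
  have hosc : ∀ S ∈ t.sets, ∀ B A A' : Finset E, Disjoint B S → A ⊆ S → A' ⊆ S →
      FF ψ ((x - 1) * (y - 1)) S B A ≤ Q * FF ψ ((x - 1) * (y - 1)) S B A' := by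
    intro S hS B A A' hB hA hA'
    refine (FF_osc ψ hq hA hA' hB).trans ?_
    refine mul_le_mul_of_nonneg_right ?_ (FF_nonneg ψ hq0 _ _ _)
    have e1 : ((x - 1) * (y - 1)) ^ lam ψ S = Real.exp (lam ψ S * Real.log ((x - 1) * (y - 1))) := by
      rw [Real.exp_nat_mul, Real.exp_log hq0]
    rw [e1, hQ]
    refine Real.exp_le_exp.2 (mul_le_mul_of_nonneg_right ?_ hlq)
    refine (hw S hS).trans ?_
    exact mul_le_mul_of_nonneg_right (le_abs_self β) hL.le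
  have hNbig : 32 * (s / ε) ^ 2 * Q ≤ N := by
    refine le_trans ?_ hN
    rw [Real.rpow_add hsε0, hQdef]
    refine mul_le_mul_of_nonneg_right ?_ hQ0.le
    have e1 : (s / ε) ^ (7 : ℝ) = (s / ε) ^ 5 * (s / ε) ^ 2 := by
      rw [← pow_add, ← Real.rpow_natCast]
      norm_num
    rw [e1]
    refine mul_le_mul_of_nonneg_right ?_ (by positivity)
    calc (32 : ℝ) = 2 ^ 5 := by norm_num
      _ ≤ (s / ε) ^ 5 := pow_le_pow_left₀ (by norm_num) hsε 5
  have hN0 : 0 < N := by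
    have : (0 : ℝ) < N := lt_of_lt_of_le (by positivity) hNbig
    exact_mod_cast this
  have hsize := num hN0 hε hε1 hQ0 (by linarith : (1 : ℝ) ≤ s) hsn hNbig
  have hcheb := run_cheb ψ hq0 hv0 hN0 Q hQ0.le t ht hosc (ε / 2) (by positivity) hsize
  refine hcheb.trans ?_
  unfold good
  refine run_mono ψ hq0 hv0 hN0 t _ _ fun P m _ _ => ?_
  set M := Phi ψ ((x - 1) * (y - 1)) (y - 1) t.edges (univ \ t.edges) with hM
  have hM0 : 0 < M := Phi_nonneg ψ hq0 hv0 _ _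
  by_cases hm : |m - M| ≤ ε / 2 * M
  · rw [if_pos hm, if_pos]
    have hD : 0 < (x - 1) ^ kk φ univ * (y - 1) ^ Fintype.card V := by positivity
    have hy1 : (1 : ℝ) + (y - 1) = y := by ring
    rw [hy1] at hzl
    have hd2 : ((x - 1) * (y - 1) - 1) * d ≤ ε / 4 := by nlinarith
    have hexp : Real.exp (((x - 1) * (y - 1) - 1) * d) ≤ 1 + ε / 2 := by
      calc Real.exp (((x - 1) * (y - 1) - 1) * d) ≤ Real.exp (ε / 4) := Real.exp_le_exp.2 hd2
        _ ≤ 1 + 2 * (ε / 4) := exp_le (by positivity) (by linarith)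
        _ = 1 + ε / 2 := by ring
    unfold value
    refine close hD ha (by positivity : 0 < y ^ (univ \ t.edges).card) hM0 hε rfl ?_ ?_ hm
    · rw [div_le_iff₀ hD, mul_assoc, ← hzl, mul_comm (tutte φ x y), hDT]
      exact hz1
    · have e1 : a * y ^ (univ \ t.edges).card * M / ((x - 1) ^ kk φ univ * (y - 1) ^ Fintype.card V) =
          a * zz ψ ((x - 1) * (y - 1)) (fun _ => y - 1) / ((x - 1) ^ kk φ univ * (y - 1) ^ Fintype.card V) := by
        rw [hzl, mul_assoc]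
      rw [e1, mul_div_assoc', le_div_iff₀ hD, mul_comm (tutte φ x y), hDT]
      refine hz2.trans (mul_le_mul_of_nonneg_right hexp ?_)
      rw [hzl]
      positivity
  · rw [if_neg hm]
    split_ifs
    · exact zero_le_one
    · exact le_refl _

end Pool.Agent.Work.MP_63853a_lc.Tr
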