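import Pool.Agent.Work.MP_63853a_lc.Tr.Asm
import Pool.Agent.Work.MP_63853a_lc.Tr.BldW

set_option autoImplicit false

/-!
# MainII (size S-M): bounded clique-width

`asm` with `α = 3 * k`, `s = 2 * (card V + card E + 1)`, `R = Gen φ κ T` with `κ = ⌈b log (s/ε)⌉` (`gen_com`). For
`t = build φ c κ T`: `build_nodup`, `build_edges` with `T.verts = univ` and `mem_SS_univ` (an edge outside joins equal classes),
`build_size`: `t.size ≤ 2 card V + 2 card E ≤ s`, and `s ≤ 2 * (card V + card E + t.size + 1)`, `build_lam`.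
-/

namespace Pool.Agent.Work.MP_63853a_lc.Tr

open Finset Pool.Agent.Work.MP_63853a_lc

theorem main_two (x y : ℝ) (hx : 1 < x) (hy : 1 < y) (hq : 1 ≤ (x - 1) * (y - 1)) (k : ℕ) :
    ∃ b C : ℝ, ∀ (V E : Type) [Fintype V] [Fintype E] (φ : E → V × V) (T : VTree V) (ε : ℝ),
      T.Nodup → T.verts = univ → (∀ X ∈ T.sets, Set.ncard (out φ X '' (X : Set V)) ≤ k) → 0 < ε → ε ≤ 1 →
      ∀ κ : ℕ, κ = ⌈b * Real.log ((2 * (Fintype.card V + Fintype.card E + 1) : ℕ) / ε)⌉₊ →
      ∃ c : V → V, (∀ u v, c u = c v ↔ Relation.EqvGen (Gen φ κ T) u v) ∧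
        ∀ N : ℕ, ((2 * (Fintype.card V + Fintype.card E + 1) : ℕ) / ε : ℝ) ^ C ≤ N →
          3 / 4 ≤ good φ (quo φ c) x y (fac x y c) (build φ c κ T) ε N := by
  classical
  obtain ⟨b, C, h⟩ := asm x y hx hy hq (3 * k)
  refine ⟨b, C, ?_⟩
  intro V E _ _ φ T ε hT hU hk hε hε1 κ hκ
  have h2 : (2 : ℝ) ≤ ((2 * (Fintype.card V + Fintype.card E + 1) : ℕ) : ℝ) := by
    have : (2 : ℕ) ≤ 2 * (Fintype.card V + Fintype.card E + 1) := by omega
    exact_mod_cast this
  have h3 : ((Fintype.card V + Fintype.card E + 1 : ℕ) : ℝ) ≤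
      ((2 * (Fintype.card V + Fintype.card E + 1) : ℕ) : ℝ) := by
    have : Fintype.card V + Fintype.card E + 1 ≤ 2 * (Fintype.card V + Fintype.card E + 1) := by omega
    exact_mod_cast this
  obtain ⟨hk2, c, hc, hm⟩ := h V E φ ((2 * (Fintype.card V + Fintype.card E + 1) : ℕ) : ℝ) ε (Gen φ κ T) hε hε1 h2 h3
    (fun u w huw _ => by rw [← hκ]; exact gen_com φ huw)
  rw [← hκ] at hk2 hm
  refine ⟨c, hc, ?_⟩
  have he : (build φ c κ T).edges = SS φ c κ univ := by
    rw [build_edges φ c hk2 T hT, hU]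
  have hsz := build_size φ c hk2 T hT
  have hc1 : T.verts.card ≤ Fintype.card V := Finset.card_le_univ _
  have hc2 : (SS φ c κ T.verts).card ≤ Fintype.card E := Finset.card_le_univ _
  refine hm (build φ c κ T) (build_nodup φ c hk2 T hT) ?_ ?_ ?_ ?_
  · intro e hn
    rw [he, mem_SS_univ] at hn
    exact not_not.mp hn
  · have : (build φ c κ T).size ≤ 2 * (Fintype.card V + Fintype.card E + 1) := by omega
    exact_mod_cast this
  · have : 2 * (Fintype.card V + Fintype.card E + 1) ≤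
        2 * (Fintype.card V + Fintype.card E + (build φ c κ T).size + 1) := by omega
    exact_mod_cast this
  · intro S hS
    exact build_lam φ hk2 hT c hc hk hS

end Pool.Agent.Work.MP_63853a_lc.Tr
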