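import Pool.Agent.Work.MP_63853a_lc.Tr.Sub
import Pool.Agent.Work.MP_63853a_lc.Russo

set_option autoImplicit false

/-!
# Pair (size M): vertices with common neighbours are rarely separated

For `z ∈ Z` choose edges `f z` joining `u` and `z` and `g z` joining `w` and `z` (in `φ`, in either direction). The edges
`f z`, `g z` (`z ∈ Z`) are pairwise different (compare the ends; `u ≠ w`, `z ≠ u`, `z ≠ w`). If `f z` and `g z` are in `A` for
some `z` then `cls (quo φ m) A (m u) = cls (quo φ m) A (m z) = cls (quo φ m) A (m w)` (`Quot.sound`). So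
`sep ≤ ∑ A, wt p A * ∏ z ∈ Z, h z A`, `h z A = 1 - [f z ∈ A] [g z ∈ A]`, and this is `(1 - p^2)^|Z|`: for an edge `e` and a
function `h`, `∑ A, wt p A * h A = ∑ A, wt p A * (p * h (insert e A) + (1 - p) * h (A.erase e))` (group the sets in pairs
`A`, `insert e A`); apply this to `f z`, `g z` and use induction on `Z`. Another way: `∑ A, wt p A * H (A)` with
`H` a product over `e` (as `∑ A ∏`): `Finset.prod_add`. Only `≤` is needed.
-/

namespace Pool.Agent.Work.MP_63853a_lc.Tr

open Finset Pool.Agent.Work.MP_63853a_lc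

variable {V E : Type} [Fintype V] [Fintype E]

open Classical in
private theorem split (e : E) (F : Finset E → ℝ) :
    ∑ A : Finset E, F A = ∑ B ∈ (Finset.univ.erase e).powerset, (F B + F (insert e B)) := by
  rw [Finset.sum_add_distrib, ← Finset.sum_powerset_insert (Finset.notMem_erase e _) F,
    Finset.insert_erase (Finset.mem_univ e), Finset.powerset_univ]

open Classical in
private theorem resample (p : ℝ) (e : E) (h : Finset E → ℝ) :
    ∑ A : Finset E, wt p A * h A = ∑ A : Finset E, wt p A * (p * h (insert e A) + (1 - p) * h (A.erase e)) := by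
  rw [split e, split e]
  refine Finset.sum_congr rfl fun B hB => ?_
  have he : e ∉ B := fun he => Finset.notMem_erase e _ (Finset.mem_powerset.1 hB he)
  have hc : B.card + 1 ≤ Fintype.card E := by
    rw [← Finset.card_insert_of_notMem he]
    exact Finset.card_le_univ _
  rw [Finset.insert_idem, Finset.erase_insert he, Finset.erase_eq_of_notMem he]
  simp only [wt]
  rw [Finset.card_insert_of_notMem he]
  obtain ⟨r, hr⟩ := Nat.exists_eq_add_of_le hc
  have e1 : Fintype.card E - B.card = r + 1 := by omega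
  have e2 : Fintype.card E - (B.card + 1) = r := by omega
  rw [e1, e2, pow_succ, pow_succ]
  ring

open Classical in
private theorem indep {V : Type} (p : ℝ) (f g : V → E) (Z : Finset V)
    (hff : ∀ z ∈ Z, ∀ z' ∈ Z, f z = f z' → z = z') (hgg : ∀ z ∈ Z, ∀ z' ∈ Z, g z = g z' → z = z')
    (hfg : ∀ z ∈ Z, ∀ z' ∈ Z, f z ≠ g z') :
    ∑ A : Finset E, wt p A * ∏ z ∈ Z, (if f z ∈ A ∧ g z ∈ A then (0 : ℝ) else 1) = (1 - p ^ 2) ^ Z.card := by
  induction Z using Finset.induction_on with
  | empty =>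
    simp only [Finset.prod_empty, mul_one, Finset.card_empty, pow_zero]
    exact wt_sum p
  | insert a Z ha ih =>
    have ih' := ih (fun z hz z' hz' => hff z (Finset.mem_insert_of_mem hz) z' (Finset.mem_insert_of_mem hz'))
      (fun z hz z' hz' => hgg z (Finset.mem_insert_of_mem hz) z' (Finset.mem_insert_of_mem hz'))
      (fun z hz z' hz' => hfg z (Finset.mem_insert_of_mem hz) z' (Finset.mem_insert_of_mem hz'))
    have hfa : ∀ z ∈ Z, f z ≠ f a := fun z hz h =>
      ha (hff z (Finset.mem_insert_of_mem hz) a (Finset.mem_insert_self _ _) h ▸ hz)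
    have hga : ∀ z ∈ Z, g z ≠ g a := fun z hz h =>
      ha (hgg z (Finset.mem_insert_of_mem hz) a (Finset.mem_insert_self _ _) h ▸ hz)
    have hfga : ∀ z ∈ Z, f z ≠ g a := fun z hz => hfg z (Finset.mem_insert_of_mem hz) a (Finset.mem_insert_self _ _)
    have hgfa : ∀ z ∈ Z, g z ≠ f a := fun z hz h =>
      hfg a (Finset.mem_insert_self _ _) z (Finset.mem_insert_of_mem hz) h.symm
    have hne : f a ≠ g a := hfg a (Finset.mem_insert_self _ _) a (Finset.mem_insert_self _ _)
    rw [Finset.card_insert_of_notMem ha, pow_succ, ← ih', Finset.sum_mul]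
    set T : Finset E → ℝ := fun A => ∏ z ∈ Z, (if f z ∈ A ∧ g z ∈ A then (0 : ℝ) else 1) with hT
    have hTf : ∀ A, T (insert (f a) A) = T A ∧ T (A.erase (f a)) = T A ∧ T (insert (g a) A) = T A ∧
        T (A.erase (g a)) = T A := by
      intro A
      refine ⟨?_, ?_, ?_, ?_⟩
      all_goals
        refine Finset.prod_congr rfl fun z hz => if_congr ?_ rfl rfl
        simp only [Finset.mem_insert, Finset.mem_erase, ne_eq, hfa z hz, hga z hz, hfga z hz, hgfa z hz, false_or,
          not_false_eq_true, true_and]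
    have e1 : ∀ A : Finset E, ∏ z ∈ insert a Z, (if f z ∈ A ∧ g z ∈ A then (0 : ℝ) else 1) =
        (if f a ∈ A ∧ g a ∈ A then (0 : ℝ) else 1) * T A := fun A => Finset.prod_insert ha
    rw [Finset.sum_congr rfl fun A _ => by rw [e1 A], resample p (f a)]
    have e2 : ∀ A : Finset E, wt p A * (p * ((if f a ∈ insert (f a) A ∧ g a ∈ insert (f a) A then (0 : ℝ) else 1) *
        T (insert (f a) A)) + (1 - p) * ((if f a ∈ A.erase (f a) ∧ g a ∈ A.erase (f a) then (0 : ℝ) else 1) *
        T (A.erase (f a)))) = wt p A * ((p * (if g a ∈ A then (0 : ℝ) else 1) + (1 - p)) * T A) := by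
      intro A
      rw [(hTf A).1, (hTf A).2.1]
      have e3 : (f a ∈ insert (f a) A ∧ g a ∈ insert (f a) A) ↔ g a ∈ A := by
        simp only [Finset.mem_insert, true_or, true_and, Ne.symm hne, false_or]
      have e4 : ¬ (f a ∈ A.erase (f a) ∧ g a ∈ A.erase (f a)) := fun h => Finset.notMem_erase _ _ h.1
      rw [if_congr e3 rfl rfl, if_neg e4]
      ring
    rw [Finset.sum_congr rfl fun A _ => e2 A, resample p (g a)]
    refine Finset.sum_congr rfl fun A _ => ?_
    rw [(hTf A).2.2.1, (hTf A).2.2.2, if_pos (Finset.mem_insert_self _ _), if_neg (Finset.notMem_erase _ _)]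
    ring

theorem sep_common (φ : E → V × V) (m : V → V) {u w : V} (huw : u ≠ w) {κ : ℕ} (h : Com φ κ u w) {p : ℝ}
    (h0 : 0 ≤ p) (h1 : p ≤ 1) : sep (quo φ m) p (m u) (m w) ≤ (1 - p ^ 2) ^ κ := by
  classical
  obtain ⟨Z, hκ, hZ⟩ := h
  have hp2 : 0 ≤ 1 - p ^ 2 := by nlinarith
  have hp3 : 1 - p ^ 2 ≤ 1 := by nlinarith
  rcases Z.eq_empty_or_nonempty with hZe | ⟨z₀, hz₀⟩
  · rw [hZe, Finset.card_empty, Nat.le_zero] at hκ
    rw [hκ, pow_zero, ← wt_sum (E := E) p]
    unfold sep
    refine Finset.sum_le_sum fun A _ => ?_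
    split_ifs
    · exact wt_nonneg h0 h1 A
    · exact le_refl _
  obtain ⟨e₀, _⟩ := (hZ z₀ hz₀).2.2.1
  have hf : ∀ z : V, ∃ e : E, z ∈ Z → (φ e = (u, z) ∨ φ e = (z, u)) := by
    intro z
    by_cases hz : z ∈ Z
    · obtain ⟨e, he⟩ := (hZ z hz).2.2.1
      exact ⟨e, fun _ => he⟩
    · exact ⟨e₀, fun h => absurd h hz⟩
  have hg : ∀ z : V, ∃ e : E, z ∈ Z → (φ e = (w, z) ∨ φ e = (z, w)) := by
    intro z
    by_cases hz : z ∈ Z
    · obtain ⟨e, he⟩ := (hZ z hz).2.2.2
      exact ⟨e, fun _ => he⟩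
    · exact ⟨e₀, fun h => absurd h hz⟩
  choose f hf using hf
  choose g hg using hg
  have hff : ∀ z ∈ Z, ∀ z' ∈ Z, f z = f z' → z = z' := by
    intro z hz z' hz' hzz
    have h3 := hf z hz
    have h4 := hf z' hz'
    rw [← hzz] at h4
    rcases h3 with h3 | h3 <;> rcases h4 with h4 | h4 <;> rw [h3] at h4 <;> simp only [Prod.mk.injEq] at h4
    · exact h4.2
    · exact absurd h4.2 (hZ z hz).1
    · exact absurd h4.1 (hZ z hz).1
    · exact h4.1
  have hgg : ∀ z ∈ Z, ∀ z' ∈ Z, g z = g z' → z = z' := by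
    intro z hz z' hz' hzz
    have h3 := hg z hz
    have h4 := hg z' hz'
    rw [← hzz] at h4
    rcases h3 with h3 | h3 <;> rcases h4 with h4 | h4 <;> rw [h3] at h4 <;> simp only [Prod.mk.injEq] at h4
    · exact h4.2
    · exact absurd h4.2 (hZ z hz).2.1
    · exact absurd h4.1 (hZ z hz).2.1
    · exact h4.1
  have hfg : ∀ z ∈ Z, ∀ z' ∈ Z, f z ≠ g z' := by
    intro z hz z' hz' hzz
    have h3 := hf z hz
    have h4 := hg z' hz'
    rw [← hzz] at h4
    rcases h3 with h3 | h3 <;> rcases h4 with h4 | h4 <;> rw [h3] at h4 <;> simp only [Prod.mk.injEq] at h4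
    · exact huw h4.1
    · exact (hZ z' hz').1 h4.1.symm
    · exact (hZ z hz).2.1 h4.1
    · exact huw h4.2
  have hcon : ∀ (A : Finset E) (a b : V) (e : E), e ∈ A → (φ e = (a, b) ∨ φ e = (b, a)) →
      cls (quo φ m) A (m a) = cls (quo φ m) A (m b) := by
    intro A a b e he hab
    rcases hab with hab | hab
    · exact Quot.sound ⟨e, he, by simp only [quo, hab]⟩
    · exact (Quot.sound ⟨e, he, by simp only [quo, hab]⟩ : cls (quo φ m) A (m b) = cls (quo φ m) A (m a)).symm
  calc sep (quo φ m) p (m u) (m w)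
      ≤ ∑ A : Finset E, wt p A * ∏ z ∈ Z, (if f z ∈ A ∧ g z ∈ A then (0 : ℝ) else 1) := by
        unfold sep
        refine Finset.sum_le_sum fun A _ => ?_
        split_ifs with hA
        · refine mul_nonneg (wt_nonneg h0 h1 A) (Finset.prod_nonneg fun z _ => ?_)
          split_ifs <;> norm_num
        · have h5 : ∏ z ∈ Z, (if f z ∈ A ∧ g z ∈ A then (0 : ℝ) else 1) = 1 := by
            refine Finset.prod_eq_one fun z hz => if_neg ?_
            rintro ⟨h6, h7⟩
            exact hA ((hcon A u z (f z) h6 (hf z hz)).trans (hcon A w z (g z) h7 (hg z hz)).symm)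
          rw [h5, mul_one]
    _ = (1 - p ^ 2) ^ Z.card := indep p f g Z hff hgg hfg
    _ ≤ (1 - p ^ 2) ^ κ := pow_le_pow_of_le_one hp2 hp3 hκ

end Pool.Agent.Work.MP_63853a_lc.Tr
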