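import Pool.Agent.Work.MP_63853a_lc.Tr.Lab

set_option autoImplicit false

/-!
# SSf (size S-M): the edges which belong to a set

`SS_mono`: `Own φ κ X e → Own φ κ Y e` for `X ⊆ Y`: if one end `a ∈ X` is `Big` for `X` and the other end `b` is outside `Y` then
`a` is `Big` for `Y` (`lab_mono`, `out_anti`, card). `SS_disj`: if both ends are in `X₁`, no end is in `X₂`. Otherwise `e` has the
ends `a ∈ X₁`, `b ∉ X₁` with `a` `Big` for `X₁`, and `b ∈ X₂`, `a ∉ X₂`, `b` `Big` for `X₂`. Every `z ∈ lab φ X₂ b` has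
`a ∈ out φ X₂ b = out φ X₂ z`, so `z` is adjacent to `a` and `z ∉ X₁`: `lab φ X₂ b ⊆ out φ X₁ a`, hence
`κ ≤ |lab φ X₂ b| ≤ |out φ X₁ a| < κ`. `SS_leaf`: both ends equal `v` (then `c` is equal on them) or
`κ ≤ |lab φ {v} v| ≤ 1`. `SS_univ`: clear.
-/

namespace Pool.Agent.Work.MP_63853a_lc.Tr

open Finset Pool.Agent.Work.MP_63853a_lc

variable {V E : Type} [Fintype V] [Fintype E]

omit [Fintype E] in
private theorem big_mono (φ : E → V × V) {κ : ℕ} {X Y : Finset V} (h : X ⊆ Y) {v : V} (hv : Big φ κ X v) :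
    Big φ κ Y v :=
  ⟨hv.1.trans (Finset.card_le_card (lab_mono φ h v)),
    (Finset.card_le_card (out_anti φ h v)).trans_lt hv.2⟩

omit [Fintype E] in
private theorem big_big (φ : E → V × V) {κ : ℕ} {X Y : Finset V} (h : Disjoint X Y) {a b : V} (ha : a ∈ X)
    (hab : nb φ a b) (h1 : Big φ κ X a) (h2 : Big φ κ Y b) : False := by
  have h3 : lab φ Y b ⊆ out φ X a := by
    intro z hz
    simp only [lab, Finset.mem_filter] at hz
    have haz : a ∈ out φ Y z := by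
      rw [hz.2]
      simp only [out, Finset.mem_filter, Finset.mem_univ, true_and]
      exact ⟨Finset.disjoint_left.mp h ha, nb_symm φ hab⟩
    simp only [out, Finset.mem_filter, Finset.mem_univ, true_and] at haz ⊢
    exact ⟨Finset.disjoint_right.mp h hz.1, nb_symm φ haz.2⟩
  have h4 := Finset.card_le_card h3
  have h5 := h1.2
  have h6 := h2.1
  omega

private theorem mem_SS (φ : E → V × V) (c : V → V) (κ : ℕ) (X : Finset V) (e : E) :
    e ∈ SS φ c κ X ↔ c (φ e).1 ≠ c (φ e).2 ∧ Own φ κ X e := by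
  simp [SS]

theorem SS_mono (φ : E → V × V) (c : V → V) (κ : ℕ) {X Y : Finset V} (h : X ⊆ Y) :
    SS φ c κ X ⊆ SS φ c κ Y := by
  intro e he
  rw [mem_SS] at he ⊢
  refine ⟨he.1, ?_⟩
  rcases he.2 with h1 | h1 | h1
  · exact Or.inl ⟨h h1.1, h h1.2⟩
  · by_cases h2 : (φ e).2 ∈ Y
    · exact Or.inl ⟨h h1.1, h2⟩
    · exact Or.inr (Or.inl ⟨h h1.1, h2, big_mono φ h h1.2.2⟩)
  · by_cases h2 : (φ e).1 ∈ Y
    · exact Or.inl ⟨h2, h h1.1⟩
    · exact Or.inr (Or.inr ⟨h h1.1, h2, big_mono φ h h1.2.2⟩)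

theorem SS_disj (φ : E → V × V) (c : V → V) (κ : ℕ) {X Y : Finset V} (h : Disjoint X Y) :
    Disjoint (SS φ c κ X) (SS φ c κ Y) := by
  rw [Finset.disjoint_left]
  intro e he he'
  rw [mem_SS] at he he'
  have hd : ∀ v, v ∈ X → v ∈ Y → False := fun v h1 h2 => Finset.disjoint_left.mp h h1 h2
  have hnb : nb φ (φ e).1 (φ e).2 := ⟨e, Or.inl rfl⟩
  rcases he.2 with h1 | h1 | h1
  · rcases he'.2 with h2 | h2 | h2
    · exact hd _ h1.1 h2.1
    · exact hd _ h1.1 h2.1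
    · exact hd _ h1.2 h2.1
  · rcases he'.2 with h2 | h2 | h2
    · exact hd _ h1.1 h2.1
    · exact hd _ h1.1 h2.1
    · exact big_big φ h h1.1 hnb h1.2.2 h2.2.2
  · rcases he'.2 with h2 | h2 | h2
    · exact hd _ h1.1 h2.2
    · exact big_big φ h h1.1 (nb_symm φ hnb) h1.2.2 h2.2.2
    · exact hd _ h1.1 h2.1

theorem SS_leaf (φ : E → V × V) (c : V → V) {κ : ℕ} (hκ : 2 ≤ κ) (v : V) : SS φ c κ {v} = ∅ := by
  rw [Finset.eq_empty_iff_forall_notMem]
  intro e he
  rw [mem_SS] at he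
  have hb : ∀ a, ¬ Big φ κ {v} a := by
    intro a ha
    have h1 := ha.1
    have h2 : (lab φ {v} a).card ≤ ({v} : Finset V).card := by
      refine Finset.card_le_card (fun z hz => ?_)
      simp only [lab, Finset.mem_filter] at hz
      exact hz.1
    rw [Finset.card_singleton] at h2
    omega
  rcases he.2 with h1 | h1 | h1
  · apply he.1
    rw [Finset.mem_singleton.mp h1.1, Finset.mem_singleton.mp h1.2]
  · exact hb _ h1.2.2
  · exact hb _ h1.2.2

theorem mem_SS_univ (φ : E → V × V) (c : V → V) (κ : ℕ) (e : E) :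
    e ∈ SS φ c κ univ ↔ c (φ e).1 ≠ c (φ e).2 := by
  rw [mem_SS]
  exact ⟨fun h => h.1, fun h => ⟨h, Or.inl ⟨Finset.mem_univ _, Finset.mem_univ _⟩⟩⟩

end Pool.Agent.Work.MP_63853a_lc.Tr
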